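import Pool.Agent.P.MP_f1a348_lc.CU.Defs

/-!
Project CU: the computation of the core.
-/

namespace Pool.Agent.P.MP_f1a348_lc.UP.CU

open Matrix Module Pool.Agent.P.MP_f1a348_lc.PG
open scoped commutatorElement

namespace COREz

variable {p n : ℕ}

theorem conj_sub (h g : GG p n) : (h * g * h⁻¹).1 - 1 = cj h.1 (g.1 - 1) := by
  rw [map_sub, h.2.2.1.cj_one]; rfl

theorem comm_sub (a c : GG p n) : (a * c * a⁻¹ * c⁻¹).1 - 1 = (cj a.1 c.1 - c.1) * (c⁻¹).1 := by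
  rw [sub_mul, val_inv c, c.2.2.1.mul_st]; rfl

theorem comm_sub' (a c : GG p n) : cj a.1 c.1 - c.1 = ((a * c * a⁻¹ * c⁻¹).1 - 1) * c.1 := by
  rw [comm_sub, mul_assoc, val_inv c, c.2.2.1.st_mul, mul_one]

end COREz

open COREz in
theorem s_CORE (p n : ℕ) [Fact p.Prime] (b : TB p n) (hPERM : S_PERM p n) (hTREE : S_TREE p n)
    (hNPG : S_NPG p) : S_CORE p n := by
  intro H N hN
  obtain ⟨-, k2, k3, k4, -⟩ := b.kid (GG p n)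
  obtain ⟨-, -, -, -, s5, s6, s7, s8, -, -, -, s12, s13, s14, -⟩ := b.sol (GG p n)
  obtain ⟨-, o2, -⟩ := b.op (GG p n)
  refine ⟨fun h => ⟨le_rfl, h, fun Z hZ _ => hZ, Kids.nil _ _, s5 _ _ inf_le_left,
    fun M Z _ _ _ _ _ => by rw [k4]; exact le_top⟩, ?_, fun Y F h => ⟨h.inv.le, h.stable, h.inv.max⟩⟩
  rintro Y F f ℓ h I Y' hY hC h1 h2 hI rfl
  obtain ⟨f1, f2, f3, f4, f5⟩ := o2 Y
  set N1 := Fr p Y with hN1
  obtain ⟨hR, e2, -, e4, e5, e6, -⟩ := b.env.1 N1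
  have nm1 : Nm H N1 := f2 H hY.nm
  have hH : H ≤ NmS (Env N1) := e4 H nm1
  have n1H : N1 ≤ H := f1.trans (hY.le.trans hN)
  obtain ⟨-, q2, -, -, -, q6⟩ := hPERM H _ f ℓ hR hC hH
  obtain ⟨t1, t2⟩ := hTREE H _ f ℓ h hR hC hH h1 h2
  rw [← hI] at q2 t1 t2
  obtain ⟨b1, -, b3⟩ := b.blk _ f ℓ hR hC
  have ks : ∀ α, ∀ g ∈ N1, g ∈ KS f ℓ α ↔ g.1 - 1 ∈ MI (Env N1) f ℓ {α} := fun α g hg =>
    (b1 α).2.2.2.2.2 g (e2 g hg)
  have kb : ∀ g ∈ N1, g ∈ KB f ℓ I ↔ g.1 - 1 ∈ MI (Env N1) f ℓ I := fun g hg => by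
    rw [mem_KB, (b3 I).2.1, and_iff_right (sub_mem (e2 g hg) hR.one)]
    exact forall₂_congr fun α _ => ks α g hg
  have mx : ∀ Z, Z ≤ N → Stable Z → Z ≤ N1 ⊓ KB f ℓ I := fun Z hZ sZ => by
    have z1 : Z ≤ N1 := f4 Z (hY.max Z hZ sZ) sZ.1
    refine le_inf z1 fun g hg => mem_KB.2 fun α hα => ?_
    rw [hI] at hα
    exact (b.stcf.2.1 Z _ f ℓ α hR hC ((b.env.1 Z).2.2.1 _ z1)).2 sZ hα.2 hg
  refine ⟨⟨inf_le_left.trans (f1.trans hY.le), fun g hg k hk => ?_, mx, k2 _ _ _ _ hY.val t1, ?_,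
    fun M Z hM nM hZ sZ pw => ?_⟩, hH, inf_le_left.trans f1, fun hle => ?_, mx Y hY.le⟩
  · refine ⟨nm1 g hg k hk.1, (kb _ (nm1 g hg k hk.1)).2 ?_⟩
    rw [conj_sub]
    exact mem_NmS.1 (q2 hg) _ ((kb k hk.1).1 hk.2)
  · rw [k3, t2]
    refine s8 _ Y _ (s7 _ _ _ _ (inf_le_inf_left _ inf_le_left) le_rfl hY.solv)
      (s8 _ N1 _ (s6 _ _ fun a ha c hc => f3 a ha.2 c hc.2) (s6 _ _ fun a ha c hc => ?_))
    have m1 : ⁅a, c⁆ ∈ N1 :=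
      mul_mem (mul_mem (mul_mem ha.2 hc.2) (inv_mem ha.2)) (inv_mem hc.2)
    refine ⟨m1, (kb _ m1).2 ?_⟩
    rw [commutatorElement_def, comm_sub]
    exact ((b3 I).2.2 _ (e2 _ (inv_mem hc.2)) _ ((mem_CenQ.1 ha.1.1.2.2.2).2 _ (e2 c hc.2))).2
  · rw [k3, t2]
    refine le_inf (hY.near M Z hM nM hZ sZ pw) fun g hg => (q6 I g).2 ⟨hM hg, fun α hα => ?_⟩
    have lab := hC.lab
    have st1 : N1 ≤ Stb (sL f ℓ α) ⊓ Stb (sH f ℓ α) := fun x hx =>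
      (b.sec.1 f ℓ α lab).2.2.2.2.1 x.1 ((e6 f ℓ).1 hC.tri x hx)
    obtain ⟨-, r2, -, r4, -⟩ := b.rb f ℓ α lab
    obtain ⟨r2, r3⟩ := r2 N1 st1
    have hD : ∀ x ∈ N1 ⊓ M, x ∈ KS f ℓ α := fun x hx => (r3 x hx.1).2 <|
      hNPG (GG p n) (Vb ℓ α : VS p n) N1 (N1 ⊓ M) _ r2 (r4 N1 hC) inf_le_left
        (s12 _ _ _ (s14 N1) (s13 _ _ _ n1H nM)).1 (fun y hy => by
          obtain ⟨k, hk⟩ := pw y ⟨hY.le (f1 hy.1), hy.2⟩
          have := mx Z (hZ.trans inf_le_left) sZ hk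
          exact ⟨k, (r3 _ this.1).1 (mem_KB.1 this.2 α hα)⟩) x hx
    have key : ∀ x ∈ Env N1, cj g.1 x - x ∈ MI (Env N1) f ℓ {α} := fun x hx => by
      induction hx using Submodule.span_induction with
      | mem x hx =>
        obtain ⟨c, hc, rfl⟩ := hx
        have m1 : g * c * g⁻¹ * c⁻¹ ∈ N1 := mul_mem (nm1 g (hM hg) c hc) (inv_mem hc)
        have m2 : g * c * g⁻¹ * c⁻¹ ∈ M := by
          have := mul_mem hg (nM c (n1H hc) _ (inv_mem hg))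
          simpa only [mul_assoc] using this
        rw [comm_sub']
        exact ((b3 {α}).2.2 _ (e2 c hc) _ ((ks α _ m1).1 (hD _ ⟨m1, m2⟩))).2
      | zero => simp
      | add x y _ _ hx hy => rw [map_add, add_sub_add_comm]; exact add_mem hx hy
      | smul c x _ hx => rw [map_smul, ← smul_sub]; exact Submodule.smul_mem _ c hx
    refine mem_CenQ.2 ⟨fun y hy => ?_, key⟩
    simpa using add_mem (key y ((b3 {α}).1 hy)) hy
  · have a1 : Y ≤ N1 := hle.trans inf_le_left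
    have a2 : N1 ≤ KB f ℓ I := f1.trans (hle.trans inf_le_right)
    rw [inf_eq_left.2 a2]
    refine (b.stcf.1 N1 f ℓ hC).2 ⟨le_antisymm a1 f1 ▸ f5 a1, fun a ha => ?_⟩
    by_contra hlt
    refine ha (b.stcf.2.2 N1 f ℓ a hC fun g hg => mem_KB.1 (a2 hg) a ?_)
    rw [hI]
    exact ⟨ha, not_lt.1 hlt⟩

end Pool.Agent.P.MP_f1a348_lc.UP.CU
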