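import Pool.Agent.P.MP_f1a348_lc.CU.EDefs
import Pool.Agent.P.MP_f1a348_lc.CF.TLOC2

/-! Proof of CRX. -/

namespace Pool.Agent.P.MP_f1a348_lc.UP.CU

open Matrix Module Pool.Agent.P.MP_f1a348_lc.PG
open Pool.Agent.P.MP_f1a348_lc.CF

namespace CRXy

theorem cut {R : Type*} [Ring R] {C P T : R} (hl : P * C = C) (hr : C * P = C)
    (hT : P * T = T * P) : C * T = T * C ↔ Commute C (T * P) := by
  rw [Commute, SemiconjBy, mul_assoc T, hl, ← hT, ← mul_assoc, hr]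

theorem back {R : Type*} [Ring R] {u v : R} (h : u * v = 1) (C : R) :
    u * (v * C * u) * v = C := by
  rw [show u * (v * C * u) * v = (u * v) * C * (u * v) by simp only [mul_assoc], h, one_mul,
    mul_one]

theorem sand {R : Type*} [Ring R] {u v : R} (h : u * v = 1) (X C Y : R) :
    v * X * u * (v * C * u) * (v * Y * u) = v * (X * C * Y) * u := by
  rw [show v * X * u * (v * C * u) * (v * Y * u) = v * (X * (u * v) * C * (u * v) * Y) * u by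
    simp only [mul_assoc], h, mul_one, mul_one]

end CRXy

theorem s_CRX (p n : ℕ) [Fact p.Prime] (m : PM p n) : S_CRX p n := by
  classical
  intro ℓ ℓ' B Bt B' β a η u v hS hE hm
  obtain ⟨γ, hγ⟩ := Finset.card_pos.1 ((nb_pos ℓ' β).trans_eq hm.symm)
  obtain ⟨-, g1, g2⟩ := Finset.mem_filter.1 hγ
  have h1 : ∀ δ, ℓ' δ = ℓ' γ → ℓ δ = ℓ a ∧ Cb ℓ' B' β δ ≠ ⊥ := fun δ e =>
    ⟨(le_antisymm (hS.ref.fine _ _ e.le) (hS.ref.fine _ _ e.ge)).trans g1,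
      by rwa [Cb_congr rfl e]⟩
  have h2 : (Finset.univ.filter fun δ => ℓ' δ = ℓ' γ) =
      Finset.univ.filter fun δ => ℓ δ = ℓ a ∧ Cb ℓ' B' β δ ≠ ⊥ :=
    Finset.eq_of_subset_of_card_le (Finset.monotone_filter_right _ fun δ _ => h1 δ)
      (hm.trans (nb_eq hS.str' g2)).le
  have hP : ec ℓ' B' β * pr ℓ a = pr ℓ' γ := by
    rw [ec, pr, pr, diagonal_mul_diagonal]
    congr 1
    funext δ
    have := Finset.ext_iff.1 h2 δ
    simp only [Finset.mem_filter, Finset.mem_univ, true_and] at this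
    by_cases e1 : ℓ δ = ℓ a <;> by_cases e2 : Cb ℓ' B' β δ = ⊥ <;> simp [this, e1, e2]
  have hP' : pr ℓ' γ = v * (η * pr ℓ a) * u := by
    rw [mul_assoc, mul_assoc, hE.dgu.comm_pr, ← mul_assoc η, hE.conj, mul_assoc u, hP,
      ← mul_assoc, hE.vu, one_mul]
  have cP : ∀ b ∈ Bt, pr ℓ a * b = b * pr ℓ a := fun b hb => (hS.alg.dg b hb).comm_pr a
  have hη : ∀ b ∈ Bt, η * b * η ∈ Bt := fun b hb =>
    hS.alg.mul _ (hS.alg.mul _ hE.mem _ hb) _ hE.mem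
  have k1 : ∀ b ∈ Bt, gr ℓ' b * pr ℓ' γ = v * (η * b * η * pr ℓ a) * u := fun b hb => by
    have t1 := hS.ref.tri b hb
    simp only [st_one, one_mul, mul_one] at t1
    have c3 := LOC2x.pr_gr (ℓ := ℓ') γ (v * b * u)
    rw [gr_mul (hE.triv.mul t1) hE.triu, gr_mul hE.triv t1, hE.gru, hE.grv, one_mul,
      mul_one] at c3
    rw [← c3, hP', CRXy.sand hE.uv, mul_assoc η _ b, cP b hb, ← mul_assoc η b,
      mul_assoc (η * b), ← mul_assoc (pr ℓ a), cP η hE.mem, mul_assoc η (pr ℓ a), pr_mul_pr,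
      ← mul_assoc (η * b)]
  have mB : ∀ c, c ∈ B' ↔ ∃ b ∈ Bt, gr ℓ' b = c := fun c => by
    rw [hS.ref.eq, Submodule.mem_map]
    simp only [LinearMap.comp_apply, cj_apply, st_one, one_mul, mul_one]
  have hv : ∀ x ∈ Vb ℓ a, η *ᵥ x = x → v *ᵥ x ∈ Vb ℓ' γ := fun x hx e => by
    rw [mem_Vb_iff] at hx ⊢
    rw [hP', mulVec_mulVec, mul_assoc, hE.uv, mul_one, ← mulVec_mulVec, ← mulVec_mulVec, hx, e]
  have eP : ∀ C : Mat p n, η * pr ℓ a * C * (η * pr ℓ a) = C →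
      pr ℓ a * C = C ∧ C * pr ℓ a = C := fun C hC => by
    constructor
    · rw [← hC, ← mul_assoc (pr ℓ a), ← mul_assoc (pr ℓ a), ← mul_assoc (pr ℓ a), cP η hE.mem,
        mul_assoc η (pr ℓ a) (pr ℓ a), pr_mul_pr]
    · rw [← hC, mul_assoc _ _ (pr ℓ a), mul_assoc η (pr ℓ a) (pr ℓ a), pr_mul_pr]
  have eQ : ∀ D : Mat p n, pr ℓ' γ * D * pr ℓ' γ = D →
      pr ℓ' γ * D = D ∧ D * pr ℓ' γ = D := fun D hD => by
    constructor
    · rw [← hD, ← mul_assoc, ← mul_assoc, pr_mul_pr]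
    · rw [← hD, mul_assoc, pr_mul_pr]
  refine ⟨fun x hx ex x0 y hy ey => ?_, ?_⟩
  · have x1 : v *ᵥ x ≠ 0 := fun e => x0 (by
      rw [← one_mulVec x, ← hE.uv, ← mulVec_mulVec, e, mulVec_zero])
    obtain ⟨c, hc, e⟩ := hS.str'.sim γ _ (hv x hx ex) x1 _ (hv y hy ey)
    obtain ⟨b, hb, rfl⟩ := (mB c).1 hc
    refine ⟨_, hη b hb, ?_⟩
    rw [← mem_Vb_iff.1 (hv x hx ex), mulVec_mulVec, k1 b hb, mulVec_mulVec, mul_assoc, hE.uv,
      mul_one, ← mulVec_mulVec, ← mulVec_mulVec, mem_Vb_iff.1 hx] at e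
    have := congrArg (u *ᵥ ·) e
    simpa only [mulVec_mulVec, ← mul_assoc, hE.uv, one_mul, one_mulVec] using this
  · rw [eb_eq hS.str' g2, eb.eq_1 ℓ']
    refine le_antisymm (finrank_le_of_mul (lr v u) (lr u v) (fun C hC => ?_)
      fun C _ => CRXy.back hE.uv C) (finrank_le_of_mul (lr u v) (lr v u) (fun D hD => ?_)
      fun C _ => CRXy.back hE.vu C)
    · have q : pr ℓ' γ * (v * C * u) * pr ℓ' γ = v * C * u := by
        rw [hP', CRXy.sand hE.uv, hC.1]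
      refine ⟨fun c hc => ?_, q⟩
      obtain ⟨b, hb, rfl⟩ := (mB c).1 hc
      refine (CRXy.cut (eQ _ q).1 (eQ _ q).2 ((dg_gr b).comm_pr γ)).2 ?_
      rw [k1 b hb]
      exact LOC2x.conj hE.uv
        ((CRXy.cut (eP _ hC.1).1 (eP _ hC.1).2 (cP _ (hη b hb))).1 (hC.2 b hb))
    · have q : η * pr ℓ a * (u * D * v) * (η * pr ℓ a) = u * D * v := by
        rw [← CRXy.back hE.uv (η * pr ℓ a), ← hP', CRXy.sand hE.vu, hD.2]
      refine ⟨q, fun b hb => ?_⟩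
      refine (CRXy.cut (eP _ q).1 (eP _ q).2 (cP _ (hη b hb))).2 ?_
      rw [← CRXy.back hE.uv (η * b * η * pr ℓ a), ← k1 b hb]
      exact LOC2x.conj hE.vu ((CRXy.cut (eQ _ hD.2).1 (eQ _ hD.2).2 ((dg_gr b).comm_pr γ)).1
        (hD.1 _ ((mB _).2 ⟨b, hb, rfl⟩)))

end Pool.Agent.P.MP_f1a348_lc.UP.CU
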