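import Pool.Agent.P.MP_f1a348_lc.CU.EDefs
import Pool.Agent.P.MP_f1a348_lc.CF.TGAIN0

/-!
Project CU: consequences of the gain of potential.
-/

namespace Pool.Agent.P.MP_f1a348_lc.UP.CU

open Matrix Module Pool.Agent.P.MP_f1a348_lc.PG
open Pool.Agent.P.MP_f1a348_lc.CF

namespace GABCy

variable {p n : ℕ} [Fact p.Prime] {ℓ : Ix n → ℕ} {B Bt : Sub p n} {a : Ix n} {η : Mat p n}
  {df ex : ℕ}

theorem le_df (hB : Alg ℓ B) (c : Cr ℓ B Bt a η df ex) {U : VS p n} (hU : U ≤ Vb ℓ a)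
    (h : ∀ x ∈ U, η *ᵥ x = 0) : finrank (ZMod p) U ≤ df := by
  rw [← c.on a (cb_refl hB a)]
  exact Submodule.finrank_mono fun x hx => ⟨mem_im.2 ⟨x, by
    rw [Matrix.sub_mulVec, Matrix.one_mulVec, h x hx, sub_zero]⟩, hU hx⟩

theorem ne (hB : Alg ℓ B) (c : Cr ℓ B Bt a η df ex) : η * pr ℓ a ≠ 0 := fun e => by
  have h := le_df hB c le_rfl fun x hx => by
    rw [← mem_Vb_iff.1 hx, Matrix.mulVec_mulVec, e, Matrix.zero_mulVec]
  rw [finrank_Vb] at h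
  exact absurd c.lt (not_lt.2 h)

theorem mem_ex (ht : Alg ℓ Bt) (c : Cr ℓ B Bt a η df ex) {C : Mat p n} (hC : C ∈ Cb ℓ Bt a a) :
    η * C ∈ Ex ℓ Bt η a := by
  have h1 := hC.1 η c.mem
  have h2 : ∀ x, η * (η * x) = η * x := fun x => by rw [← mul_assoc, c.idem]
  refine ⟨?_, fun b hb => ?_⟩
  · have h3 : pr ℓ a * (η * C) = η * C := by rw [← h1, ← mul_assoc, cb_left hC]
    have h4 : C * (η * pr ℓ a) = η * C := by rw [← mul_assoc, h1, mul_assoc, cb_right hC]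
    rw [mul_assoc η (pr ℓ a), h3, h2, mul_assoc, h4, h2]
  · rw [mul_assoc η C, hC.1 _ (ht.mul _ (ht.mul _ c.mem _ hb) _ c.mem)]
    simp only [mul_assoc, h2]

theorem eb_le (hB : Alg ℓ B) (ht : Alg ℓ Bt) (c : Cr ℓ B Bt a η df ex) : eb ℓ B a ≤ ex := by
  refine Nat.le_of_dvd (Nat.pos_of_ne_zero fun e => ne hB c ?_) c.dvd
  have h := mem_ex ht c (cb_pr ht a)
  rwa [Submodule.finrank_eq_zero.1 (c.dim.trans e), Submodule.mem_bot] at h

theorem eb_le' (hB : Alg ℓ B) (ht : Str ℓ Bt) (c : Cr ℓ B Bt a η df ex) : eb ℓ Bt a ≤ ex := by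
  rw [← c.dim]
  refine LinearMap.finrank_le_finrank_of_injective
    (f := (lm η).restrict fun C hC => mem_ex ht.alg c hC) ((injective_iff_map_eq_zero _).2 ?_)
  rintro ⟨C, hC⟩ e
  by_contra h0
  obtain ⟨D, -, e1, -⟩ := schur ht hC fun e => h0 (Subtype.ext e)
  refine ne hB c ?_
  rw [← e1, ← mul_assoc, show η * C = 0 from congrArg Subtype.val e, zero_mul]

theorem inv_le (hB : Alg ℓ B) (ht : Alg ℓ Bt) (c : Cr ℓ B Bt a η df ex) {U : VS p n}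
    (hU : U ≤ Vb ℓ a) (h : ∀ b ∈ Bt, ∀ x ∈ U, b *ᵥ x ∈ U) :
    finrank (ZMod p) U ≤ df ∨ nb ℓ a ≤ finrank (ZMod p) U + df := by
  rw [or_iff_not_imp_left]
  intro h1
  obtain ⟨u, hu, h0⟩ : ∃ u ∈ U, η *ᵥ u ≠ 0 := by
    by_contra h2
    push Not at h2
    exact h1 (le_df hB c hU h2)
  rw [← GAIN0x.split c.idem (ht.dg η c.mem) a, c.on a (cb_refl hB a)]
  refine Nat.add_le_add_right (Submodule.finrank_mono ?_) _
  rintro _ ⟨⟨y, rfl⟩, hy⟩
  have h2 := h η c.mem u hu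
  obtain ⟨b, hb, e⟩ := c.sim _ (hU h2) (by rw [Matrix.mulVec_mulVec, c.idem]) h0 _ hy
    (by rw [Matrix.mulVecLin_apply, Matrix.mulVec_mulVec, c.idem])
  exact e ▸ h b hb _ h2

end GABCy

open GABCy in
theorem s_GABC (p n : ℕ) [Fact p.Prime] (m : PM p n) (hGQ : S_GQ p n) : S_GABC p n := by
  intro μ ℓ B Bt hB ht hle
  obtain ⟨g1, g2⟩ := hGQ μ ℓ B Bt hB ht hle
  refine ⟨fun hs hn => ?_, fun a U t s hU h u1 u2 => ?_, fun hs a t s => ?_⟩
  · by_contra hc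
    refine lt_irrefl _ (m.g1 ℓ B Bt _ hB ht ⟨le_rfl, fun a t => ?_⟩ hn)
    rcases g2 a t (hs a t) with h | ⟨η, df, ex, c, h⟩
    · have := nb_pos ℓ a
      omega
    · have := eb_le hB.alg ht c
      exact ⟨η, df, ⟨c.mem, c.idem, c.off, c.on, c.corner (by omega)⟩, by omega⟩
  · rcases g2 a t s with h1 | ⟨η, df, ex, c, h1⟩
    · omega
    · have := eb_le hB.alg ht c
      have := inv_le hB.alg ht c hU h
      omega
  · refine (g2 a t s).imp_right ?_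
    rintro ⟨η, df, ex, c, h1⟩
    have hS : Str ℓ Bt := ⟨hB.lab, ht, hs⟩
    have := eb_le' hB.alg hS c
    refine ⟨by omega, fun b hb => ?_⟩
    by_contra h2
    obtain ⟨C, hC, h0⟩ := exists_cb_ne h2
    obtain ⟨D, -, e1, -⟩ := schur hS hC h0
    refine ne hB.alg c ?_
    rw [← e1, ← mul_assoc, ← cb_right hC, ← mul_assoc, ← hC.1 η c.mem, mul_assoc C, c.off b hb,
      mul_zero, zero_mul]

end Pool.Agent.P.MP_f1a348_lc.UP.CU
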