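import Pool.Agent.P.MP_f1a348_lc.CU.EDefs
import Pool.Agent.P.MP_f1a348_lc.CF.TGAIN0

namespace Pool.Agent.P.MP_f1a348_lc.UP.CU

open Matrix Module Pool.Agent.P.MP_f1a348_lc.PG
open Pool.Agent.P.MP_f1a348_lc.CF

open GAIN0x in
theorem s_GQ0 (p n : ℕ) [Fact p.Prime] (m : PM p n) (hACQ : S_ACQ) (hCRX : S_CRX p n)
    (hPHB : S_PHB p n) : S_GQ0 p n := by
  classical
  intro μ ℓ ℓ' B Bt B' h
  have hETA := m.eta
  have hLOC := m.loc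
  obtain ⟨c1, -, -, -, -, -⟩ := m.cls ℓ B h.str
  obtain ⟨d1, d2, d3⟩ := m.cls2 ℓ ℓ' B Bt B' h
  obtain ⟨-, -, p3, p4⟩ := hPHB μ ℓ B h.str
  have key := hACQ {α // Rep ℓ B α ∧ ¬ Triv ℓ B α} {β // Rep ℓ' B' β} (fun A => nb ℓ A.1)
    (fun A => eb ℓ B A.1) (fun X => nb ℓ' X.1) (fun X => eb ℓ' B' X.1)
    (fun A X => mm ℓ ℓ' B' A.1 X.1) (fun X => ¬ Triv ℓ' B' X.1) (sc μ) (PhiS μ ℓ B)
    (PhiS μ ℓ' B') p3
    (fun A => ⟨eb_pos h.str.alg _, Nat.le_of_dvd (nb_pos _ _) (eb_dvd_nb h.str _), by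
      rw [d1 A.1]
      exact sum_sub (fun β => Rep ℓ' B' β) fun β => mm ℓ ℓ' B' A.1 β⟩)
    (fun X => ⟨nb_pos _ _, Nat.le_of_dvd (nb_pos _ _) (eb_dvd_nb h.str' _)⟩)
    (fun X hX => by
      obtain ⟨α, hα, e⟩ := c1 X.1
      refine ⟨⟨α, hα, fun t => hX (d3 _ ((triv_iff h.str e).1 t))⟩, ?_⟩
      change 0 < mm ℓ ℓ' B' α X.1
      rw [mm_eq hETA h e]
      exact mm_self h _)
    (fun A X hm => by
      obtain ⟨η, u, v, hη⟩ := hETA ℓ ℓ' B Bt B' X.1 h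
      obtain ⟨-, -, l3, -⟩ := hLOC ℓ ℓ' B Bt B' X.1 A.1 η u v h hη hm
      exact ⟨d2 _ _, fun e => Nat.le_of_dvd (eb_pos h.str'.alg _) (l3 e)⟩)
    (by
      rw [PhiS]
      exact sum_sub (fun α => Rep ℓ B α ∧ ¬ Triv ℓ B α)
        fun α => nb ℓ α * (3 + sc μ (nb ℓ α)) - eb ℓ B α)
    (by
      rw [PhiS]
      refine Eq.trans ?_ (sum_sub (fun β => Rep ℓ' B' β)
        fun β => if ¬ Triv ℓ' B' β then nb ℓ' β * (3 + sc μ (nb ℓ' β)) - eb ℓ' B' β else 0)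
        |>.trans ?_
      · refine Finset.sum_congr rfl fun β _ => ?_
        by_cases r1 : Rep ℓ' B' β <;> by_cases r2 : Triv ℓ' B' β <;> simp [r1, r2]
      · refine Finset.sum_congr rfl fun X _ => ?_
        by_cases r2 : Triv ℓ' B' X.1 <;> simp [r2])
  refine ⟨key.1, fun a ha hs => ?_⟩
  obtain ⟨α, hα, e⟩ := c1 a
  have hαt : ¬ Triv ℓ B α := fun t => ha ((triv_iff h.str e).1 t)
  have en : nb ℓ α = nb ℓ a := nb_eq h.str e
  have ee : eb ℓ B α = eb ℓ B a := eb_eq h.str e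
  rcases key.2 ⟨α, hα, hαt⟩ (p4 _ (by change Sc μ (nb ℓ α); rw [en]; exact hs)) with
    k1 | ⟨X, x1, x2, x4, x5⟩
  · left
    change nb ℓ α ≤ _ at k1
    rwa [en] at k1
  · right
    obtain ⟨η, u, v, hη⟩ := hETA ℓ ℓ' B Bt B' X.1 h
    have hd : Dg ℓ η := h.alg.dg _ hη.mem
    change mm ℓ ℓ' B' α X.1 = nb ℓ' X.1 at x2
    change nb ℓ α + eb ℓ' B' X.1 ≤ nb ℓ' X.1 + eb ℓ B α + _ at x5
    have off : ∀ b, Cb ℓ B α b = ⊥ → η * pr ℓ b = 0 := fun b hb => by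
      refine mul_pr_eq hd ?_
      rw [hη.rk]
      by_cases tb : Triv ℓ B b
      · exact mm_triv h d3 tb x1
      · obtain ⟨α', hα', e'⟩ := c1 b
        rw [← mm_eq hETA h e']
        refine x4 ⟨α', hα', fun t => tb ((triv_iff h.str e').1 t)⟩ fun q => e' ?_
        have : α' = α := congrArg Subtype.val q
        rw [this, hb]
    have off' : ∀ b, Cb ℓ B a b = ⊥ → η * pr ℓ b = 0 := fun b hb => off b (by
      by_contra q
      exact cb_trans h.str (cb_symm h.str e) q hb)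
    rw [mm_eq hETA h e] at x2
    rw [en, ee] at x5
    have hX := nb_pos ℓ' X.1
    have hm : 0 < mm ℓ ℓ' B' a X.1 := by rw [x2]; exact hX
    obtain ⟨-, -, l3, l4⟩ := hLOC ℓ ℓ' B Bt B' X.1 a η u v h hη hm
    obtain ⟨r1, r2⟩ := hCRX ℓ ℓ' B Bt B' X.1 a η u v h hη x2
    have sa := split hη.idem hd a
    rw [hη.rk] at sa
    refine ⟨η, nb ℓ a - mm ℓ ℓ' B' a X.1, eb ℓ' B' X.1, ⟨hη.mem, hη.idem, off', fun b hb => ?_,
      by omega, r1, r2, l3 x2, fun q => l4 x2 q.symm off'⟩, by omega⟩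
    have s := split hη.idem hd b
    rw [hη.rk, ← mm_eq hETA h hb, ← nb_eq h.str hb] at s
    omega

end Pool.Agent.P.MP_f1a348_lc.UP.CU
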