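import Pool.Agent.P.MP_f1a348_lc.CU.EDefs

/-!
Project CU, task LT0: an invariant form on a level with a trivial slot is a trace.
-/

namespace Pool.Agent.P.MP_f1a348_lc.UP.CU

open Matrix Module Pool.Agent.P.MP_f1a348_lc.PG

theorem s_LT0 (p n : ℕ) [Fact p.Prime] (m : PM p n) (hSEM0 : S_SEM0 p n) : S_LT0 p n := by
  intro ℓ B a θ Y hB hθ ⟨j0, ht⟩ hnt hY hP hsp hinv
  obtain ⟨s, rfl, hs⟩ := exists_good hB
  have hl := hs.str.lab
  obtain ⟨k, hk, ek⟩ := exists_pm (Equiv.swap (0 : Fin 3) j0).bijective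
  have hσ : ∀ j, pm k (pm k j) = j := fun j => by rw [ek]; exact Equiv.swap_apply_self _ _ j
  have h0 : pm k 0 = j0 := by rw [ek]; exact Equiv.swap_apply_left _ _
  obtain ⟨b, hb⟩ : ∃ b : Fin 3 → Ix n, b = fun j => a (pm k j) := ⟨_, rfl⟩
  have hba : (fun j => b (pm k j)) = a := by funext j; rw [hb]; dsimp only; rw [hσ]
  have hb0 : b 0 = a j0 := by rw [hb]; dsimp only; rw [h0]
  have hW : perm (pm k) θ ∈ Wt ℓ (key ℓ b) := perm_mem_Wt hl (pm_bij k) (hba.symm ▸ hθ)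
  have hT : ∀ w : Frm p n, w ∈ Tr ℓ s.B → perm (pm k) w ∈ Tr ℓ s.B := fun w hw =>
    perm_mem_Tr hs.str (pm_bij k) hw
  have hne : ¬ Triv ℓ s.B (b 1) ∨ ¬ Triv ℓ s.B (b 2) := by
    obtain ⟨j, hj⟩ := hnt
    rw [← congrFun hba j] at hj
    generalize pm k j = i at hj
    fin_cases i
    · exact absurd (hb0 ▸ ht) hj
    · exact Or.inl hj
    · exact Or.inr hj
  have hu : (Pi.single (b 0) 1 : Vec p n) ∈ (Vb ℓ (b 0) : VS p n) := single_mem_Vb rfl 1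
  have hu0 : (Pi.single (b 0) 1 : Vec p n) ≠ 0 := fun e => by simpa using congrFun e (b 0)
  by_contra hn
  have hN : perm (pm k) θ ∉ Tr ℓ s.B := fun h2 => by
    have h3 := hT _ h2
    rw [perm_perm, show pm k ∘ pm k = id from funext hσ, perm_id] at h3
    exact hn h3
  have hsem := hSEM0 ℓ s b (perm (pm k) θ) _ Y hs hW (hb0 ▸ ht) hu hY hP fun y hy =>
    ⟨(hinv y hy).1, by rw [pull1_perm (pm_bij k), ← map_sub]; exact hT _ (hinv y hy).2⟩
  have hEq : Ht s.B (D4 ℓ s b (perm (pm k) θ) (Pi.single (b 0) 1, 0))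
      (D4 ℓ s b (perm (pm k) θ) (Pi.single (b 0) 1, 0)) = s.B :=
    le_antisymm (Ht_le _ _ _) (hsp.symm.le.trans (Submodule.span_le.2 hsem))
  have hacc := m.plp1 ℓ s b _ _ hs hW hN (hb0 ▸ ht) hne hu hu0 ℓ 1 s.B
    (by rw [hEq]; exact (m.ref ℓ s.B hl hs.str.alg).1) hs.str.sim
  exact lt_irrefl _ hacc.1

end Pool.Agent.P.MP_f1a348_lc.UP.CU
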