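import Pool.Agent.P.MP_f1a348_lc.CU.EDefs
import Pool.Agent.P.MP_f1a348_lc.CF.TNAT1

/-! Naturality of the subspaces `E2` and `E3`. -/

namespace Pool.Agent.P.MP_f1a348_lc.UP.CU

open Matrix Module Pool.Agent.P.MP_f1a348_lc.PG
open Pool.Agent.P.MP_f1a348_lc.CF

namespace NA23y

set_option linter.unusedSectionVars false

variable {p n : ℕ} [Fact p.Prime] {ℓ : Ix n → ℕ} {s : Side p n} {K K' : Rel p n} {f : Mat p n}

theorem col (h : Good ℓ s) (hf : U1 s.B f) : (CoL ℓ s).map (cj f) = CoL ℓ s := by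
  refine (List.map_congr_left fun C hC => ?_).trans (List.map_id _)
  have h1 : C ∈ Com s.B := co_le_com (h.spL_CoL ▸ mem_spL hC)
  rw [cj_apply, ← h1 f hf.1, mul_assoc, hf.2.1.mul_st, mul_one, id]

theorem sh (H : ∀ v, K (z0 ℓ s.B) v → K' (z0 ℓ s.B) (pull1 (st f) v)) {y : ZMod p × Frm p n}
    (hy : y ∈ ShK ℓ s.B K) : (y.1, pull1 (st f) y.2) ∈ ShK ℓ s.B K' := by
  have : (ShK ℓ s.B K).map (LinearMap.prodMap LinearMap.id (pull1 (st f))) ≤ ShK ℓ s.B K' := by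
    rw [ShK, Submodule.map_span, Submodule.span_le]
    rintro _ ⟨_, ⟨v, hv, rfl⟩, rfl⟩
    exact Submodule.subset_span ⟨_, H v hv, rfl⟩
  exact this ⟨y, hy, rfl⟩

theorem e2 (h : Good ℓ s) (hf : U1 s.B f)
    (H : ∀ v, K (z0 ℓ s.B) v → K' (z0 ℓ s.B) (pull1 (st f) v)) (τ : Tup p n)
    (hτ : τ ∈ E2 ℓ s K) : act f τ ∈ E2 ℓ s K' := by
  obtain ⟨y, hy, rfl⟩ := hτ
  refine ⟨_, sh H hy, ?_⟩
  rw [← NAT1x.cn_nat (hf.lev h.str.lab h.str.alg), col h hf]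

theorem e3 (h : Good ℓ s) (hf : U1 s.B f)
    (H : ∀ v, K (z0 ℓ s.B) v → K' (z0 ℓ s.B) (pull1 (st f) v)) (τ : Tup p n)
    (hτ : τ ∈ E3 ℓ s K) : act f τ ∈ E3 ℓ s K' := by
  have hl := hf.lev h.str.lab h.str.alg
  refine ⟨NAT1x.amb_act hl hτ.1, ?_⟩
  have e := NAT1x.tn_nat hl (CoL ℓ s) τ
  rw [col h hf] at e
  change tn (CoL ℓ s) (act f τ) ∈ ShK ℓ s.B K'
  rw [e]
  exact sh H hτ.2

end NA23y

theorem s_NA23 (p n : ℕ) [Fact p.Prime] (m : PM p n) : S_NA23 p n := by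
  intro ℓ s t K δ w y h hK _ hy e
  have hu := (hK.mem _ _ hy).1
  have hs := hu.star h.str.lab h.str.alg
  have z : st y * z0 ℓ s.B * y = z0 ℓ s.B := by
    rw [mul_assoc, com_z0 h.str.alg y hu.1, ← mul_assoc, hu.2.1.st_mul, one_mul]
  have h1 : ∀ v, K (z0 ℓ s.B) v → sft K δ (z0 ℓ s.B) (pull1 (st y) v) := fun v hv => by
    rwa [hK.conj hy e, z, pull1_pull1_st hu.2.1]
  have h2 : ∀ v, sft K δ (z0 ℓ s.B) v → K (z0 ℓ s.B) (pull1 (st (st y)) v) := fun v hv => by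
    rwa [hK.conj hy e, z, ← st_st y] at hv
  exact ⟨NAT1x.act_eq hu.2.1 (NA23y.e2 h hu h1) (NA23y.e2 h hs h2),
    NAT1x.act_eq hu.2.1 (NA23y.e3 h hu h1) (NA23y.e3 h hs h2)⟩

end Pool.Agent.P.MP_f1a348_lc.UP.CU
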