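import Pool.Agent.P.MP_f1a348_lc.CU.EDefs
import Pool.Agent.P.MP_f1a348_lc.CF.TNAT3

/-!
Project CU, task NA5: naturality of the subspaces `E5`, `E6`, `E7`.
-/

namespace Pool.Agent.P.MP_f1a348_lc.UP.CU

open Matrix Module Pool.Agent.P.MP_f1a348_lc.PG
open Pool.Agent.P.MP_f1a348_lc.CF

namespace NA5y

open NAT3x (FF au_nat)

set_option linter.unusedSectionVars false

variable {p n : ℕ} [Fact p.Prime] {ℓ : Ix n → ℕ} {y : Mat p n} {s : Side p n}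

theorem hat_nat (hs : Good ℓ s) (h : U1 s.B y) (a : Fin 3 → Ix n) (θ : Frm p n) (q x : HH p n) :
    hat ℓ s a (pull1 (st y) θ) (FF h.2.1 q) (FF h.2.1 x) = FF h.2.1 (hat ℓ s a θ q x) := by
  have hu := h.2.1
  show hat ℓ s a _ (y *ᵥ q.1, q.2) (y *ᵥ x.1, x.2) =
    (y *ᵥ (hat ℓ s a θ q x).1, (hat ℓ s a θ q x).2)
  refine Prod.ext ?_ (funext fun i => ?_)
  · rw [hat_fst, hat_fst]
    dsimp only
    rw [au_nat hu, com_mulVec (hs.cmb_mem _ _ _).1.1 h.1, com_mulVec (hs.cmb_mem _ _ _).1.1 h.1,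
      Matrix.mulVec_add, Matrix.mulVec_add]
  · dsimp only
    rw [hat_snd, hat_snd]
    dsimp only
    have := getD_mem_spL (p := p) (Cso ℓ s (a 1).rev (a 0)) i.val
    rw [hs.spL_cso] at this
    rw [com_mulVec this.1.1 h.1, hu.ip]

theorem map_nat (hs : Good ℓ s) (h : U1 s.B y) (a : Fin 3 → Ix n) (θ : Frm p n) (q : HH p n)
    (U : Submodule (ZMod p) (HH p n)) :
    (U.map (FF h.2.1).toLinearMap).map (hat ℓ s a (pull1 (st y) θ) (FF h.2.1 q)) =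
      (U.map (hat ℓ s a θ q)).map (FF h.2.1).toLinearMap := by
  rw [← Submodule.map_comp, ← Submodule.map_comp]
  congr 1
  exact LinearMap.ext fun x => hat_nat hs h a θ q x

theorem low_nat (hs : Good ℓ s) (h : U1 s.B y) {a : Fin 3 → Ix n} {θ : Frm p n} {r : ℕ}
    {q : HH p n} (hq : q ∈ Low ℓ s a θ r) : FF h.2.1 q ∈ Low ℓ s a (pull1 (st y) θ) r := by
  refine ⟨⟨(hs.str.alg.dg y h.1).mulVec_mem hq.1.1, hq.1.2⟩, ?_⟩
  have := map_nat hs h a θ q ⊤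
  rw [Submodule.map_top, LinearEquiv.range, Submodule.map_top, Submodule.map_top] at this
  rw [this, LinearEquiv.finrank_map_eq]
  exact hq.2

theorem low_eq (hs : Good ℓ s) (h : U1 s.B y) (a : Fin 3 → Ix n) (θ : Frm p n) (r : ℕ) :
    Low ℓ s a (pull1 (st y) θ) r = FF h.2.1 '' Low ℓ s a θ r := by
  refine Set.Subset.antisymm (fun q hq => ?_) ?_
  · have := low_nat hs (h.star hs.str.lab hs.str.alg) hq
    rw [h.2.1.star.pull1_st] at this
    exact ⟨_, this, (FF h.2.1).apply_symm_apply q⟩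
  · rintro _ ⟨q, hq, rfl⟩
    exact low_nat hs h hq

theorem um_nat (hs : Good ℓ s) (h : U1 s.B y) (a : Fin 3 → Ix n) (θ : Frm p n) (r : ℕ) :
    NC.Um (HS ℓ s a (pull1 (st y) θ) r) = (NC.Um (HS ℓ s a θ r)).map (FF h.2.1).toLinearMap ∧
    NC.Rm (HS ℓ s a (pull1 (st y) θ) r) = (NC.Rm (HS ℓ s a θ r)).map (FF h.2.1).toLinearMap := by
  have := NC.um_map (S := HS ℓ s a θ r) (S' := HS ℓ s a (pull1 (st y) θ) r) (FF h.2.1) (FF h.2.1)
    fun U => by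
      simp only [NC.img, HS, low_eq hs h, iSup_image, map_nat hs h, Submodule.map_iSup]
  exact ⟨this.1, this.2.1⟩

theorem fst_nat (hu : Un y) (U : Submodule (ZMod p) (HH p n)) :
    (U.map (FF hu).toLinearMap).map (t1 ∘ₗ LinearMap.fst _ _ _) =
      (U.map (t1 ∘ₗ LinearMap.fst _ _ _)).map (act y) := by
  rw [← Submodule.map_comp, ← Submodule.map_comp]
  congr 1
  exact LinearMap.ext fun x => (act_t1 _ _).symm

end NA5y

set_option linter.unusedVariables false in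
open NA5y in
theorem s_NA5 (p n : ℕ) [Fact p.Prime] (m : PM p n) : S_NA5 p n := by
  intro ℓ s a θ y r hs h
  have hu := h.2.1
  obtain ⟨h1, h2⟩ := um_nat hs h a θ r
  refine ⟨?_, ?_, ?_⟩
  · rw [E5, E5, h2]
    apply le_antisymm
    · rintro _ ⟨x, ⟨z, hz, e⟩, rfl⟩
      obtain ⟨z1, z2⟩ := z
      obtain ⟨rfl, rfl⟩ : y *ᵥ z1 = x ∧ z2 = 0 := Prod.ext_iff.1 e
      exact ⟨_, ⟨z1, hz, rfl⟩, act_t1 _ _⟩
    · rintro _ ⟨_, ⟨x, hx, rfl⟩, rfl⟩
      exact ⟨y *ᵥ x, ⟨(x, 0), hx, rfl⟩, (act_t1 _ _).symm⟩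
  · rw [E6, E6, h1, ← fst_nat hu, Submodule.map_inf _ (NAT3x.FF hu).injective]
    congr 2
    have hd := hs.str.alg.dg y h.1
    apply le_antisymm
    · exact fun x hx => ⟨_, ⟨(hd.st hs.str.lab).mulVec_mem hx.1, trivial⟩,
        (NAT3x.FF hu).apply_symm_apply x⟩
    · rintro _ ⟨x, hx, rfl⟩
      exact ⟨hd.mulVec_mem hx.1, trivial⟩
  · rw [E7, E7, low_eq hs h, ← fst_nat hu, Submodule.map_span (NAT3x.FF hu).toLinearMap]
    rfl

end Pool.Agent.P.MP_f1a348_lc.UP.CU
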