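import Pool.Agent.P.MP_f1a348_lc.CU.Defs

/-!
Project CU: a group that normalises an algebra permutes the annihilators of the blocks.
-/

namespace Pool.Agent.P.MP_f1a348_lc.UP.CU

open Matrix Module Pool.Agent.P.MP_f1a348_lc.PG
open scoped commutatorElement

namespace PERMz

theorem relIndex_le {Γ X : Type} [Group Γ] (Q H : Subgroup Γ) (φ : Γ → X) (T : Set X)
    (hT : T.Finite) (h1 : ∀ h ∈ H, φ h ∈ T) (h2 : ∀ h ∈ H, ∀ k ∈ H, φ h = φ k → h⁻¹ * k ∈ Q) :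
    Q.relIndex H ≤ T.ncard := by
  have := hT.to_subtype
  rw [Subgroup.relIndex, Subgroup.index, ← Nat.card_coe_set_eq]
  refine Nat.card_le_card_of_injective (fun q => (⟨φ q.out.1, h1 _ q.out.2⟩ : T)) fun q r e => ?_
  rw [← QuotientGroup.out_eq' q, ← QuotientGroup.out_eq' r, QuotientGroup.eq]
  exact h2 _ q.out.2 _ r.out.2 (congrArg Subtype.val e)

variable {p n : ℕ} [Fact p.Prime] {R : Sub p n}

/-- the image of a subspace -/
noncomputable def mv (h : GG p n) (U : VS p n) : VS p n := U.map h.1.mulVecLin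

theorem mem_mv {h : GG p n} {U : VS p n} {y : Vec p n} : y ∈ mv h U ↔ st h.1 *ᵥ y ∈ U :=
  ⟨by rintro ⟨x, hx, rfl⟩; rwa [Matrix.mulVecLin_apply, h.2.2.1.st_mulVec],
    fun e => ⟨_, e, h.2.2.1.mulVec_st y⟩⟩

theorem finrank_mv (h : GG p n) (U : VS p n) : finrank (ZMod p) (mv h U) = finrank (ZMod p) U :=
  (Submodule.equivMapOfInjective _ (fun x y e => by
    rw [← h.2.2.1.st_mulVec x, ← h.2.2.1.st_mulVec y]; exact congrArg _ e) U).finrank_eq.symm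

omit [Fact p.Prime] in
theorem st_act (h : GG p n) (x : Mat p n) (y : Vec p n) :
    st h.1 *ᵥ (x *ᵥ y) = cj (st h.1) x *ᵥ (st h.1 *ᵥ y) := (h.2.2.1.star.cj_mulVec x y).symm

theorem inv_mv {h : GG p n} (hh : h⁻¹ ∈ NmS R) {U : VS p n} (hU : Inv R U) : Inv R (mv h U) :=
  fun x hx y hy => mem_mv.2 (by rw [st_act]; exact hU _ (hh x hx) _ (mem_mv.1 hy))

theorem mv_mv (h : GG p n) (U : VS p n) : mv h (mv h⁻¹ U) = U := by
  ext y; rw [mem_mv, mem_mv, val_inv, st_st, h.2.2.1.mulVec_st]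

theorem mv_mono (h : GG p n) {U W : VS p n} (e : U ≤ W) : mv h U ≤ mv h W := Submodule.map_mono e

theorem ss_mv {h : GG p n} (h1 : h ∈ NmS R) (h2 : h⁻¹ ∈ NmS R) {L U : VS p n} (s : SS R L U) :
    SS R (mv h L) (mv h U) := by
  have k : ∀ W, mv h⁻¹ (mv h W) = W := fun W => by simpa using mv_mv h⁻¹ W
  refine ⟨inv_mv h2 s.invL, inv_mv h2 s.invU, (mv_mono h s.lt.le).lt_of_ne fun e =>
    s.lt.ne (by rw [← k L, e, k]), fun W hW e1 e2 => ?_⟩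
  refine (s.max (mv h⁻¹ W) (inv_mv (by simpa using h1) hW) (k L ▸ mv_mono _ e1)
    (k U ▸ mv_mono _ e2)).imp (fun e => ?_) fun e => ?_ <;> rw [← e, mv_mv]

theorem mem_R {h : GG p n} (h1 : h ∈ NmS R) (h2 : h⁻¹ ∈ NmS R) {x : Mat p n} :
    cj (st h.1) x ∈ R ↔ x ∈ R :=
  ⟨fun e => h.2.2.1.cj_cj' x ▸ h1 _ e, h2 x⟩

theorem ann_mv {h : GG p n} (h1 : h ∈ NmS R) (h2 : h⁻¹ ∈ NmS R) (L U : VS p n) :
    ann R (mv h L) (mv h U) = (ann R L U).map (cj h.1) := by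
  ext x
  rw [h.2.2.1.mem_map_cj]
  refine and_congr (mem_R h1 h2).symm ⟨fun e u hu => ?_, fun e u hu => ?_⟩
  · have := mem_mv.1 (e (h.1 *ᵥ u) ⟨u, hu, rfl⟩)
    rwa [st_act, h.2.2.1.st_mulVec] at this
  · exact mem_mv.2 (by rw [st_act]; exact e _ (mem_mv.1 hu))

/-- the annihilator of a simple section is a semiprime ideal -/
theorem nil_ann (hR : SA R) {L U : VS p n} (s : SS R L U) {x : Mat p n} (hx : x ∈ R)
    (H : ∀ y ∈ R, ∃ k, (x * y) ^ (k + 1) ∈ ann R L U) : x ∈ ann R L U := by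
  refine ⟨hx, fun u hu => ?_⟩
  by_contra hc
  have hv := s.invU x hx u hu
  have hW : Inv R (L ⊔ orb R (x *ᵥ u)) := fun z hz w hw => by
    obtain ⟨l, hl, _, ⟨y, hy, rfl⟩, rfl⟩ := Submodule.mem_sup.1 hw
    rw [Matrix.mulVec_add]
    exact Submodule.add_mem_sup (s.invL z hz l hl)
      ⟨z * y, hR.mul z hz y hy, (Matrix.mulVec_mulVec (x *ᵥ u) z y).symm⟩
  rcases s.max _ hW le_sup_left (sup_le s.lt.le (by
    rintro _ ⟨y, hy, rfl⟩; exact s.invU y hy _ hv)) with e | e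
  · exact hc (e ▸ Submodule.mem_sup_right ⟨1, hR.one, Matrix.one_mulVec _⟩)
  · obtain ⟨l, hl, _, ⟨y, hy, rfl⟩, e1⟩ := Submodule.mem_sup.1 (e ▸ hu)
    have h1 : (x * y) *ᵥ (x *ᵥ u) - x *ᵥ u ∈ L := by
      have : (x * y) *ᵥ (x *ᵥ u) - x *ᵥ u = -(x *ᵥ l) := by
        rw [evx_apply] at e1
        rw [← Matrix.mulVec_mulVec, eq_sub_of_add_eq' e1, Matrix.mulVec_sub]; abel
      rw [this]; exact neg_mem (s.invL x hx l hl)
    have h2 : ∀ k : ℕ, (x * y) ^ k *ᵥ (x *ᵥ u) - x *ᵥ u ∈ L := fun k => by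
      induction k with
      | zero => simp
      | succ k ih =>
        have := add_mem (s.invL _ (hR.mul x hx y hy) _ ih) h1
        rwa [Matrix.mulVec_sub, sub_add_sub_cancel, Matrix.mulVec_mulVec, ← pow_succ'] at this
    obtain ⟨k, hk⟩ := H y hy
    exact hc (by simpa using sub_mem (hk.2 _ hv) (h2 (k + 1)))

/-- a central idempotent acts on a simple section as `0` or `1` -/
theorem idem_ann {L U : VS p n} (s : SS R L U) {e : Mat p n} (h1 : e ∈ R) (h2 : e ∉ ann R L U)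
    (h3 : e * e - e ∈ ann R L U) (h4 : ∀ y ∈ R, e * y - y * e ∈ ann R L U) :
    ∀ u ∈ U, e *ᵥ u - u ∈ L := by
  have hm : ∀ u, u ∈ U ⊓ L.comap (e - 1).mulVecLin ↔ u ∈ U ∧ e *ᵥ u - u ∈ L := fun u => by
    rw [Submodule.mem_inf, Submodule.mem_comap, Matrix.mulVecLin_apply, Matrix.sub_mulVec,
      Matrix.one_mulVec]
  have hW : Inv R (U ⊓ L.comap (e - 1).mulVecLin) := fun x hx u hu => by
    rw [hm] at hu ⊢
    refine ⟨s.invU x hx u hu.1, ?_⟩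
    have := add_mem ((h4 x hx).2 u hu.1) (s.invL x hx _ hu.2)
    rwa [Matrix.sub_mulVec, Matrix.mulVec_sub, ← Matrix.mulVec_mulVec, ← Matrix.mulVec_mulVec,
      sub_add_sub_cancel] at this
  rcases s.max _ hW (fun u hu => (hm u).2 ⟨s.lt.le hu, sub_mem (s.invL e h1 u hu) hu⟩)
    inf_le_left with e1 | e1
  · refine absurd ⟨h1, fun u hu => ?_⟩ h2
    rw [← e1, hm]
    refine ⟨s.invU e h1 u hu, ?_⟩
    have := h3.2 u hu
    rwa [Matrix.sub_mulVec, ← Matrix.mulVec_mulVec] at this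
  · exact fun u hu => ((hm u).1 (e1.symm ▸ hu)).2

end PERMz

open PERMz in
theorem s_PERM (p n : ℕ) [Fact p.Prime] (b : TB p n) (hAUTQ : S_AUTQ p n) : S_PERM p n := by
  intro H R f ℓ hR hC hH
  obtain ⟨hb, hc0, hI⟩ := b.blk R f ℓ hR hC
  have h2p : 2 ≤ p := (Fact.out : p.Prime).two_le
  have mov : ∀ h ∈ H, ∀ α, ∃ β, (MI R f ℓ {α}).map (cj h.1) = MI R f ℓ {β} ∧ nb ℓ β = nb ℓ α := by
    intro h hh α
    obtain ⟨β, e1, e2⟩ := b.jh R f ℓ _ _ hR hC (ss_mv (hH hh) (hH (inv_mem hh)) (hb α).1)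
    rw [ann_mv (hH hh) (hH (inv_mem hh)), (hb α).2.1] at e1
    rw [finrank_mv, finrank_mv, (b.sec.1 f ℓ α hC.lab).2.1] at e2
    exact ⟨β, e1, by omega⟩
  have dpos : ∀ α, 0 < finrank (ZMod p) R - finrank (ZMod p) (MI R f ℓ {α}) ∧
      0 < eb ℓ (gB R f ℓ) α := fun α =>
    CanonicallyOrderedAdd.mul_pos.1 ((hb α).2.2.1 ▸ pow_pos (nb_pos ℓ α) 2)
  have P1 : ∀ h ∈ H, ∀ α ∈ Sml ℓ (gB R f ℓ), ∃ β ∈ Sml ℓ (gB R f ℓ),
      (MI R f ℓ {α}).map (cj h.1) = MI R f ℓ {β} := by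
    intro h hh α hα
    obtain ⟨β, e1, e2⟩ := mov h hh α
    refine ⟨β, ⟨fun t => hα.1 (((hb α).2.2.2.1 _).1 ?_), ?_⟩, e1⟩
    · ext x
      have hl : Lev (l0 n) h.1 := ⟨lab_l0, h.2, h.2.1.dg_l0⟩
      rw [← h.2.2.1.cj_cj x, ← h.2.2.1.mem_map_cj, e1, ((hb β).2.2.2.1 _).2 t, hc0, hc0,
        h.2.2.1.cj_cj x, ← mem_R (hH hh) (hH (inv_mem hh)), h.2.2.1.cj_cj x]
      exact and_congr_right fun hx => by rw [hl.cj_c0 ((hR.dg x hx).tri lab_l0)]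
    · have e3 := (hb β).2.2.1
      rw [← e1, h.2.2.1.finrank_map_cj, e2, ← (hb α).2.2.1] at e3
      rw [e2, Nat.eq_of_mul_eq_mul_left (dpos α).1 e3]
      exact hα.2
  have P2 : H ≤ NmS (MI R f ℓ (Sml ℓ (gB R f ℓ))) := fun h hh y hy => by
    rw [(hI _).2.1] at hy ⊢
    refine ⟨hH hh y hy.1, fun α hα => ?_⟩
    obtain ⟨β, hβ, e⟩ := P1 _ (inv_mem hh) α hα
    have := hy.2 β hβ
    rwa [← e, (h⁻¹).2.2.1.mem_map_cj, val_inv, st_st] at this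
  have P3 : ∀ I J, J ⊆ I → ∀ H', H' ≤ H → H' ≤ NmS (MI R f ℓ I) →
      (NmS (MI R f ℓ J)).relIndex H' ≤ 2 ^ I.ncard := by
    intro I J hJ H' h1 h2
    have key : ∀ h ∈ H', (MI R f ℓ J).map (cj h.1) =
        MI R f ℓ {β | β ∈ I ∧ (MI R f ℓ J).map (cj h.1) ≤ MI R f ℓ {β}} := by
      intro h hh
      have hu := h.2.2.1
      refine le_antisymm (fun x hx => ((hI _).2.1 x).2 ⟨?_, fun β hβ => hβ.2 hx⟩) fun x hx => ?_
      · obtain ⟨y, hy, rfl⟩ := hx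
        exact hH (h1 hh) y ((hI J).1 hy)
      · rw [(hI _).2.1] at hx
        rw [hu.mem_map_cj, (hI _).2.1]
        refine ⟨hH (h1 (inv_mem hh)) x hx.1, fun α hα => ?_⟩
        obtain ⟨β, e, -⟩ := mov h (h1 hh) α
        obtain ⟨γ, hγ, e'⟩ := (hb β).2.2.2.2.1 I fun y hy => by
          rw [← e, hu.mem_map_cj]
          exact (((hI I).2.1 _).1 (h2 (inv_mem hh) y hy)).2 α (hJ hα)
        rw [((hb β).2.2.2.1 γ).2 e'] at e
        rw [← hu.mem_map_cj, e]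
        exact hx.2 γ ⟨hγ, e ▸ Submodule.map_mono fun y hy => (((hI J).2.1 _).1 hy).2 α hα⟩
    rw [← Set.ncard_powerset I]
    refine relIndex_le _ _ (fun h => {β | β ∈ I ∧ (MI R f ℓ J).map (cj h.1) ≤ MI R f ℓ {β}}) _
      (Set.toFinite _) (fun h _ β hβ => hβ.1) fun h hh k hk e y hy => ?_
    have e1 : (MI R f ℓ J).map (cj h.1) = (MI R f ℓ J).map (cj k.1) := by
      rw [key h hh, key k hk]; exact congrArg _ e
    have e2 := h.2.2.1.mem_map_cj.1 (e1 ▸ Submodule.mem_map_of_mem (f := cj k.1) hy)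
    simpa only [cj_apply, val_mul, val_inv, st_mul, st_st, mul_assoc] using e2
  have P4 : ∀ α ∈ Sml ℓ (gB R f ℓ), ∀ H', H' ≤ H → H' ≤ NmS (MI R f ℓ {α}) →
      (CenQ R (MI R f ℓ {α})).relIndex H' ≤ p ^ (3 * gam n + 1) := by
    intro α hα H' h1 h2
    obtain ⟨s, e, e1, -⟩ := hb α
    refine (hAUTQ H' R _ 1 hR.one hR.mul (hI _).1 (hI _).2.2 (h1.trans hH) h2
      (fun x hx hy => e ▸ nil_ann hR s hx (e ▸ hy)) fun T hT hT' => ?_).trans ?_
    · rw [Finset.card_le_one]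
      intro x hx y hy
      by_contra hc
      rw [← e] at hT hT'
      refine s.lt.not_ge fun u hu => ?_
      obtain ⟨a1, a2, a3, a4⟩ := hT x hx
      obtain ⟨b1, b2, b3, b4⟩ := hT y hy
      have := sub_mem (sub_mem ((hT' x hx y hy hc).2 u hu)
        (idem_ann s a1 a2 a3 a4 _ (s.invU y b1 u hu))) (idem_ann s b1 b2 b3 b4 u hu)
      rwa [← Matrix.mulVec_mulVec, sub_sub_cancel, sub_sub_cancel] at this
    · have h3 := Nat.le_of_mul_le_mul_right (e1 ▸ hα.2) (dpos α).2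
      rw [pow_succ' p]
      exact Nat.mul_le_mul (by simpa using h2p) (Nat.pow_le_pow_right (by omega) (by omega))
  refine ⟨P1, P2, P3, P4, fun α hα => ?_, fun I g => ⟨fun hg => ⟨hg.1, fun α hα => ?_⟩,
    fun hg => ⟨hg.1, fun y hy => ?_, fun x hx => ?_⟩⟩⟩
  · have e := Subgroup.relIndex_inf_mul_relIndex (CenQ R (MI R f ℓ {α})) (NmS (MI R f ℓ {α})) H
    rw [inf_of_le_left (show CenQ R _ ≤ NmS _ from fun g hg => hg.1)] at e
    have h1 := P3 _ {α} (Set.singleton_subset_iff.2 hα) H le_rfl P2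
    have h2 : (Sml ℓ (gB R f ℓ)).ncard ≤ 2 * n + 1 := by
      simpa using Set.ncard_le_card (Sml ℓ (gB R f ℓ))
    rw [← e]
    refine (Nat.mul_le_mul (P4 α hα _ inf_le_right inf_le_left) (h1.trans
      ((Nat.pow_le_pow_right two_pos h2).trans (Nat.pow_le_pow_left h2p _)))).trans ?_
    rw [← pow_add]
    exact Nat.pow_le_pow_right (by omega) (by simp only [cT0]; omega)
  · have h1 : ∀ x ∈ R, cj g.1 x - x ∈ MI R f ℓ {α} := fun x hx =>
      (((hI I).2.1 _).1 (hg.2.2 x hx)).2 α hα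
    exact ⟨fun y hy => by simpa using add_mem (h1 y ((hI _).1 hy)) hy, h1⟩
  · rw [(hI _).2.1] at hy ⊢
    exact ⟨hH hg.1 y hy.1, fun α hα => (hg.2 α hα).1 y (hy.2 α hα)⟩
  · exact ((hI _).2.1 _).2 ⟨sub_mem (hH hg.1 x hx) hx, fun α hα => (hg.2 α hα).2 x hx⟩

end Pool.Agent.P.MP_f1a348_lc.UP.CU
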