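import Pool.Agent.P.MP_f1a348_lc.CU.EDefs
import Pool.Agent.P.MP_f1a348_lc.CF.TPLP1

/-!
Project CU, task PQ1: progress when the first block is trivial.
-/

namespace Pool.Agent.P.MP_f1a348_lc.UP.CU

open Matrix Module Pool.Agent.P.MP_f1a348_lc.PG
open Pool.Agent.P.MP_f1a348_lc.CF

namespace PQ1y

variable {p n : ℕ} [Fact p.Prime] {ℓ : Ix n → ℕ} {B Bt : Sub p n}

theorem ex_pos (hB : Alg ℓ B) (h : Alg ℓ Bt) {a : Ix n} {η : Mat p n} {df ex : ℕ}
    (c : Cr ℓ B Bt a η df ex) : 0 < ex := by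
  refine Nat.pos_of_ne_zero fun e => ?_
  have h1 := (h.dg η c.mem).comm_pr a
  have h2 : η * pr ℓ a * (η * pr ℓ a) = η * pr ℓ a := by
    rw [mul_assoc, ← mul_assoc (pr ℓ a), h1, mul_assoc, pr_mul_pr, ← mul_assoc, c.idem]
  have h3 : η * pr ℓ a ∈ Ex ℓ Bt η a := ⟨by rw [h2, h2], fun b hb => by
    have h4 := (h.dg _ (h.mul _ (h.mul _ c.mem _ hb) _ c.mem)).comm_pr a
    rw [mul_assoc η, h4, ← mul_assoc, ← mul_assoc, ← mul_assoc, c.idem, ← mul_assoc,
      mul_assoc (η * b) η η, c.idem]⟩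
  rw [← c.dim, Submodule.finrank_eq_zero] at e
  rw [e, Submodule.mem_bot] at h3
  have h5 : Vb ℓ a ≤ im (1 - η) := fun x hx => mem_im.2 ⟨x, by
    rw [sub_mulVec, one_mulVec, sub_eq_self, ← mem_Vb_iff.1 hx, mulVec_mulVec, h3, zero_mulVec]⟩
  have h6 := c.on a (cb_refl hB a)
  rw [inf_eq_right.2 h5, finrank_Vb] at h6
  exact c.lt.ne h6.symm

end PQ1y

open PLP1x PQ1y in
theorem s_PQ1 (p n : ℕ) [Fact p.Prime] (m : PM p n) (hGQ : S_GQ p n) (hGABC : S_GABC p n) :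
    S_PQ1 p n := by
  intro μ ℓ s a θ u Bt hs hsc hθ hn t0 hor hu h0 hA hle
  have h := hs.str
  have hBt : Bt ≤ s.B := hle.trans (Ht_le _ _ _)
  rw [D4_eq t0] at hle
  rw [triv_nb h t0]
  have stab : ∀ b ∈ Ht s.B ((gph ℓ (a 1) θ u).map t2) ((gph ℓ (a 1) θ u).map t2),
      ∀ y ∈ gph ℓ (a 1) θ u, (b *ᵥ y.1, b *ᵥ y.2) ∈ gph ℓ (a 1) θ u := by
    intro b hb y hy
    obtain ⟨y', hy', e⟩ := (mem_Ht.1 hb).2.1 _ ⟨y, hy, rfl⟩
    rw [act_t2] at e
    exact t2_inj e ▸ hy'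
  by_cases both : ¬ Triv ℓ s.B (a 1) ∧ ¬ Triv ℓ s.B (a 2)
  · have hlen : (Cso ℓ s (a 2).rev (a 1)).length ≤ eb ℓ s.B (a 1) :=
      (hs.length_cso _ _).trans (finrank_cb_le h _ _)
    have hep := eb_pos h.alg (a 1)
    suffices H : eb ℓ s.B (a 1) ≤ PhiS μ ℓ s.B - PhA μ ℓ Bt by omega
    obtain G | ⟨η, df, ex, cr, hdf⟩ := (hGQ μ ℓ s.B Bt h hA hBt).2 (a 1) both.1 (hsc _ both.1)
    · exact (Nat.le_of_dvd (nb_pos _ _) (eb_dvd_nb h _)).trans G
    by_cases hex : ex = eb ℓ s.B (a 1)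
    swap
    · have h1 := ex_pos h.alg hA cr
      obtain ⟨k, hk⟩ := cr.dvd
      have h2 : 2 ≤ k := by
        rcases k with _ | _ | k
        · omega
        · omega
        · omega
      have h3 := Nat.mul_le_mul_left (eb ℓ s.B (a 1)) h2
      omega
    obtain ⟨C, hC, hrk⟩ := m.g2 ℓ s.B Bt (a 1) (a 2).rev η df (gph ℓ (a 1) θ u) h hA hBt
      ⟨cr.mem, cr.idem, cr.off, cr.on, cr.corner hex⟩
      (fun y hy => ⟨(mem_gph.1 hy).1, (mem_gph.1 hy).2 ▸ au_mem h.lab hθ _ _⟩)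
      fun b hb => stab b (hle hb)
    have hb : (gph ℓ (a 1) θ u).comap (LinearMap.inr (ZMod p) (Vec p n) (Vec p n)) = ⊥ := by
      refine (Submodule.eq_bot_iff _).2 fun z hz => ?_
      have := (mem_gph.1 hz).2
      simp only [LinearMap.inr_apply] at this
      rw [this, ← auL_apply, map_zero]
    rw [hb, finrank_bot, add_zero] at hrk
    have hpos : 0 < df := by
      by_contra e
      have e0 : df = 0 := by omega
      rw [e0, Nat.le_zero, Submodule.finrank_eq_zero] at hrk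
      refine hn (mem_Tr h hθ t0 hu h0 (co_of_cb hC both.1) fun y hy => ?_)
      have := (Submodule.eq_bot_iff _).1 hrk _
        ⟨(y, au θ u y), mem_gph.2 ⟨hy, rfl⟩, rfl⟩
      simpa [sub_eq_zero] using this
    have hdvd : eb ℓ s.B (a 1) ∣ df := by
      rw [← cr.on (a 1) (cb_refl h.alg _)]
      exact eb_dvd h (stab_im (sub_mem h.alg.one (hBt cr.mem))) _
    have := Nat.le_of_dvd hpos hdvd
    omega
  · have hlen : (Cso ℓ s (a 2).rev (a 1)).length = 0 := by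
      by_cases t1 : Triv ℓ s.B (a 1)
      · rw [cso_nil t1]; rfl
      · have t2 : Triv ℓ s.B (a 2) := by
          by_contra t2
          exact both ⟨t1, t2⟩
        have := hs.length_cso (a 2).rev (a 1)
        rw [cb_eq_bot h ((triv_rev h).2 t2) t1, finrank_bot] at this
        omega
    have hne : ¬ s.B ≤ Bt := by
      intro e
      refine hn (mem_Tr h hθ t0 hu h0 (zero_mem _) fun y hy => ?_)
      have hA := au_mem h.lab hθ u y
      have key :=
        (mem_gph.1 (stab _ (hle (e (eo_mem h))) (y, au θ u y) (mem_gph.2 ⟨hy, rfl⟩))).2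
      simp only at key
      rw [Matrix.zero_mulVec]
      by_cases t1 : Triv ℓ s.B (a 1)
      · have t2 : ¬ Triv ℓ s.B (a 2).rev := fun t2 =>
          hor.elim (fun e => e t1) fun e => e ((triv_rev h).1 t2)
        rw [eo_mulVec_triv hy t1, eo_mulVec_ntriv hA t2, ← auL_apply θ u 0, map_zero] at key
        exact key
      · have t2 : Triv ℓ s.B (a 2).rev := by
          refine (triv_rev h).2 ?_
          by_contra t2
          exact both ⟨t1, t2⟩
        rw [eo_mulVec_ntriv hy t1, eo_mulVec_triv hA t2] at key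
        exact key.symm
    have := (hGABC μ ℓ s.B Bt h hA hBt).1 hsc hne
    omega

end Pool.Agent.P.MP_f1a348_lc.UP.CU
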