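import Pool.Agent.P.MP_f1a348_lc.CU.EDefs

/-!
Project CU: two pins whose graphs lie in one small field give a pin of low rank.
-/

namespace Pool.Agent.P.MP_f1a348_lc.UP.CU

open Matrix Module Pool.Agent.P.MP_f1a348_lc.PG

namespace PQ8y

variable {p n : ℕ} [Fact p.Prime] {ℓ : Ix n → ℕ} {B Bt : Sub p n} {a : Ix n} {η : Mat p n}

/-- a relation on a block as a relation on the type of the block -/
noncomputable def Gm (ℓ : Ix n → ℕ) (a : Ix n) (D : Submodule (ZMod p) (HH p n)) :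
    Submodule (ZMod p) (Vb (p := p) ℓ a × Vb (p := p) ℓ a) :=
  D.comap ((Vb ℓ a).subtype.prodMap (Vb ℓ a).subtype)

theorem mem_Gm {D : Submodule (ZMod p) (HH p n)} {y : Vb (p := p) ℓ a × Vb (p := p) ℓ a} :
    y ∈ Gm ℓ a D ↔ (y.1.1, y.2.1) ∈ D := Iff.rfl

theorem ex_both (hd : Dg ℓ η) (hi : η * η = η) {L : Mat p n} (hL : L ∈ Ex ℓ Bt η a) :
    η * pr ℓ a * L = L ∧ L * (η * pr ℓ a) = L := by
  have e : η * pr ℓ a * (η * pr ℓ a) = η * pr ℓ a := by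
    rw [mul_assoc, ← mul_assoc (pr ℓ a), hd.comm_pr, mul_assoc, pr_mul_pr, ← mul_assoc, hi]
  constructor
  · rw [← hL.1, ← mul_assoc, ← mul_assoc, ← mul_assoc (η * pr ℓ a), e, mul_assoc _ η]
  · rw [← hL.1, mul_assoc _ (η * pr ℓ a), e]

theorem ex_mul (hd : Dg ℓ η) (hi : η * η = η) {L L' : Mat p n} (hL : L ∈ Ex ℓ Bt η a)
    (hL' : L' ∈ Ex ℓ Bt η a) : L * L' ∈ Ex ℓ Bt η a :=
  ⟨by rw [← mul_assoc (η * pr ℓ a), (ex_both hd hi hL).1, mul_assoc, (ex_both hd hi hL').2],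
    fun b hb => by rw [mul_assoc, hL'.2 b hb, ← mul_assoc, hL.2 b hb, mul_assoc]⟩

theorem fd (hd : Dg ℓ η) (hi : η * η = η) {g : ℕ} {D D' : Submodule (ZMod p) (HH p n)}
    (h1 : η * pr ℓ a ∈ Ex ℓ Bt η a) (hE : finrank (ZMod p) (Ex ℓ Bt η a) ≤ 2 * g)
    (hZ : nb ℓ a ≤ finrank (ZMod p) (im η ⊓ Vb ℓ a : VS p n) + g)
    (hinj : ∀ L ∈ Ex ℓ Bt η a, ∀ z ∈ Vb ℓ a, η *ᵥ z = z → L *ᵥ z = 0 → L = 0 ∨ z = 0)
    (hD : ∃ L ∈ Ex ℓ Bt η a, (∀ z ∈ Vb ℓ a, η *ᵥ z = z → (z, L *ᵥ z) ∈ D) ∧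
      ∀ y ∈ D, η *ᵥ y.2 = L *ᵥ y.1)
    (hD' : ∃ L ∈ Ex ℓ Bt η a, (∀ z ∈ Vb ℓ a, η *ᵥ z = z → (z, L *ᵥ z) ∈ D') ∧
      ∀ y ∈ D', η *ᵥ y.2 = L *ᵥ y.1) : PX.Fd p (Gm ℓ a D) (Gm ℓ a D') g := by
  let Z : Submodule (ZMod p) (Vb ℓ a : VS p n) := (im η).comap (Vb ℓ a).subtype
  have hz : ∀ z : Z, η *ᵥ z.1.1 = z.1.1 := fun z => by
    obtain ⟨x, hx⟩ := mem_im.1 z.2
    have hx' : η *ᵥ x = z.1.1 := hx
    rw [← hx', Matrix.mulVec_mulVec, hi]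
  let ψ : Vec p n →ₗ[ZMod p] Z := LinearMap.codRestrict Z
    (LinearMap.codRestrict (Vb ℓ a) (η * pr ℓ a).mulVecLin fun x => by
      rw [Matrix.mulVecLin_apply, ← Matrix.mulVec_mulVec]
      exact hd.mulVec_mem (pr_mulVec_mem a x))
    fun x => mem_im.2 ⟨pr ℓ a *ᵥ x, Matrix.mulVec_mulVec _ _ _⟩
  have hψ : ∀ x, (ψ x).1.1 = (η * pr ℓ a) *ᵥ x := fun _ => rfl
  let φ : Mat p n →ₗ[ZMod p] Module.End (ZMod p) Z :=
    { toFun := fun L => ψ ∘ₗ L.mulVecLin ∘ₗ (Vb ℓ a).subtype ∘ₗ Z.subtype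
      map_add' := fun L L' => by
        rw [Matrix.mulVecLin_add, LinearMap.add_comp, LinearMap.comp_add]
      map_smul' := fun c L => LinearMap.ext fun z => by
        simp }
  have hφ : ∀ L ∈ Ex ℓ Bt η a, ∀ z : Z, (φ L z).1.1 = L *ᵥ z.1.1 := fun L hL z => by
    change (η * pr ℓ a) *ᵥ (L *ᵥ z.1.1) = _
    rw [Matrix.mulVec_mulVec, (ex_both hd hi hL).1]
  have hV : ∀ x : (Vb ℓ a : VS p n), (η * pr ℓ a) *ᵥ x.1 = η *ᵥ x.1 := fun x => by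
    rw [← Matrix.mulVec_mulVec, mem_Vb_iff.1 x.2]
  let E : Subalgebra (ZMod p) (Module.End (ZMod p) Z) := ((Ex ℓ Bt η a).map φ).toSubalgebra
    ⟨_, h1, LinearMap.ext fun z => Subtype.ext (Subtype.ext (by
      rw [hφ _ h1, hV, hz]; rfl))⟩
    (by
      rintro _ _ ⟨L, hL, rfl⟩ ⟨L', hL', rfl⟩
      refine ⟨L * L', ex_mul hd hi hL hL', LinearMap.ext fun z => Subtype.ext (Subtype.ext ?_)⟩
      rw [hφ _ (ex_mul hd hi hL hL'), Module.End.mul_apply, hφ _ hL, hφ _ hL',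
        Matrix.mulVec_mulVec])
  have key : ∀ {D : Submodule (ZMod p) (HH p n)} {L : Mat p n}, L ∈ Ex ℓ Bt η a →
      (∀ y ∈ D, η *ᵥ y.2 = L *ᵥ y.1) → ∀ y ∈ Gm ℓ a D,
      (ψ ∘ₗ (Vb ℓ a).subtype) y.2 = φ L ((ψ ∘ₗ (Vb ℓ a).subtype) y.1) := fun hL H y hy => by
    refine Subtype.ext (Subtype.ext ?_)
    rw [hφ _ hL]
    change (η * pr ℓ a) *ᵥ y.2.1 = _ *ᵥ ((η * pr ℓ a) *ᵥ y.1.1)
    rw [Matrix.mulVec_mulVec, (ex_both hd hi hL).2, hV]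
    exact H _ (mem_Gm.1 hy)
  obtain ⟨L, hL, a1, a2⟩ := hD
  obtain ⟨L', hL', b1, b2⟩ := hD'
  refine ⟨Z, ψ ∘ₗ (Vb ℓ a).subtype, E, φ L, φ L', ?_, fun z => Subtype.ext (Subtype.ext ?_), ?_,
    (Submodule.finrank_map_le φ _).trans hE, ⟨L, hL, rfl⟩, ⟨L', hL', rfl⟩, fun z => ?_,
    fun z => ?_, key hL a2, key hL' b2⟩
  · rw [finrank_Vb, ← Submodule.finrank_map_subtype_eq, Submodule.map_comap_subtype, inf_comm]
    exact hZ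
  · change (η * pr ℓ a) *ᵥ z.1.1 = _
    rw [hV, hz]
  · rintro _ ⟨X, hX, rfl⟩ h0
    refine (injective_iff_map_eq_zero _).2 fun z e => ?_
    have e' : X *ᵥ z.1.1 = 0 := by rw [← hφ X hX, e]; rfl
    rcases hinj X hX _ z.1.2 (hz z) e' with r | r
    · exact absurd (by rw [r, map_zero]) h0
    · exact Subtype.ext (Subtype.ext r)
  · rw [mem_Gm, hφ L hL]
    exact a1 _ z.1.2 (hz z)
  · rw [mem_Gm, hφ L' hL']
    exact b1 _ z.1.2 (hz z)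

theorem card_lt {k m : ℕ} (V : VS p n) (hV : finrank (ZMod p) V = m) (h : k + 1 ≤ m)
    (hk : k ≠ 0) : p ^ k < Nat.card {u : V // u ≠ 0} := by
  classical
  have h1 : Nat.card V = p ^ m := by rw [Module.natCard_eq_pow_finrank (K := ZMod p), hV]; simp
  have := Fintype.ofFinite V
  have h2 : Nat.card {u : V // u ≠ 0} = Nat.card V - 1 := by
    rw [Nat.card_eq_fintype_card, Nat.card_eq_fintype_card]
    exact Set.card_ne_eq 0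
  have hp := (Fact.out : p.Prime).two_le
  have h3 : p ^ (k + 1) ≤ p ^ m := Nat.pow_le_pow_right (by omega) h
  have h4 : 1 < p ^ k := Nat.one_lt_pow hk (by omega)
  have h5 : p ^ k * 2 ≤ p ^ k * p := Nat.mul_le_mul_left _ hp
  rw [pow_succ] at h3
  omega

end PQ8y

open PQ8y in
theorem s_PQ8 (p n : ℕ) [Fact p.Prime] (m : PM p n) (hGRA : S_GRA p n) (hR4 : S_R4 p n)
    (hOPP : PX.S_OPP p) : S_PQ8 p n := by
  intro ℓ s a θ g h hθ ha1 hC hg1 hg0 H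
  obtain ⟨C, hC, h0⟩ := exists_cb_ne hC
  obtain ⟨C', hC', e1, -⟩ := schur h.str hC h0
  let D : Vec p n → Submodule (ZMod p) (HH p n) := fun u =>
    (R4 ℓ s a θ (u, 0)).map (LinearMap.id.prodMap C'.mulVecLin)
  have gra : ∀ u ∈ Vb ℓ (a 0), ∀ Bt η df ex, Alg ℓ Bt →
      Bt ≤ Ht s.B (D4 ℓ s a θ (u, 0)) (D4 ℓ s a θ (u, 0)) → Cr ℓ s.B Bt (a 1) η df ex → df ≤ g →
      _ := fun u hu Bt η df ex hA hle hcr hdf => by
    obtain ⟨-, r2, r3, r4, r5, -⟩ := hR4 ℓ s a θ u h hθ ha1 hu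
    refine hGRA ℓ s.B Bt (a 1) η df ex (eb ℓ s.B (a 0)) (D u) h.str hA (hle.trans (Ht_le _ _ _))
      hcr ?_ ?_ ?_ ?_ (by omega)
    · rintro _ ⟨y, hy, rfl⟩
      exact ⟨(r2 y hy).1, cb_mulVec_mem hC' _⟩
    · rintro b hb _ ⟨y, hy, rfl⟩
      exact ⟨_, r3 b (hle hb) y hy, Prod.ext rfl (com_mulVec hC'.1 (hle hb).1 _)⟩
    · refine r4.trans (Nat.add_le_add_right (Submodule.finrank_mono ?_) _)
      rintro _ ⟨y, hy, rfl⟩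
      exact ⟨_, ⟨y, hy, rfl⟩, rfl⟩
    · refine le_trans (Submodule.finrank_mono ?_)
        ((Submodule.finrank_map_le C'.mulVecLin _).trans r5)
      rintro x ⟨y, hy, e⟩
      have a1 : y.1 = 0 := congrArg Prod.fst e
      exact ⟨y.2, (show ((0 : Vec p n), y.2) ∈ R4 ℓ s a θ (u, 0) from a1 ▸ hy),
        congrArg Prod.snd e⟩
  obtain ⟨u, v, huv, Y, T, hY, hT, HY⟩ := hOPP {u : (Vb ℓ (a 0) : VS p n) // u ≠ 0}
    (Vb ℓ (a 1) : VS p n) (fun u => Gm ℓ (a 1) (D u.1.1)) g (by rw [finrank_Vb]; omega)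
    (card_lt _ (finrank_Vb _) hg0 (by omega)) fun u v => by
      obtain ⟨Bt, η, df, ex, hA, hu, hv, hcr, hdf, hex⟩ :=
        H u.1.1 u.1.2 (fun e => u.2 (Subtype.ext e)) v.1.1 v.1.2 (fun e => v.2 (Subtype.ext e))
      obtain ⟨g1, g2, g3, g4⟩ := gra _ u.1.2 Bt η df ex hA hu hcr hdf
      exact fd (hA.dg _ hcr.mem) hcr.idem (g3 _ (cb_pr h.str.alg _)) (hcr.dim.le.trans hex)
        (by omega) g2 g1 (gra _ v.1.2 Bt η df ex hA hv hcr hdf).1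
  have back : ∀ w ∈ Vb ℓ (a 0), ∀ z y : Vec p n, (z, y) ∈ D w →
      (z, C *ᵥ y) ∈ R4 ℓ s a θ (w, 0) := by
    rintro w hw z y ⟨x, hx, e⟩
    have a1 : x.1 = z := congrArg Prod.fst e
    have a2 : C' *ᵥ x.2 = y := congrArg Prod.snd e
    rw [← a1, ← a2, Matrix.mulVec_mulVec, e1,
      mem_Vb_iff.1 ((hR4 ℓ s a θ w h hθ ha1 hw).2.1 x hx).2]
    exact hx
  have h8 := (hR4 ℓ s a θ _ h hθ ha1 u.1.2).2.2.2.2.2.2.2 _ v.1.2 (Y.map (Vb ℓ (a 1)).subtype)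
    (T.map (C.mulVecLin ∘ₗ (Vb ℓ (a 1)).subtype)) (2 * g)
    (by rw [Submodule.finrank_map_subtype_eq, ← finrank_Vb (p := p)]; exact hY) (by
      rintro _ ⟨z, hz, rfl⟩
      obtain ⟨y, y', b1, b2, b3⟩ := HY z hz
      exact ⟨C *ᵥ y.1, C *ᵥ y'.1, back _ u.1.2 _ _ b1, back _ v.1.2 _ _ b2, y - y', b3,
        Matrix.mulVec_sub C y.1 y'.1⟩)
  refine ⟨_, ⟨h8.1, h8.2.trans ?_⟩, fun e => huv (Subtype.ext (Subtype.ext (sub_eq_zero.1 e)))⟩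
  have := (Submodule.finrank_map_le (C.mulVecLin ∘ₗ (Vb ℓ (a 1)).subtype) T).trans hT
  exact Nat.add_le_add_right ((Nat.add_le_add_left this _).trans (by omega)) _

end Pool.Agent.P.MP_f1a348_lc.UP.CU
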