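import Pool.Agent.P.MP_f1a348_lc.UP.EBase
import Pool.Agent.P.MP_f1a348_lc.CF.All

/-!
Project CU: the results of the projects PG and UP for every prime.  Constants and the bundle.
-/

namespace Pool.Agent.P.MP_f1a348_lc.UP.CU

open Matrix Module Pool.Agent.P.MP_f1a348_lc.PG

/-- the constant in the definition of giant blocks -/
def KG : ℕ := 20000

def gam (n : ℕ) : ℕ := KG * (2 * n + 1)

def Giant {p n : ℕ} (ℓ : Ix n → ℕ) (B : Sub p n) : Prop :=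
  ∀ a, ¬ Triv ℓ B a → gam n * eb ℓ B a < nb ℓ a ^ 2

/-- the results of the project PG that hold for every prime -/
structure PM (p n : ℕ) [Fact p.Prime] : Prop where
  cw : S_CW p n
  lamaa : S_LAMAA p n
  tsm : S_TSM p n
  rel : PG.S_REL p n
  peel : S_PEEL p n
  add : S_ADD p n
  pl : S_PL p n
  eta : S_ETA p n
  ebas : S_EBAS p n
  loc : S_LOC p n
  cls : S_CLS p n
  cls2 : S_CLS2 p n
  gain : S_GAIN p n
  acc0 : S_ACC0 p n
  g1 : S_G1 p n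
  g2 : S_G2 p n
  l1 : S_L1 p
  dec : S_DEC p n
  hinv : S_HINV p n
  plp1 : S_PLP1 p n
  nat1 : S_NAT1 p n
  nat2 : S_NAT2 p n
  nat3 : S_NAT3 p n
  cut : S_CUT n
  spl : S_SPL p n
  mkg : S_MKG p n
  ref : S_REF p n
  inv : S_INV p n
  cst : S_CST p n

open Pool.Agent.P.MP_f1a348_lc.CF in
theorem pm_all (p n : ℕ) [Fact p.Prime] : PM p n :=
  ⟨a_CW p n, a_LAMAA p n, a_TSM p n, a_REL p n, a_PEEL p n, a_ADD p n, a_PL p n, a_ETA p n,
    a_EBAS p n, a_LOC p n, a_CLS p n, a_CLS2 p n, a_GAIN p n, a_ACC0 p n, a_G1 p n, a_G2 p n,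
    a_L1 p, a_DEC p n, a_HINV p n, a_PLP1 p n, a_NAT1 p n, a_NAT2 p n, a_NAT3 p n, a_CUT n,
    a_SPL p n, a_MKG p n, a_REF p n, a_INV p n, a_CST p n⟩

variable {p n : ℕ} [Fact p.Prime] {ℓ : Ix n → ℕ} {B : Sub p n}

theorem Giant.bigK (h : Str ℓ B) (hg : Giant ℓ B) : Big ℓ B KG := fun a t => by
  have h1 := hg a t
  have h2 := nb_le ℓ a
  have h3 := eb_pos h.alg a
  rw [db, Nat.le_div_iff_mul_le h3]
  by_contra hc
  have h4 : nb ℓ a * nb ℓ a ≤ KG * eb ℓ B a * (2 * n + 1) := Nat.mul_le_mul (by omega) h2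
  rw [gam, pow_two] at h1
  nlinarith

theorem Giant.big' (h : Str ℓ B) (hg : Giant ℓ B) {d : ℕ} (hd : d ≤ 20000) : Big ℓ B d :=
  fun a t => hd.trans (hg.bigK h a t)

theorem Giant.big (h : Str ℓ B) (hg : Giant ℓ B) : Big ℓ B 200 := hg.big' h (by norm_num)

omit [Fact p.Prime] in
theorem Giant.up (hg : Giant ℓ B) : UP.Giant ℓ B := fun a t =>
  (Nat.mul_le_mul_right _ (Nat.mul_le_mul_right _ (by norm_num [KG]))).trans_lt (hg a t)

theorem size_pos' (p : ℕ) [Fact p.Prime] : 0 < Nat.size p :=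
  Nat.size_pos.2 (Fact.out : p.Prime).pos

theorem le_five_pow (p : ℕ) : p ≤ 5 ^ Nat.size p :=
  (Nat.lt_size_self p).le.trans (Nat.pow_le_pow_left (by norm_num) _)

theorem pow_le_five_pow (p k : ℕ) : p ^ k ≤ 5 ^ (Nat.size p * k) := by
  rw [pow_mul]; exact Nat.pow_le_pow_left (le_five_pow p) _

theorem five_pow_le (p : ℕ) [Fact p.Prime] : 5 ^ Nat.size p ≤ p ^ 6 := by
  obtain ⟨k, hk⟩ : ∃ k, Nat.size p = k + 1 := ⟨_, (Nat.succ_pred_eq_of_pos (size_pos' p)).symm⟩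
  have h1 : 2 ^ k ≤ p := Nat.lt_size.1 (by omega)
  have h2 := (Fact.out : p.Prime).two_le
  calc 5 ^ Nat.size p ≤ (2 ^ 3) ^ (k + 1) := hk ▸ Nat.pow_le_pow_left (by norm_num) _
    _ = (2 ^ k) ^ 3 * 2 ^ 3 := by rw [pow_succ (2 ^ 3), ← pow_mul, ← pow_mul, mul_comm 3 k]
    _ ≤ p ^ 3 * p ^ 3 := Nat.mul_le_mul (Nat.pow_le_pow_left h1 _) (Nat.pow_le_pow_left h2 _)
    _ = p ^ 6 := by ring

theorem five_pow_le' (p k : ℕ) [Fact p.Prime] : 5 ^ (Nat.size p * k) ≤ p ^ (6 * k) := by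
  rw [pow_mul, pow_mul]; exact Nat.pow_le_pow_left (five_pow_le p) _

instance fact_five : Fact (Nat.Prime 5) := ⟨Nat.prime_five⟩

end Pool.Agent.P.MP_f1a348_lc.UP.CU
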