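import Pool.Agent.P.MP_f1a348_lc.UP.Iface
import Pool.Agent.P.MP_f1a348_lc.CU.EDefs

/-!
Project CU: stable groups and cores with the larger constant, budgets in base five.
-/

namespace Pool.Agent.P.MP_f1a348_lc.UP.CU

open Matrix Module Pool.Agent.P.MP_f1a348_lc.PG
open scoped commutatorElement

/-- change of the base of the budgets -/
theorem kids_base {Γ : Type} [Group Γ] {p q w : ℕ} (hw : 0 < w) (h : p ≤ q ^ w) {c : ℕ}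
    {G : Subgroup Γ} {F : List (Rec Γ)} (k : Kids p c G F) : Kids q (w * c) G F := by
  induction k with
  | nil c G => exact Kids.nil _ _
  | cons c c0 c' G K P sub rest h1 h2 h3 _ h5 _ i1 i2 =>
    refine Kids.cons _ (w * c0) (w * c') _ _ _ _ _ h1 (h2.trans ?_) ?_ i1 h5 i2
    · rw [pow_mul]; exact Nat.pow_le_pow_left h _
    · have := Nat.mul_le_mul_left w h3
      rw [mul_add, mul_add] at this
      omega

theorem kids_five {Γ : Type} [Group Γ] {p : ℕ} [Fact p.Prime] {c : ℕ} {G : Subgroup Γ}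
    {F : List (Rec Γ)} (k : Kids p c G F) : Kids 5 (Nat.size p * c) G F :=
  kids_base (size_pos' p) (le_five_pow p) k

theorem kids_mono {Γ : Type} [Group Γ] {p q : ℕ} (h : p ≤ q) {c : ℕ} {G : Subgroup Γ}
    {F : List (Rec Γ)} (k : Kids p c G F) : Kids q c G F := by
  simpa using kids_base (w := 1) (q := q) one_pos (by simpa using h) k

noncomputable section
variable {p n : ℕ}

/-- the small non-trivial blocks -/
def Sml (ℓ : Ix n → ℕ) (B : Sub p n) : Set (Ix n) :=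
  {a | ¬ Triv ℓ B a ∧ nb ℓ a ^ 2 ≤ gam n * eb ℓ B a}

variable [Fact p.Prime]

def Stable (X : SG p n) : Prop :=
  PP p X ∧ ∀ L U : VS p n, L ≤ U → Inv (Env X) L → Inv (Env X) U →
    finrank (ZMod p) (Env X) ≤ finrank (ZMod p) (ann (Env X) L U) + gam n → X ≤ Ker L U

/-- `Y` is the largest stable subgroup of `N` -/
structure LS (N Y : SG p n) : Prop where
  le : Y ≤ N
  stable : Stable Y
  max : ∀ Z, Z ≤ N → Stable Z → Z ≤ Y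

def cT0 (n : ℕ) : ℕ := 3 * gam n + 10 * (2 * n + 1)
def cT (p n : ℕ) : ℕ := Nat.size p * cT0 n

/-- the invariant of the computation of the core of `N` -/
structure CoreI (H N Y : SG p n) (F : List (Rec (GG p n))) : Prop where
  le : Y ≤ N
  nm : Nm H Y
  max : ∀ Z, Z ≤ N → Stable Z → Z ≤ Y
  val : Kids 5 (cT p n) H F
  solv : SolvMod (N ⊓ topI F) Y
  near : ∀ M Z : SG p n, M ≤ H → Nm H M → Z ≤ N ⊓ M → Stable Z →
    (∀ x ∈ N ⊓ M, ∃ k : ℕ, x ^ p ^ k ∈ Z) → M ≤ topI F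

structure Core (H N Y : SG p n) (F : List (Rec (GG p n))) : Prop where
  inv : CoreI H N Y F
  stable : Stable Y

end

section
variable (p : ℕ) [Fact p.Prime]

def S_SO1 : Prop := ∀ (Γ W : Type) [Group Γ] [Finite Γ] [AddCommGroup W] [Module (ZMod p) W]
  [Finite W] [Nontrivial W] (H M N : Subgroup Γ) (σ : Γ → Module.End (ZMod p) W), PX.Rp H σ →
  M ≤ H → Nm H M → PX.Irr M σ → (∀ a ∈ M, ∀ b ∈ M, ∀ c ∈ M, σ ⁅a, b⁆ * σ c = σ c * σ ⁅a, b⁆) →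
  (∀ h ∈ H, σ h = 1 → h ∈ N) → N.relIndex H ≤ p ^ (23 * finrank (ZMod p) W)

def S_KIDS : Prop := ∀ (Γ W : Type) [Group Γ] [Finite Γ] [AddCommGroup W] [Module (ZMod p) W]
  [Finite W] [Nontrivial W] (H N J : Subgroup Γ) (σ : Γ → Module.End (ZMod p) W)
  (L : List (Subgroup Γ)), PX.Rp H σ → PX.Irr H σ → ¬ Bal H σ → (∀ h ∈ H, h ∈ N ↔ σ h = 1) →
  (∀ K ∈ L, Nm H K ∧ ∃ a ∈ H ⊓ K, ∃ b ∈ H ⊓ K, σ a * σ b ≠ σ b * σ a) →
  (∀ g, (∀ K ∈ L, g ∈ K) → g ∈ J) → SolvMod (H ⊓ J) N →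
  N.relIndex H ≤ p ^ (23 * finrank (ZMod p) W)

end

section
variable (p n : ℕ) [Fact p.Prime]

def S_STCF : Prop :=
  (∀ (X : SG p n) f ℓ, CF (Env X) f ℓ → (Stable X ↔ PP p X ∧ Giant ℓ (gB (Env X) f ℓ))) ∧
  (∀ (Z : SG p n) R f ℓ α, SA R → CF R f ℓ → Env Z ≤ R →
    (Triv ℓ (gB R f ℓ) α → Z ≤ KS f ℓ α) ∧
    (Stable Z → nb ℓ α ^ 2 ≤ gam n * eb ℓ (gB R f ℓ) α → Z ≤ KS f ℓ α)) ∧
  ∀ (Z : SG p n) f ℓ α, CF (Env Z) f ℓ → Z ≤ KS f ℓ α → Triv ℓ (gB (Env Z) f ℓ) α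

def S_PERM : Prop := ∀ (H : SG p n) R f ℓ, SA R → CF R f ℓ → H ≤ NmS R →
  (∀ h ∈ H, ∀ α ∈ Sml ℓ (gB R f ℓ), ∃ β ∈ Sml ℓ (gB R f ℓ),
    (MI R f ℓ {α}).map (cj h.1) = MI R f ℓ {β}) ∧
  H ≤ NmS (MI R f ℓ (Sml ℓ (gB R f ℓ))) ∧
  (∀ I J, J ⊆ I → ∀ H', H' ≤ H → H' ≤ NmS (MI R f ℓ I) →
    (NmS (MI R f ℓ J)).relIndex H' ≤ 2 ^ I.ncard) ∧
  (∀ α ∈ Sml ℓ (gB R f ℓ), ∀ H', H' ≤ H → H' ≤ NmS (MI R f ℓ {α}) →
    (CenQ R (MI R f ℓ {α})).relIndex H' ≤ p ^ (3 * gam n + 1)) ∧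
  (∀ α ∈ Sml ℓ (gB R f ℓ), (CenQ R (MI R f ℓ {α})).relIndex H ≤ p ^ cT0 n) ∧
  ∀ I g, g ∈ H ⊓ CenQ R (MI R f ℓ I) ↔ g ∈ H ∧ ∀ α ∈ I, g ∈ CenQ R (MI R f ℓ {α})

def S_TREE : Prop := ∀ (H : SG p n) R f ℓ h, SA R → CF R f ℓ → H ≤ NmS R → 2 * n + 1 ≤ 2 ^ h →
  2 ^ h ≤ 2 * (2 * n + 1) → Kids 5 (cT p n) H (tree H R f ℓ (Sml ℓ (gB R f ℓ)) h) ∧
  topI (tree H R f ℓ (Sml ℓ (gB R f ℓ)) h) = H ⊓ CenQ R (MI R f ℓ (Sml ℓ (gB R f ℓ)))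

def S_CORE : Prop := ∀ H N : SG p n, N ≤ H → (Nm H N → CoreI H N N []) ∧
  (∀ Y F f ℓ h I Y', CoreI H N Y F → CF (Env (Fr p Y)) f ℓ → 2 * n + 1 ≤ 2 ^ h →
    2 ^ h ≤ 2 * (2 * n + 1) → I = Sml ℓ (gB (Env (Fr p Y)) f ℓ) → Y' = Fr p Y ⊓ KB f ℓ I →
    CoreI H N Y' (F ++ tree H (Env (Fr p Y)) f ℓ I h) ∧ H ≤ NmS (Env (Fr p Y)) ∧ Y' ≤ Y ∧
      (Y ≤ Y' → Stable Y') ∧ (Stable Y → Y ≤ Y')) ∧
  ∀ Y F, Core H N Y F → LS N Y

/-- the basic toolbox -/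
structure TB : Prop where
  pm : PM p n
  sol : S_SOL
  kl : S_KL
  op : S_OP p
  kid : S_KID 5
  kidp : S_KID p
  env : S_ENV p n
  sec : S_SEC p n
  rb : S_RB p n
  lc : S_LC p n
  lcs : S_LCS p n
  rad : S_RAD p n
  cfx : S_CFX p n
  blk : S_BLK p n
  jh : S_JH p n
  uni : S_UNI p n
  stcf : S_STCF p n
  low : S_LOW p n
  phi : S_PHI p n
  phm : S_PHM p n
  phb : S_PHB p n
  gabc : S_GABC p n

/-- the toolbox with cores and local models -/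
structure TC : Prop extends TB p n where
  ssm : S_SSM p n
  clf : S_CLF p n
  reg : S_REG p n
  homb : S_HOMB p n
  autq : S_AUTQ p n
  npg : S_NPG p
  perm : S_PERM p n
  core : S_CORE p n
  locf : S_LOCF p n
  locp : S_LOCP p n

end

end Pool.Agent.P.MP_f1a348_lc.UP.CU
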