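import Pool.Agent.P.MP_f1a348_lc.UP.EIf
import Pool.Agent.P.MP_f1a348_lc.CU.EDefs

/-!
Project CU: the refinement of the program, for every prime.
-/

namespace Pool.Agent.P.MP_f1a348_lc.UP

open Matrix Module Pool.Agent.P.MP_f1a348_lc.PG

set_option linter.unusedSectionVars false

variable {p n : ℕ} [Fact p.Prime] {c : Cx} {l : V}

protected theorem Ok.mkgC (h : Ok p n c) (m : CU.PM p n) (hl : Lab (lab n l)) {α : Ix n}
    (hα : c0 n < α) {L : List V} {W : VS p n} (hW : Bas (vec p n) (2 * n + 1) L W)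
    (hle : W ≤ Vb (lab n l) α) : Ad (lab n l) α W (mV p n (mkg c l α.val L)) := by
  obtain ⟨b1, b2, b3⟩ := QMkgy.ext_spec (l := l) h α L (by rw [hW.sp, hW.len]) (hW.sp ▸ hle)
  rw [PG.mkg]
  generalize extP c l α.val L = E at b1 b2 b3
  have hG := QMkgy.g1_apply (l := l) h α E
  have hcol : ∀ β, (fun γ => mV p n (g1P c l α.val E) γ β) ∈
      LinearMap.range (mV p n (g1P c l α.val E)).mulVecLin := fun β =>
    ⟨Pi.single β 1, by funext γ; simp⟩
  have hs : Function.Surjective (mV p n (g1P c l α.val E)).mulVec := by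
    intro x
    refine QMkgy.top_of_single (S := LinearMap.range (mV p n (g1P c l α.val E)).mulVecLin)
      (fun β => ?_) x
    by_cases e1 : lab n l β = lab n l α
    · have h1 : Vb (lab n l) α ≤ LinearMap.range (mV p n (g1P c l α.val E)).mulVecLin := by
        rw [← b3, sp_le]
        intro y hy
        obtain ⟨i, hi, rfl⟩ := List.getElem_of_mem hy
        have h2 := add_nb_le_y hl α
        have h3 : lab n l ⟨lab n l α + i, by omega⟩ = lab n l α :=
          (hl.block α _).2 ⟨Nat.le_add_right _ _, by show lab n l α + i < _; omega⟩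
        have h4 := hcol ⟨lab n l α + i, by omega⟩
        simp only [hG, if_pos h3, Nat.add_sub_cancel_left, List.getD_eq_getElem _ _ hi] at h4
        exact h4
      exact h1 (single_mem_Vb e1 1)
    · have h4 := hcol β
      simp only [hG, if_neg e1] at h4
      have h5 : (fun γ => (1 : Mat p n) γ β) = Pi.single β 1 := by
        funext γ; rw [Matrix.one_apply, Pi.single_apply]
      rwa [h5] at h4
  obtain ⟨G', hG'⟩ := Matrix.mulVec_surjective_iff_exists_right_inverse.1 hs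
  rw [h.mmul, h.mstar, h.invP hG']
  refine m.mkg _ α W _ G' hl hα hG' (fun γ β e => by rw [hG, if_neg e]) (fun γ β e e' => ?_)
    fun β e hβ => ?_
  · rw [hG, if_pos e]
    exact (b3 ▸ QMkgy.getD_mem E _ : _ ∈ Vb (lab n l) α) γ e'
  · simp only [hG, if_pos e]
    obtain ⟨T, rfl⟩ := b1
    have h1 := ((hl.block α β).1 e).1
    rw [List.getD_append _ _ _ _ (by rw [hW.len]; omega), ← hW.sp]
    exact QMkgy.getD_mem L _

open QSplity in
protected theorem Ok.splitC (h : Ok p n c) (m : CU.PM p n) (T0 T0' : V) {z : Lt × List Rt}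
    (hl : Lab (lab n z.1.1)) (hB : Alg (lab n z.1.1) (alL p n z.1)) :
    (Sim (lab n z.1.1) (alL p n z.1) ∧ split c z = z) ∨
    ∃ g, Stp p n T0 T0' z (split c z) g ∧ nblk (lab n z.1.1) < nblk (lab n (split c z).1.1) ∧
      nblk (lab n (split c z).1.1) ≤ 2 * n + 1 := by
  cases e : findP c z.1 with
  | none =>
    refine Or.inl ⟨(m.ref _ _ hl hB).2.2.2 fun α hα x hx h0 => ?_, by rw [PG.split, e]; rfl⟩
    obtain ⟨v, hv, rfl⟩ := ((h.blkP hl α).mem x).1 hx
    by_contra hn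
    refine List.find?_eq_none.1 e (α.val, v) (List.mem_flatMap.2
      ⟨α.val, mem_ran.2 (α.2.trans_eq h.len1.symm), List.mem_map_of_mem hv⟩) ?_
    simp only [Bool.and_eq_true, Nat.blt_eq, Bool.not_eq_true', h.cz, h.nbP, (h.orbP _ _).len]
    exact ⟨⟨hα, Bool.eq_false_iff.2 fun e => h0 ((isz_iff h.hp h.d1 v).1 e)⟩, not_le.1 hn⟩
  | some q =>
    have h2 := List.find?_some e
    obtain ⟨a, ha, hq⟩ := List.mem_flatMap.1 (List.mem_of_find?_eq_some e)
    obtain ⟨v, hv, rfl⟩ := List.mem_map.1 hq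
    obtain ⟨α, rfl⟩ : ∃ α : Ix n, a = α.val := ⟨⟨a, h.len1 ▸ mem_ran.1 ha⟩, rfl⟩
    have hs : PG.split c z = (spLft c z.1 (α.val, v), z.2.map (spRgt c z.1 (α.val, v))) := by
      rw [PG.split, e]; rfl
    have hW : Bas (vec p n) (2 * n + 1) (orbP c z.1.2.2 v) (orb (alL p n z.1) (vV p n v)) :=
      h.orbP _ _
    simp only [Bool.and_eq_true, Nat.blt_eq, Bool.not_eq_true', h.cz, h.nbP, hW.len] at h2
    obtain ⟨⟨hα, h0⟩, hlt⟩ := h2
    replace hα : c0 n < α := hα
    replace h0 : vV p n v ≠ 0 := fun e => Bool.eq_false_iff.1 h0 ((isz_iff h.hp h.d1 v).2 e)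
    have hvB : vV p n v ∈ Vb (lab n z.1.1) α := ((h.blkP hl α).mem _).2 ⟨v, hv, rfl⟩
    have hle : orb (alL p n z.1) (vV p n v) ≤ Vb (lab n z.1.1) α := fun w hw => by
      obtain ⟨b, hb, rfl⟩ := mem_orb.1 hw
      exact (hB.dg b hb).mulVec_mem hvB
    have hpos : 0 < finrank (ZMod p) (orb (alL p n z.1) (vV p n v)) :=
      Nat.pos_of_ne_zero fun e => h0 (by
        have h1 : vV p n v ∈ orb (alL p n z.1) (vV p n v) :=
          mem_orb.2 ⟨1, hB.one, Matrix.one_mulVec _⟩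
        rwa [Submodule.finrank_eq_zero.1 e, Submodule.mem_bot] at h1)
    have hA := h.mkgC m hl hα hW hle
    have hc : lab n (cutP c z.1.1 α.val (orbP c z.1.2.2 v).length) =
        cutL (lab n z.1.1) α (finrank (ZMod p) (orb (alL p n z.1) (vV p n v))) := by
      rw [h.cutP hl, hW.len]
    have hc' : lab n (spLft c z.1 (α.val, v)).1 = _ := hc
    obtain ⟨c1, c2, c3, c4, -⟩ := m.cut _ α _ hl hα hpos hlt
    have href : Ref (lab n z.1.1) (alL p n z.1) (lab n (spLft c z.1 (α.val, v)).1)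
        (mV p n (mkg c z.1.1 α.val (orbP c z.1.2.2 v))) (alL p n (spLft c z.1 (α.val, v))) := by
      refine ⟨hc' ▸ c1, hc' ▸ c2, hA.par, hA.dg, fun b hb => ?_, ?_⟩
      · rw [hc']
        exact m.spl _ α _ _ _ _ b hl hα hle hle hpos hlt rfl hA hA (hB.dg b hb) (orb_stab hB hb)
          (orb_stab hB (hB.star b hb))
      · rw [← lr_eq]
        exact h.conjP _ _ _ _
    rw [hs]
    refine Or.inr ⟨_, ⟨href, h.mmul _ _, List.length_map _, ?_⟩, hc' ▸ c3, hc' ▸ c4⟩
    rintro ⟨y, hy, y1, φ, hφ, y2, y3⟩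
    have hf := (hφ.gr hl).2.1
    have hW' : Bas (vec p n) (2 * n + 1) (orbP c y.2 v)
        ((orb (alL p n z.1) (vV p n v)).map (gr (lab n z.1.1) φ).mulVecLin) := by
      rw [← orb_lm, ← y3]
      exact h.orbP _ _
    have hle' : (orb (alL p n z.1) (vV p n v)).map (gr (lab n z.1.1) φ).mulVecLin ≤
        Vb (lab n z.1.1) α := by
      rintro _ ⟨w, hw, rfl⟩
      exact (dg_gr φ).mulVec_mem (hle hw)
    have hA' := h.mkgC m hl hα hW' hle'
    have ht := m.spl _ α _ _ _ _ (gr (lab n z.1.1) φ) hl hα hle hle' hpos hlt (fin_map hf _) hA hA'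
      (dg_gr φ) (fun w hw => ⟨w, hw, rfl⟩) (by
        rintro _ ⟨w, hw, rfl⟩
        rwa [Matrix.mulVecLin_apply, hf.st_mulVec])
    obtain ⟨i1, i2⟩ := m.inv _ _ _ _ _ _ φ hl href hφ hA'.par hA'.dg (hc' ▸ ht)
    have e1 : mV p n (spRgt c z.1 (α.val, v) y).1 = _ := h.mmul _ _
    have e2 : mV p n (spLft c z.1 (α.val, v)).2.1 = _ := h.mmul _ _
    refine ⟨_, List.mem_map_of_mem hy, e1 ▸ y1.mul hA'.par.l0, _, i1, ?_, ?_⟩
    · rw [e1, e2, pull1_mul, pull1_mul, pull1_mul, pull1_mul, hA'.par.2.1.pull1_st, y2]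
    · rw [← i2, ← y3]
      exact h.conjP _ _ _ _

theorem QRefy.mainC (h : Ok p n c) (m : CU.PM p n) (T0 T0' : V) (u : U) : ∀ z : Lt × List Rt,
    Lab (lab n z.1.1) → Alg (lab n z.1.1) (alL p n z.1) →
    2 * n + 1 < u.length + nblk (lab n z.1.1) →
    ∃ g, Stp p n T0 T0' z (u.foldl (fun z _ => split c z) z) g ∧
      Str (lab n (u.foldl (fun z _ => split c z) z).1.1)
        (alL p n (u.foldl (fun z _ => split c z) z).1) := by
  induction u with
  | nil =>
    intro z _ _ hk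
    have : nblk (lab n z.1.1) ≤ 2 * n + 1 := (Finset.card_filter_le _ _).trans (by simp)
    simp only [List.length_nil] at hk
    omega
  | cons a u ih =>
    intro z hl hB hk
    obtain ⟨r1, r2, r3, -⟩ := m.ref _ _ hl hB
    rcases h.splitC m T0 T0' hl hB with ⟨hs, e⟩ | ⟨g, hg, h1, -⟩
    · rw [QRefy.fix c _ e]
      exact ⟨1, ⟨r1, (mul_one _).symm, rfl, id⟩, hl, hB, hs⟩
    · obtain ⟨g', hg', hS⟩ := ih _ hg.ref.lab (r2 _ _ _ hg.ref)
        (by rw [List.length_cons] at hk; omega)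
      exact ⟨g * g', ⟨r3 _ _ _ _ _ _ hg.ref hg'.ref,
        hg'.mul.trans (by rw [hg.mul, mul_assoc]), hg'.len.trans hg.len,
        fun e => hg'.inv (hg.inv e)⟩, hS⟩

protected theorem Ok.refineC (h : Ok p n c) (m : CU.PM p n) (T0 T0' : V) {z : Lt × List Rt}
    (hl : Lab (lab n z.1.1)) (hB : Alg (lab n z.1.1) (alL p n z.1)) :
    ∃ g, Stp p n T0 T0' z (refine c z) g ∧
      Str (lab n (refine c z).1.1) (alL p n (refine c z).1) := by
  refine QRefy.mainC h m T0 T0' _ z hl hB ?_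
  rw [h.len1]
  exact Nat.lt_add_of_pos_right (Finset.card_pos.2
    ⟨0, Finset.mem_filter.2 ⟨Finset.mem_univ _, Nat.le_zero.1 (hl.le 0)⟩⟩)

/-- the refinement that the program computes -/
protected theorem Ok.rf1C (h : Ok p n c) (m : CU.PM p n) {A : List V}
    (hl : Lab (lab n l)) (hA : Alg (lab n l) (sp (mat p n) A)) :
    Ref (lab n l) (sp (mat p n) A) (lab n (rf1 c l A).1) (mV p n (rf1 c l A).2.1)
      (sp (mat p n) (rf1 c l A).2.2) ∧
    Str (lab n (rf1 c l A).1) (sp (mat p n) (rf1 c l A).2.2) := by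
  obtain ⟨g, h1, h2⟩ := h.refineC m [] [] (z := ((l, oneP c, A), [])) hl hA
  have e : mV p n (UP.rf1 c l A).2.1 = g := by
    have := h1.mul
    rwa [h.oneP, one_mul] at this
  exact ⟨e ▸ h1.ref, h2⟩

end Pool.Agent.P.MP_f1a348_lc.UP
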