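import Pool.Agent.P.MP_f1a348_lc.CU.ORef
import Pool.Agent.P.MP_f1a348_lc.PG.QAnn

/-! The canonical subspaces of the second and third kind, annihilators and primitives. -/

namespace Pool.Agent.P.MP_f1a348_lc.UP.CU

open Matrix Module Pool.Agent.P.MP_f1a348_lc.PG

namespace QE23y

variable {p n : ℕ} [Fact p.Prime] {c : Cx} {l : V} {s : Sd} {t : ℕ} {K : Rel p n} {SL : List V}

theorem len (h : Ok p n c) (s : Sd) : (uN c s).length = nc (CL (sdD p n s)) := by
  rw [UP.length_uN (p := p) (n := n), h.clP]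

theorem lam_eq (h : Ok p n c) (l : V) (s : Sd) (t : ℕ) (cs w : V) :
    fV p n (PG.lamP c l s t cs w) = lam (lab n l) (CL (sdD p n s)) t (tv p cs) (fV p n w) := by
  rw [h.lamP, h.clP]

theorem lam_cf (h : Ok p n c) (l : V) (s : Sd) (t : ℕ) (v : Sq p) :
    lam (lab n l) (CL (sdD p n s)) t (cf p (uN c s).length v) =
      lam (lab n l) (CL (sdD p n s)) t v :=
  QAnnx.lam_congr _ _ _ fun x hx => by rw [cf_apply, len h, if_pos hx]

theorem mem_ann (h : Ok p n c) (hs : Gd p n l s) (e : sp (frm p n) SL = SpK K) (v : Sq p) :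
    cf p (uN c s).length v ∈ sp (cf p (uN c s).length) (annK c l s t SL) ↔
      AnnK (lab n l) (sdD p n s) t K v := by
  rw [annK, mem_preAll h.hp h.d3 (dec_cf _) _
    (fun w => QAnnx.lc (lab n l) (CL (sdD p n s)) t (fV p n w)) (fun w _ x => by
      rw [QAnnx.lc_apply, dv, dv, lam_cf h, ← lam_eq h]; rfl), sp_units h.hp (dec_cf _), h.trL hs,
    AnnK, ← e]
  simp only [QAnnx.lc_apply, lam_cf h]
  refine (and_iff_right ⟨v, rfl⟩).trans ⟨fun H w hw => ?_, fun H w hw => H _ (mem_sp hw)⟩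
  have : sp (frm p n) SL ≤ (Tr (lab n l) (sdD p n s).B).comap
      (lam (lab n l) (CL (sdD p n s)) t v) := sp_le.2 H
  exact this hw

theorem lam_pull (m : PM p n) {ℓ : Ix n → ℕ} {s : Side p n} (hs : Good ℓ s) (v : Sq p)
    {y : Mat p n} (hy : y ∈ s.B) {w : Frm p n} (hw : w ∈ Wt ℓ t) :
    lam ℓ (CL s) t v (pull1 y w) = pull1 y (lam ℓ (CL s) t v w) := by
  by_cases ht : ∀ a, key ℓ a ≠ t
  · simp only [Wt_eq_bot ht hw, map_zero]
  obtain ⟨a, rfl⟩ : ∃ a, key ℓ a = t := by simpa using ht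
  have := aa_pull1 ((m.lamaa ℓ s a hs).1 v) hy w
  rwa [LinearMap.comp_apply, LinearMap.comp_apply, mem_Wt_iff.1 hw,
    mem_Wt_iff.1 (pull1_mem_Wt hs.str.lab (hs.str.alg.dg y hy) hw)] at this

theorem gen {P : Set (Mat p n × Frm p n)} {y : Mat p n} {v : Frm p n} (h : (y, v) ∈ P) :
    GenK P y v := by
  simpa using GenK.one.mul h

theorem key' (h : Ok p n c) (m : PM p n) (hs : Gd p n l s)
    (H : KC (lab n l) (sdD p n s).B t K) {PL : List (V × V)}
    (hK : ∀ z w, K z w ↔ GenK (plD p n PL) z w) (cs : V) (θ : Frm p n) :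
    ((1 : ZMod p), θ) ∈ sp (pl (frm p n)) (preAll c (u3 c) (() :: u3 c)
      ([1] :: (wtP c l t).map fun w => 0 :: w) (PL.map fun q => nv c (u2 c) q.1 ++ q.2)
      (fun z y => axpy c (u3 c) (ng c (y.getD 0 0)) (PG.lamP c l s t cs (z.drop (u2 c).length))
        (dif c y.tail y.tail z)) (trL c s)) ↔ ThK (lab n l) (sdD p n s) t K (tv p cs) θ := by
  rw [mem_preAll h.hp h.d3 h.d3.pl' _ (fun z => QAnnx.tf (mV p n z) (lam (lab n l)
      (CL (sdD p n s)) t (tv p cs) (fV p n (z.drop (u2 c).length)))) (fun z _ y => by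
      rw [dv_axpy h.hp h.d3, cast_ng h.hp, QAnnx.tf_apply, dv_pl, neg_smul, neg_add_eq_sub]
      exact congrArg₂ _ (h.dif _ _ _) (congrArg _ (lam_eq h l s t cs _))),
    mem_sp_one_cons, h.wtP, h.trL hs, ThK]
  refine and_congr_right fun _ => ?_
  simp only [QAnnx.tf_apply, one_smul, List.forall_mem_map, List.drop_left' (length_nv ..), mV,
    dv_append_left h.d2 _ (length_nv ..).ge, dv_nv h.hp h.d2]
  refine ⟨fun G z w hw => ?_, fun G q hq => G _ _ ((hK _ _).2 (gen ⟨q, hq, rfl⟩))⟩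
  replace hw := (hK _ _).1 hw
  induction hw with
  | one => simp [pull1_one]
  | @mul z w y v a b ih =>
    have hy := (H.mem _ _ ((hK _ _).2 (gen b))).1
    have hw := (H.mem _ _ ((hK _ _).2 a)).2
    obtain ⟨q, hq, e⟩ := b
    obtain ⟨rfl, rfl⟩ := Prod.mk.inj e
    have k := add_mem (pull1_mem_Tr hy.1 hy.2.1 ih) (G q hq)
    rw [map_add, lam_pull m hs _ hy.1 hw, pull1_mul]
    rw [map_sub, map_sub] at k
    convert k using 1
    abel

end QE23y

theorem s_QE23 (p n : ℕ) [Fact p.Prime] (m : PM p n) : S_QE23 p n := by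
  intro c l s t K SL h hs H e
  refine ⟨fun w0 h0 => ?_, fun x hx => (QE23y.mem_ann h hs e _).1 (mem_sp hx), fun v hv => ?_,
    fun PL cs hK => ⟨fun θ e' => (QE23y.key' h m hs H hK cs _).1 (aff_some h.hp h.d3 e'),
      fun ⟨θ, hθ⟩ => (aff_isSome h.hp h.d3 _).2 ⟨θ, (QE23y.key' h m hs H hK cs θ).2 hθ⟩⟩⟩
  · have e1 : sp (pl (frm p n)) (shK w0 SL) = ShK (lab n l) (sdD p n s).B K := by
      ext y
      rw [shK, mem_sp_aff, H.mem_sh h0, e]
    constructor
    · rw [e2P, sp_map (δ := pl (frm p n)) (cn ((colP c s).map (mV p n))) fun y _ => h.cnP s y,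
        e1, h.colP hs, E2]
    · rw [e3P, uT, (preim_bas h.hp h.d3.pl' (h.dt (uK c s)) (tn ((colP c s).map (mV p n)))
        (fun y _ => h.tnP s y) _).sp, h.ambP, e1, E3, ← h.colP hs, List.length_map]
  · have k := (QE23y.mem_ann h hs e v).2 hv
    have e1 : sp (cf p (uN c s).length) (annK c l s t SL) =
        (Submodule.span (ZMod p) {y | ∃ x ∈ annK c l s t SL, tv p x = y}).map
          (cf p (uN c s).length) := by
      rw [sp_eq_span, Submodule.map_span]
      refine congrArg _ (Set.ext fun y => ⟨?_, ?_⟩)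
      · rintro ⟨x, hx, rfl⟩
        exact ⟨_, ⟨x, hx, rfl⟩, rfl⟩
      · rintro ⟨_, ⟨x, hx, rfl⟩, rfl⟩
        exact ⟨x, hx, rfl⟩
    rw [e1] at k
    obtain ⟨v', hv', e'⟩ := k
    refine ⟨v', hv', fun x hx => ?_⟩
    exact (((dec_cf _).eq_iff.1 e') x (by rw [QE23y.len h]; exact hx)).symm

end Pool.Agent.P.MP_f1a348_lc.UP.CU
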