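import Pool.Agent.P.MP_f1a348_lc.CU.PIf

/-!
Project CU: the small blocks, the ideals of blocks and the binary tree are computed correctly.
-/

namespace Pool.Agent.P.MP_f1a348_lc.UP.CU

open Matrix Module Pool.Agent.P.MP_f1a348_lc.PG
open scoped commutatorElement

namespace QMIz

theorem dy_le : ∀ (h : ℕ) (r : ℕ × ℕ), r ∈ dy h → r.1 ≤ h
  | 0, r, hr => by
    rw [dy, List.mem_singleton] at hr
    rw [hr]
  | h + 1, r, hr => by
    simp only [dy, up, List.mem_cons, List.mem_append, List.mem_map] at hr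
    rcases hr with rfl | ⟨s, hs, rfl⟩ | ⟨s, hs, rfl⟩
    · exact Nat.zero_le _
    · exact Nat.succ_le_succ (dy_le h s hs)
    · exact Nat.succ_le_succ (dy_le h s hs)

theorem dy_len (h : ℕ) : (dy h).length + 1 = 2 ^ (h + 1) := by
  induction h with
  | zero => rfl
  | succ h ih =>
    rw [dy, List.length_cons, List.length_append, up, List.length_map, List.length_map,
      pow_succ 2 (h + 1)]
    omega

theorem dy_fold (c : Cx) (L : List Bool) : ∀ k, k + L.length ≤ mM c →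
    L.foldl (fun D _ => (0, 0) :: (up D ++ D.map fun r => (r.1 + 1, r.2 + p2 c r.1))) (dy k) =
      dy (k + L.length) := by
  induction L with
  | nil => exact fun _ _ => rfl
  | cons a L ih =>
    intro k hk
    rw [List.length_cons] at hk
    have e : (dy k).map (fun r => (r.1 + 1, r.2 + p2 c r.1)) =
        (dy k).map fun r => (r.1 + 1, r.2 + 2 ^ r.1) := List.map_congr_left fun r hr => by
      rw [p2, min_eq_left ((dy_le k r hr).trans (by omega))]
    rw [List.foldl_cons, e, List.length_cons, show k + (L.length + 1) = k + 1 + L.length by omega,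
      ← ih (k + 1) (by omega)]
    rfl

theorem dy_bd (m : ℕ) (hm : 0 < m) : (dy (Nat.size m)).length ≤ 4 * m := by
  have h1 := dy_len (Nat.size m)
  obtain ⟨k, hk⟩ : ∃ k, Nat.size m = k + 1 :=
    Nat.exists_eq_succ_of_ne_zero (Nat.size_pos.2 hm).ne'
  have h2 : 2 ^ k ≤ m := Nat.lt_size.1 (by omega)
  rw [hk] at h1 ⊢
  rw [pow_succ, pow_succ] at h1
  omega

variable {p n : ℕ} [Fact p.Prime] {c : Cx}

theorem sml_congr {ℓ : Ix n → ℕ} {B : Sub p n} {a b : Ix n} (e : ℓ a = ℓ b) (h : a ∈ Sml ℓ B) :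
    b ∈ Sml ℓ B := by
  obtain ⟨h1, h2⟩ := h
  exact ⟨fun k => h1 ((Triv_congr e).2 k), by rwa [← nb_congr e, ← eb_congr e]⟩

theorem cols {ℓ : Ix n → ℕ} {S : Set (Ix n)} (hS : ∀ a b, ℓ a = ℓ b → a ∈ S → b ∈ S)
    (z : Mat p n) : (∀ α ∈ S, ∀ β, gr ℓ z β α = (1 : Mat p n) β α) ↔
      ∀ α ∈ S, pr ℓ α * z * pr ℓ α = pr ℓ α := by
  constructor
  · intro k α hα
    ext β γ
    rw [mul_pr_apply, pr_mul_apply, pr, Matrix.diagonal_apply]
    by_cases e : ℓ γ = ℓ α
    · have := k γ (hS _ _ e.symm hα) β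
      rw [gr_apply, Matrix.one_apply, e] at this
      rw [if_pos e, this]
      by_cases e' : β = γ
      · rw [if_pos e', if_pos e', if_pos (e' ▸ e)]
      · rw [if_neg e', if_neg e']
    · rw [if_neg e]
      by_cases e' : β = γ
      · rw [if_pos e', if_neg (e' ▸ e)]
      · rw [if_neg e']
  · intro k α hα β
    have := congrFun (congrFun (k α hα) β) α
    rw [mul_pr_apply, pr_mul_apply, if_pos rfl, pr, Matrix.diagonal_apply] at this
    rw [gr_apply, this, Matrix.one_apply]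
    by_cases e' : β = α
    · rw [if_pos e', if_pos e', if_pos (by rw [e'])]
    · rw [if_neg e', if_neg e']

theorem anyI (l : V) {I : List ℕ} (hI : ∀ i ∈ I, i < 2 * n + 1) (γ : Ix n) :
    I.any (same l γ.val) = true ↔ ∃ α : Ix n, α.val ∈ I ∧ lab n l γ = lab n l α := by
  rw [List.any_eq_true]
  exact ⟨fun ⟨i, hi, e⟩ => ⟨⟨i, hI i hi⟩, hi, (same_iff l γ ⟨i, hI i hi⟩).1 e⟩,
    fun ⟨α, hα, e⟩ => ⟨_, hα, (same_iff l γ α).2 e⟩⟩

theorem mi (h : UP.Ok p n c) (R : List V) (x : Lt) {f : GG p n} (hf : mV p n x.2.1 = f.1)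
    {I : List ℕ} (hI : ∀ i ∈ I, i < 2 * n + 1) :
    sp (mat p n) (miP c R x I) = MI (sp (mat p n) R) f (lab n x.1) {α | α.val ∈ I} := by
  ext y
  rw [miP, mem_preim h.hp h.d2 h.d2 (LinearMap.mulRight (ZMod p)
    (mV p n (diagP c fun j => I.any (same x.1 j))) ∘ₗ gr (lab n x.1) ∘ₗ fr f) (fun z _ => by
      show mV p n _ = _
      rw [h.mmul, h.grP, h.frP hf]; rfl), sp_nil, Submodule.mem_bot]
  refine and_congr_right fun _ => ?_
  show gr (lab n x.1) (fr f y) * _ = 0 ↔ _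
  rw [h.diagP]
  constructor
  · intro k α hα β γ h1 h2
    have := congrFun (congrFun k β) γ
    rwa [Matrix.mul_diagonal, if_pos ((anyI x.1 hI γ).2 ⟨α, hα, h2⟩), mul_one, gr_apply,
      if_pos (h1.trans h2.symm)] at this
  · intro k
    ext β γ
    rw [Matrix.mul_diagonal, gr_apply, Matrix.zero_apply]
    split_ifs with h1 h2
    · obtain ⟨α, hα, e⟩ := (anyI x.1 hI γ).1 h2
      rw [k α hα β γ (h1.trans e) e, zero_mul]
    all_goals simp

theorem allI (I J : List V) (F : Mat p n →ₗ[ZMod p] Mat p n) :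
    (∀ y ∈ J, F (mV p n y) ∈ sp (mat p n) I) ↔ ∀ y ∈ sp (mat p n) J, F y ∈ sp (mat p n) I :=
  (sp_le (δ := mat p n) (W := (sp (mat p n) I).comap F)).symm

theorem nm (h : UP.Ok p n c) (I : List V) {x : V} {g : GG p n} (e : mV p n x = g.1) :
    nmT c I x = true ↔ ∀ y ∈ sp (mat p n) I, cj g.1 y ∈ sp (mat p n) I := by
  rw [← allI, nmT, List.all_eq_true]
  refine forall₂_congr fun y _ => ?_
  rw [mem_iff h.hp h.d2, ← e, ← h.cjP]

theorem cen (h : UP.Ok p n c) (R I : List V) {x : V} {g : GG p n} (e : mV p n x = g.1) :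
    cenT c R I x = true ↔ g ∈ CenQ (sp (mat p n) R) (sp (mat p n) I) := by
  rw [cenT, Bool.and_eq_true, nm h I e, mem_CenQ]
  refine and_congr_right fun _ => ?_
  refine Iff.trans ?_ (allI I R (cj g.1 - LinearMap.id))
  rw [List.all_eq_true]
  refine forall₂_congr fun y _ => ?_
  rw [mem_iff h.hp h.d2, dv_vsub h.hp h.d2, LinearMap.sub_apply, ← e, ← h.cjP]
  rfl

end QMIz

theorem s_QMI (p n : ℕ) [Fact p.Prime] (b : TB p n) (hQFIX : S_QFIX p n) : S_QMI p n := by
  intro c R x f h hR hx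
  have hl := hx.cf.lab
  have hS : Str (lab n x.1) (sp (mat p n) x.2.2) :=
    hx.eq ▸ ((b.rad _ f _ hR hl hx.cf.tri).2.2 hx.cf).1
  have hG := h.sdB hS
  have h1 : ∀ i ∈ smlP c x, i < 2 * n + 1 := fun i hi =>
    h.len1 ▸ mem_ran.1 (List.mem_filter.1 hi).1
  have h2 : ∀ α : Ix n, α.val ∈ smlP c x ↔
      α ∈ Sml (lab n x.1) (gB (sp (mat p n) R) f (lab n x.1)) := fun α => by
    rw [smlP, smlQ, List.mem_filter, mem_ran, h.len1, Bool.and_eq_true, Bool.not_eq_true',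
      ← Bool.not_eq_true, h.trivP hG, Nat.ble_eq, h.nbP, QSidey.len h hG, h.hM, hx.eq, ← sq,
      and_iff_right α.2]
    rfl
  have hs : Nat.size (2 * n + 1) ≤ 2 * n + 1 := Nat.size_le.2 Nat.lt_two_pow_self
  refine ⟨h1, h2, fun I hI => QMIz.mi h R x hx.val hI, fun I =>
    ⟨fun y g _ e => QMIz.nm h I e, fun y g _ e => QMIz.cen h R I e⟩, ?_, ?_,
    QMIz.dy_bd _ (by omega), fun Z hZ => ?_⟩
  · have := QMIz.dy_fold c (mM c).bits 0 (by rw [Nat.size_eq_bits_len, h.hM]; omega)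
    rw [zero_add, Nat.size_eq_bits_len] at this
    rw [← h.hM, ← this]
    rfl
  · rw [hP, Nat.size_eq_bits_len, h.hM]
  · have ht : ∀ g ∈ gS p n Z, Tri (lab n x.1) (fr f g.1) := fun g hg =>
      hx.cf.tri _ (hZ ((b.env.1 _).2.1 g hg))
    have hH : Hom (fun g => grP c x.1 (frP c x.2.1 g)) (gS p n Z)
        fun g => gr (lab n x.1) (fr f g.1) :=
      ⟨fun y g _ e => by rw [h.grP, h.frP hx.val, e],
        by rw [val_one, (b.env.2.1 f 1 1).2.2.1, gr_one],
        fun g hg k hk => by rw [val_mul, (b.env.2.1 f _ _).1, gr_mul (ht g hg) (ht k hk)]⟩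
    ext g
    rw [((hQFIX c Z h).1 _ _ hH).1 _ h1, Subgroup.mem_inf, mem_KB]
    refine and_congr_right fun hg => ?_
    simp only [h2]
    rw [QMIz.cols fun _ _ => QMIz.sml_congr]
    refine forall₂_congr fun α _ => ?_
    have k := b.sec.1 f _ α hl
    exact (k.2.2.2.2.2.2.1 g (k.2.2.2.2.1 _ (ht g hg)).1 (k.2.2.2.2.1 _ (ht g hg)).2).symm

end Pool.Agent.P.MP_f1a348_lc.UP.CU
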