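import Pool.Agent.P.MP_f1a348_lc.CU.ORef

/-! The program computes the potential. -/

namespace Pool.Agent.P.MP_f1a348_lc.UP.CU

open Matrix Module Pool.Agent.P.MP_f1a348_lc.PG

namespace QPOTy

theorem sc_eq (μ : V) (k : ℕ) : scP μ k = sc (muD μ) k := by
  simp only [scP, sc, muD, Fin.sum_univ_three, Bool.cond_eq_ite, Nat.blt_eq]
  rfl

theorem phi {p n : ℕ} [Fact p.Prime] {c : Cx} (h : Ok p n c) (μ : V) {l : V} {s : Sd}
    (hs : Gd p n l s) : phiSP c μ l s = PhiS (muD μ) (lab n l) (sdD p n s).B := by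
  rw [phiSP, sm_eq, h.len1, sum_range_ix, PhiS]
  refine Finset.sum_congr rfl fun α _ => ?_
  have e : (l.getD α.val 0 == α.val && !trivP c s α.val && (ran (u1 c)).all
      (fun b => Nat.ble (l.getD α.val 0) (l.getD b 0) || (csg c s α.val b).isEmpty)) = true ↔
      PG.Rep (lab n l) (sdD p n s).B α ∧ ¬ Triv (lab n l) (sdD p n s).B α := by
    rw [Bool.and_eq_true, Bool.and_eq_true, Bool.not_eq_true', ← Bool.not_eq_true, h.trivP hs,
      QSidey.all1 h, PG.Rep, First, and_right_comm, beq_iff_eq]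
    refine and_congr_left fun _ => and_congr_right fun _ => forall_congr' fun β => ?_
    rw [Bool.or_eq_true, Nat.ble_eq, QSidey.emp h hs, imp_iff_not_or, not_lt]
    rfl
  rw [Bool.cond_eq_ite, h.nbP, QSidey.len h hs, sc_eq, eb]
  by_cases t : PG.Rep (lab n l) (sdD p n s).B α ∧ ¬ Triv (lab n l) (sdD p n s).B α
  · rw [if_pos t, if_pos (e.2 t)]
  · rw [if_neg t, if_neg (mt e.1 t)]

end QPOTy

theorem s_QPOT (p n : ℕ) [Fact p.Prime] (m : PM p n) (hPHI : S_PHI p n) : S_QPOT p n := by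
  refine fun c μ l h => ⟨fun s hs => QPOTy.phi h μ hs, fun A hl hA => ?_⟩
  obtain ⟨h1, h2⟩ := h.rf1C m hl hA
  rw [(hPHI _).1 _ _ _ _ _ hl hA h1 h2.sim]
  exact QPOTy.phi h μ (h.sdB h2)

end Pool.Agent.P.MP_f1a348_lc.UP.CU
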