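import Pool.Agent.P.MP_f1a348_lc.UP.PIf
import Pool.Agent.P.MP_f1a348_lc.CU.Defs
import Pool.Agent.P.MP_f1a348_lc.CU.ORef

/-!
Project CU, task QTRN: transport along the section of a pointer.
-/

namespace Pool.Agent.P.MP_f1a348_lc.UP.CU

open Matrix Module Pool.Agent.P.MP_f1a348_lc.PG
open scoped commutatorElement

theorem s_QTRN (p n : ℕ) [Fact p.Prime] (b : TB p n) (hQFIX : S_QFIX p n) : S_QTRN p n := by
  intro c π A Z h hA hZ hL
  set f := gD p n π.2.1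
  set l := labD n π.2.2.1
  set a := ixD n π.2.2.2.1
  have hl : Lab l := lab_labD _
  have hr := (b.rb f l a hl).2.2.1
  set D : SG p n := Stb (sL f l a) ⊓ Stb (sH f l a)
  let σ : GG p n → Mat p n := fun g => loc f l {β | l β = l a} g.1
  have h1 : σ 1 = 1 := (hr 1 (one_mem _)).1.1 (one_mem _)
  have hm : Hom (secP c π) D σ :=
    ⟨fun x g _ e => (h.secP π x).trans (by rw [e]), h1, fun g hg k hk => (hr g hg).2 k hk⟩
  have hK : ∀ g ∈ D, ∀ x ∈ D, g⁻¹ * x ∈ KS f l a ↔ σ x = σ g := fun g hg x hx => by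
    have e := hm.mul g hg _ (mul_mem (inv_mem hg) hx)
    have e' := hm.mul _ (inv_mem hg) x hx
    have e'' := hm.mul _ (inv_mem hg) g hg
    rw [mul_inv_cancel_left] at e
    rw [inv_mul_cancel, h1] at e''
    rw [(hr _ (mul_mem (inv_mem hg) hx)).1]
    exact ⟨fun k => by rw [e, show σ (g⁻¹ * x) = 1 from k, mul_one],
      fun k => by rw [show loc f l _ (g⁻¹ * x).1 = _ from e', k, e'']⟩
  have hA' : gS p n A ≤ D := hA
  have hZ' : gS p n Z ≤ D := hZ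
  have hw : ∀ g ∈ Z, mV p n (secP c π (nrm c g)) = σ (gD p n g) := fun g hg =>
    hm.val _ _ (hZ' (mem_gS hg)) (h.nrm g)
  obtain ⟨Y, z1, z2, z3, z4⟩ := ((hQFIX c A h).1 _ _ (hm.mono hA')).2.2.2
    (Z.map fun g => secP c π (nrm c g)) fun w hw' => by
      obtain ⟨g, hg, rfl⟩ := List.mem_map.1 hw'
      obtain ⟨x, hx, k⟩ := hL _ (mem_gS hg)
      exact ⟨x, hx, ((hK _ (hZ' (mem_gS hg)) x (hA' hx)).1 k).trans (hw g hg).symm⟩
  rw [trn, ← z1]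
  refine (b.kl _ D (KS f l a) _ _ (b.sec.2.2.2.1 _ _) hA' hZ').2.1 Y _ rfl (fun y hy => ?_)
    (fun g hg => z3 g hg.1 ((hr g (hA' hg.1)).1.1 hg.2)) ?_
  · obtain ⟨k1, e | ⟨w, hw', e⟩⟩ := z2 y hy
    · exact ⟨k1, 1, one_mem _, (hK _ (one_mem _) y (hA' k1)).2 (e.trans h1.symm)⟩
    · obtain ⟨g, hg, rfl⟩ := List.mem_map.1 hw'
      exact ⟨k1, _, mem_gS hg, (hK _ (hZ' (mem_gS hg)) y (hA' k1)).2 (e.trans (hw g hg))⟩
  · rintro _ ⟨g, hg, rfl⟩
    obtain ⟨y, hy, e⟩ := z4 _ (List.mem_map_of_mem hg)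
    exact ⟨y, Subgroup.subset_closure hy,
      (hK _ (hZ' (mem_gS hg)) y (hA' (z2 y hy).1)).2 (e.trans (hw g hg))⟩

end Pool.Agent.P.MP_f1a348_lc.UP.CU
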