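import Pool.Agent.P.MP_f1a348_lc.CU.EDefs
import Pool.Agent.P.MP_f1a348_lc.CF.TPLP4

/-!
Project CU: the relation of a pin.
-/

namespace Pool.Agent.P.MP_f1a348_lc.UP.CU

open Matrix Module Pool.Agent.P.MP_f1a348_lc.PG
open Pool.Agent.P.MP_f1a348_lc.CF

namespace R4y

open PLP4x

variable {p n : ℕ} {ℓ : Ix n → ℕ} {s : Side p n} {a : Fin 3 → Ix n} {θ : Frm p n}

theorem mem_R4 {q y : HH p n} : y ∈ R4 ℓ s a θ q ↔ ∃ k : Vec p n, y.1 ∈ Vb ℓ (a 1) ∧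
    (hat ℓ s a θ q (y.1, k)).2 = 0 ∧ (hat ℓ s a θ q (y.1, k)).1 = y.2 := by
  constructor
  · rintro ⟨x, hx, rfl⟩
    exact ⟨x.2, hx.1.1, hx.2, rfl⟩
  · rintro ⟨k, h1, h2, h3⟩
    exact ⟨(y.1, k), ⟨⟨h1, trivial⟩, h2⟩, Prod.ext rfl h3⟩

theorem getD_cb (h : Good ℓ s) (b c : Ix n) (i : ℕ) :
    (Cso ℓ s b c).getD i 0 ∈ Cb ℓ s.B b c := by
  unfold Cso
  split_ifs
  · simp
  · exact h.sp b c ▸ getD_mem_spL (p := p) (s.Cs b c) i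

theorem hat_pr (h : Good ℓ s) (hθ : θ ∈ Wt ℓ (key ℓ a)) (q : HH p n) (x k : Vec p n) :
    hat ℓ s a θ q (pr ℓ (a 1) *ᵥ x, k) = hat ℓ s a θ q (x, k) := by
  refine Prod.ext ?_ (funext fun i => ?_)
  · rw [hat_fst, hat_fst, au_pr h.str.lab hθ, Matrix.mulVec_mulVec, cb_right (h.cmb_mem _ _ _).1]
  · rw [hat_snd, hat_snd, ip_pr' h.str.lab (cb_mulVec_mem (getD_cb h _ _ _) _)]

theorem au_sub (u v y : Vec p n) : au θ (u - v) y = au θ u y - au θ v y := by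
  funext α
  simp only [au, Pi.sub_apply, ← Finset.sum_sub_distrib]
  exact Finset.sum_congr rfl fun i _ => by split_ifs <;> ring

variable [Fact p.Prime]

theorem orb_le (h : Good ℓ s) (b c : Ix n) (u : Vec p n) :
    finrank (ZMod p) (orb (Cb ℓ s.B b c) u) ≤ eb ℓ s.B c :=
  (Submodule.finrank_map_le _ _).trans (finrank_cb_le h.str _ _)

theorem snd_le' (h : Good ℓ s) (q : HH p n) :
    finrank (ZMod p) ((LinearMap.range (hat ℓ s a θ q)).map (LinearMap.snd _ _ _)) ≤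
      eb ℓ s.B (a 0) :=
  (snd_le s a θ q).trans ((h.length_cso _ _).trans (finrank_cb_le h.str _ _))

theorem exists_compl {Y V : VS p n} (e : Y ≤ V) :
    ∃ W : VS p n, Y ⊔ W = V ∧ finrank (ZMod p) Y + finrank (ZMod p) W = finrank (ZMod p) V := by
  obtain ⟨W, hW⟩ := Y.exists_isCompl
  have h1 : Y ⊔ W ⊓ V = V := by rw [← sup_inf_assoc_of_le _ e, hW.sup_eq_top, top_inf_eq]
  have h2 : Y ⊓ (W ⊓ V) = ⊥ := by rw [← inf_assoc, hW.inf_eq_bot, bot_inf_eq]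
  have h3 := Submodule.finrank_sup_add_finrank_inf_eq Y (W ⊓ V)
  rw [h1, h2, finrank_bot, add_zero] at h3
  exact ⟨W ⊓ V, h1, h3.symm⟩

theorem part8 (h : Good ℓ s) (hθ : θ ∈ Wt ℓ (key ℓ a)) {u v : Vec p n} (hu : u ∈ Vb ℓ (a 0))
    (hv : v ∈ Vb ℓ (a 0)) (Y T : VS p n) (g : ℕ) (hg : nb ℓ (a 1) ≤ finrank (ZMod p) Y + g)
    (H : ∀ z ∈ Y, ∃ y y', (z, y) ∈ R4 ℓ s a θ (u, 0) ∧ (z, y') ∈ R4 ℓ s a θ (v, 0) ∧ y - y' ∈ T) :
    (u - v, 0) ∈ Low ℓ s a θ (g + finrank (ZMod p) T + 2 * eb ℓ s.B (a 0)) := by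
  refine ⟨⟨sub_mem hu hv, fun _ _ => rfl⟩, ?_⟩
  have hY : Y ≤ Vb ℓ (a 1) := fun z hz => by
    obtain ⟨y, -, h1, -⟩ := H z hz
    obtain ⟨k, h2, -⟩ := mem_R4.1 h1
    exact h2
  obtain ⟨W, hW, hd⟩ := exists_compl hY
  rw [finrank_Vb] at hd
  set S : VS p n := T ⊔ orb (Cb ℓ s.B (a 2).rev (a 0)) u ⊔ orb (Cb ℓ s.B (a 2).rev (a 0)) v
    with hS
  have h1 : LinearMap.range (hat ℓ s a θ (u - v, 0)) ≤ S.map (LinearMap.inl _ _ _) ⊔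
      W.map (hat ℓ s a θ (u - v, 0) ∘ₗ LinearMap.inl _ _ _) := by
    rintro _ ⟨⟨x, k⟩, rfl⟩
    obtain ⟨z, hz, w, hw, e⟩ := Submodule.mem_sup.1 (hW.ge (pr_mulVec_mem (a 1) x))
    have e1 : ((z + w, k) : HH p n) = (z, k) + (w, 0) := by simp
    rw [← hat_pr h hθ, ← e, e1, map_add]
    refine Submodule.add_mem_sup ?_ ⟨w, hw, rfl⟩
    obtain ⟨y, y', h1, h2, h3⟩ := H z hz
    obtain ⟨k1, -, a1, b1⟩ := mem_R4.1 h1
    obtain ⟨k2, -, a2, b2⟩ := mem_R4.1 h2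
    refine ⟨(hat ℓ s a θ (u - v, 0) (z, k)).1, ?_, Prod.ext rfl (funext fun i => ?_)⟩
    · simp only [hat_fst, cmb_zero, Matrix.zero_mulVec, add_zero] at b1 b2 ⊢
      have c1 : (cmb (Cso ℓ s (a 2).rev (a 0)) k - cmb (Cso ℓ s (a 2).rev (a 0)) k1) *ᵥ u ∈
          orb (Cb ℓ s.B (a 2).rev (a 0)) u :=
        mem_orb.2 ⟨_, sub_mem (h.cmb_mem _ _ _).1 (h.cmb_mem _ _ _).1, rfl⟩
      have c2 : (cmb (Cso ℓ s (a 2).rev (a 0)) k2 - cmb (Cso ℓ s (a 2).rev (a 0)) k) *ᵥ v ∈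
          orb (Cb ℓ s.B (a 2).rev (a 0)) v :=
        mem_orb.2 ⟨_, sub_mem (h.cmb_mem _ _ _).1 (h.cmb_mem _ _ _).1, rfl⟩
      have c3 := Submodule.add_mem_sup (Submodule.add_mem_sup h3 c1) c2
      refine (congrArg (· ∈ S) ?_).mp c3
      rw [← b1, ← b2, au_sub, Matrix.sub_mulVec, Matrix.sub_mulVec, Matrix.mulVec_sub]
      abel
    · have c1 := congrFun a1 i
      have c2 := congrFun a2 i
      rw [hat_snd] at c1 c2 ⊢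
      simp only [Pi.zero_apply] at c1 c2
      change (0 : ZMod p) = _
      rw [Matrix.mulVec_sub, sub_eq_add_neg, ip_add_left, c1, ← neg_one_smul (ZMod p),
        ip_smul_left, c2, mul_zero, add_zero]
  have h2 := (Submodule.finrank_mono h1).trans (Submodule.finrank_add_le_finrank_add_finrank _ _)
  have h3 := Submodule.finrank_map_le (LinearMap.inl (ZMod p) (Vec p n) (Vec p n)) S
  have h4 := Submodule.finrank_map_le (hat ℓ s a θ (u - v, 0) ∘ₗ LinearMap.inl _ _ _) W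
  have h5 := Submodule.finrank_add_le_finrank_add_finrank
    (T ⊔ orb (Cb ℓ s.B (a 2).rev (a 0)) u) (orb (Cb ℓ s.B (a 2).rev (a 0)) v)
  have h6 := Submodule.finrank_add_le_finrank_add_finrank T (orb (Cb ℓ s.B (a 2).rev (a 0)) u)
  have h7 := orb_le h (a 2).rev (a 0) u
  have h8 := orb_le h (a 2).rev (a 0) v
  rw [← hS] at h5
  refine h2.trans ((add_le_add h3 h4).trans ?_)
  omega

theorem part6 (h : Good ℓ s) (hθ : θ ∈ Wt ℓ (key ℓ a)) (ha1 : ¬ Triv ℓ s.B (a 1)) {u : Vec p n}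
    (hu : u ∈ Vb ℓ (a 0)) {C : Mat p n} (hC : C ∈ Cb ℓ s.B (a 2).rev (a 1)) :
    ∃ q ∈ Low ℓ s a θ (finrank (ZMod p) ((R4 ℓ s a θ (u, 0)).map
      (LinearMap.snd _ _ _ - C.mulVecLin ∘ₗ LinearMap.fst _ _ _)) + eb ℓ s.B (a 0)), q.1 = u := by
  have hCs : -C ∈ (spL (Cso ℓ s (a 2).rev (a 1)) : Sub p n) := by
    rw [h.spL_cso]
    exact neg_mem ⟨hC, co_of_cb hC ha1⟩
  obtain ⟨κ, hκ, eκ⟩ := exists_cmb (h.length_cso_le _ _) hCs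
  refine ⟨(u, κ), ⟨⟨hu, hκ⟩, ?_⟩, rfl⟩
  have hker : LinearMap.range (hat ℓ s a θ (u, κ)) ⊓ LinearMap.ker (LinearMap.snd _ _ _) ≤
      ((R4 ℓ s a θ (u, 0)).map (LinearMap.snd _ _ _ - C.mulVecLin ∘ₗ LinearMap.fst _ _ _)).map
        (LinearMap.inl _ _ _) := by
    rintro _ ⟨⟨⟨x, k⟩, rfl⟩, h0⟩
    rw [← hat_pr h hθ] at h0 ⊢
    have h1 : (hat ℓ s a θ (u, κ) (pr ℓ (a 1) *ᵥ x, k)).2 = 0 := h0
    refine ⟨_, ⟨_, ⟨(pr ℓ (a 1) *ᵥ x, k), ⟨⟨pr_mulVec_mem _ _, trivial⟩, h1⟩, rfl⟩, rfl⟩, ?_⟩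
    refine Prod.ext ?_ h1.symm
    change (hat ℓ s a θ (u, 0) (pr ℓ (a 1) *ᵥ x, k)).1 - C *ᵥ (pr ℓ (a 1) *ᵥ x) = _
    rw [hat_fst, hat_fst, eκ, cmb_zero, Matrix.zero_mulVec, Matrix.neg_mulVec]
    abel
  have h3 := (Submodule.finrank_mono hker).trans (Submodule.finrank_map_le _ _)
  rw [rk_split (LinearMap.snd _ _ _), add_comm]
  exact add_le_add h3 (snd_le' h _)

end R4y

open PLP4x R4y in
theorem s_R4 (p n : ℕ) [Fact p.Prime] (m : PM p n) : S_R4 p n := by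
  intro ℓ s a θ u h hθ ha1 hu
  have hl := h.str.lab
  have hD4 : D4 ℓ s a θ (u, 0) = (R4 ℓ s a θ (u, 0)).map t2 := Submodule.map_comp _ _ _
  refine ⟨hD4, ?_, ?_, ?_, ?_, fun C hC => part6 h hθ ha1 hu hC, ?_,
    fun v hv Y T g hg H => part8 h hθ hu hv Y T g hg H⟩
  · intro y hy
    obtain ⟨k, h1, -, h2⟩ := mem_R4.1 hy
    refine ⟨h1, ?_⟩
    rw [← h2, hat_fst]
    exact add_mem (add_mem (au_mem hl hθ _ _) (cb_mulVec_mem (h.cmb_mem _ _ _).1 _))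
      (cb_mulVec_mem (h.cmb_mem _ _ _).1 _)
  · intro b hb y hy
    have h1 := hb.2.1 (t2 y) (hD4 ▸ Submodule.mem_map_of_mem hy)
    rw [act_t2, hD4] at h1
    obtain ⟨z, hz, e⟩ := h1
    exact t2_inj e ▸ hz
  · set f : Vec p n →ₗ[ZMod p] Vec p n :=
      LinearMap.snd _ _ _ ∘ₗ hat ℓ s a θ (u, 0) ∘ₗ LinearMap.inl _ _ _ with hf
    have h1 : (Vb ℓ (a 1)).map f ≤
        (LinearMap.range (hat ℓ s a θ (u, 0))).map (LinearMap.snd _ _ _) := by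
      rintro _ ⟨x, -, rfl⟩
      exact ⟨_, ⟨(x, 0), rfl⟩, rfl⟩
    have h2 : Vb ℓ (a 1) ⊓ LinearMap.ker f ≤ (R4 ℓ s a θ (u, 0)).map (LinearMap.fst _ _ _) :=
      fun x hx => ⟨(x, (hat ℓ s a θ (u, 0) (x, 0)).1), mem_R4.2 ⟨0, hx.1, hx.2, rfl⟩, rfl⟩
    rw [← finrank_Vb (p := p), rk_split f, add_comm]
    exact add_le_add (Submodule.finrank_mono h2) ((Submodule.finrank_mono h1).trans (snd_le' h _))
  · have h1 : (R4 ℓ s a θ (u, 0)).comap (LinearMap.inr _ _ _) ≤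
        orb (Cb ℓ s.B (a 2).rev (a 0)) u := by
      intro v hv
      obtain ⟨k, -, -, e2⟩ := mem_R4.1 hv
      have e3 : au θ u 0 = 0 := by funext α; simp [au]
      simp only [hat_fst, LinearMap.inr_apply, e3, Matrix.mulVec_zero, zero_add] at e2
      exact mem_orb.2 ⟨_, (h.cmb_mem _ _ _).1, e2⟩
    exact (Submodule.finrank_mono h1).trans (orb_le h _ _ _)
  · rintro r ⟨u', κ⟩ hq rfl
    refine ⟨-cmb (Cso ℓ s (a 2).rev (a 1)) κ, neg_mem (h.cmb_mem _ _ _).1, ?_⟩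
    have h1 : (R4 ℓ s a θ (u', 0)).map (LinearMap.snd _ _ _ -
        (-cmb (Cso ℓ s (a 2).rev (a 1)) κ).mulVecLin ∘ₗ LinearMap.fst _ _ _) ≤
        (LinearMap.range (hat ℓ s a θ (u', κ))).map (LinearMap.fst _ _ _) := by
      rintro _ ⟨y, hy, rfl⟩
      obtain ⟨k, -, -, e⟩ := mem_R4.1 hy
      refine ⟨_, ⟨(y.1, k), rfl⟩, ?_⟩
      change (hat ℓ s a θ (u', κ) (y.1, k)).1 = y.2 - (-cmb (Cso ℓ s (a 2).rev (a 1)) κ) *ᵥ y.1
      rw [← e, hat_fst, hat_fst, cmb_zero, Matrix.zero_mulVec, Matrix.neg_mulVec]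
      abel
    exact (Submodule.finrank_mono h1).trans ((Submodule.finrank_map_le _ _).trans hq.2)

end Pool.Agent.P.MP_f1a348_lc.UP.CU
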