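import Pool.Agent.P.MP_f1a348_lc.CU.EDefs
import Pool.Agent.P.MP_f1a348_lc.CF.TPLP1

/-! Project CU, task SEM0: perfect stabilisers keep the graph of the slice. -/

namespace Pool.Agent.P.MP_f1a348_lc.UP.CU

open Matrix Module Pool.Agent.P.MP_f1a348_lc.PG
open Pool.Agent.P.MP_f1a348_lc.CF

namespace SEM0y

variable {p n : ℕ}

theorem au_pull (z : Mat p n) (τ : Frm p n) (u x : Vec p n) :
    au (pull1 z τ) u x = st z *ᵥ au τ (z *ᵥ u) (z *ᵥ x) := ip_ext fun w => by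
  rw [ip_au, ev_pull1, ← ip_mulVec_right, ip_au]
  congr 1
  funext j
  fin_cases j <;> rfl

end SEM0y

open SEM0y PLP1x in
theorem s_SEM0 (p n : ℕ) [Fact p.Prime] (m : PM p n) : S_SEM0 p n := by
  intro ℓ s a θ u Y hs hθ t hu hY hP H
  have h := hs.str
  have h1 : ∀ y ∈ Y, ∃ C ∈ Com s.B, ∀ x, au (pull1 y θ - θ) u x = C *ᵥ x := fun y hy => by
    obtain ⟨k0, k1, ψ, hD, -⟩ := (m.dec ℓ s a hs).1 _ (H y hy).2
      (sub_mem (pull1_mem_Wt h.lab (h.alg.dg y (H y hy).1.1) hθ) hθ)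
    refine ⟨_, (hs.cmb_mem (a 2).rev (a 1) (k0 u)).2.1, fun x => ?_⟩
    rw [hD u hu x trivial, cso_nil t, cso_nil t]
    have e : (fun i : Ix n => ip (([] : List (Mat p n)).getD i.val 0 *ᵥ u) x) = 0 := by
      funext i
      simp
    rw [e, map_zero]
    simp [cmb]
  have h2 : ∀ x, ∀ y ∈ Y, au (pull1 y θ - θ) u x = 0 := fun x y hy => by
    refine (Submodule.mem_bot (ZMod p)).1
      (hP.sub ⊥ (fun y => au (pull1 y θ - θ) u x) (fun y hy z hz => ?_) hy)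
    obtain ⟨C, hC, e⟩ := h1 y hy
    have hz1 := (H z hz).1
    rw [show pull1 (y * z) θ - θ = pull1 z (pull1 y θ - θ) + (pull1 z θ - θ) by
      rw [pull1_mul, map_sub]; abel, au_add, au_pull, hz1.triv h t hu, e, e,
      com_mulVec hC hz1.1, hz1.2.1.st_mulVec, sub_self]
    exact zero_mem _
  have h3 : ∀ y ∈ Y, ∀ τ ∈ D4 ℓ s a θ (u, 0), act y τ ∈ D4 ℓ s a θ (u, 0) := fun y hy => by
    rw [D4_eq t]
    rintro _ ⟨w, hw, rfl⟩
    obtain ⟨w1, w2⟩ := mem_gph.1 hw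
    have hy1 := (H y hy).1
    refine ⟨_, mem_gph.2 ⟨(h.alg.dg y hy1.1).mulVec_mem w1, ?_⟩, (act_t2 y w).symm⟩
    have e := au_add (pull1 y θ - θ) θ u w.1
    rw [h2 _ y hy, zero_add, sub_add_cancel, au_pull, hy1.triv h t hu] at e
    rw [w2, ← e, hy1.2.1.mulVec_st]
  exact fun y hy => mem_Ht.2 ⟨(H y hy).1.1, h3 y hy, h3 _ (hY.star y hy)⟩

end Pool.Agent.P.MP_f1a348_lc.UP.CU
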