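import Pool.Agent.P.MP_f1a348_lc.CU.Defs

/-! The index bound for a normal subgroup of class two that acts irreducibly. -/

namespace Pool.Agent.P.MP_f1a348_lc.UP.CU

open Matrix Module Pool.Agent.P.MP_f1a348_lc.PG
open scoped commutatorElement

namespace SO1z

theorem num (t : ℕ) : 4 * (t + 1) ^ 2 + 3 * (t + 1) ≤ 22 * 2 ^ t := by
  induction t with
  | zero => norm_num
  | succ t ih =>
    have := t.lt_two_pow_self
    rw [pow_succ 2]
    nlinarith

theorem num2 {p D : ℕ} (hp : 2 ≤ p) (hD : 0 < D) : PX.sml D * D ≤ p ^ (22 * D) := by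
  obtain ⟨t, ht⟩ : ∃ t, Nat.size D = t + 1 := ⟨_, (Nat.succ_pred_eq_of_pos (Nat.size_pos.2 hD)).symm⟩
  have h1 : 2 ^ t ≤ D := Nat.lt_size.1 (by omega)
  have h2 : D < 2 ^ (t + 1) := ht ▸ Nat.lt_size_self D
  have h3 := num t
  calc PX.sml D * D ≤ 2 ^ (2 * (t + 1) * (2 * (t + 1) + 1)) * 2 ^ (t + 1) := by
        rw [PX.sml, ht]; exact Nat.mul_le_mul_left _ h2.le
    _ ≤ 2 ^ (22 * D) := by
        rw [← pow_add]; exact Nat.pow_le_pow_right two_pos (by nlinarith)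
    _ ≤ _ := Nat.pow_le_pow_left hp _

theorem idx {Γ : Type} [Group Γ] [Finite Γ] (N : Subgroup Γ) {C H : Subgroup Γ} (h : C ≤ H) :
    N.relIndex H ≤ N.relIndex C * C.relIndex H := by
  rw [← Subgroup.inf_relIndex_right N C, Subgroup.relIndex_mul_relIndex _ _ _ inf_le_right h]
  exact Subgroup.relIndex_le_of_le_left inf_le_left Subgroup.index_ne_zero_of_finite

end SO1z

theorem s_SO1 (p : ℕ) [Fact p.Prime] (hGAL : PX.S_GAL p) (hSOLV : PX.S_SOLV p)
    (hSCH : S_SCH p) : S_SO1 p := by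
  intro Γ W _ _ _ _ _ _ H M N σ hσ hM hN hI hc hk
  have : Module.Finite (ZMod p) W := Module.Finite.of_finite
  have : Finite (Module.End (ZMod p) W) := Finite.of_injective _ DFunLike.coe_injective
  have hD : 0 < finrank (ZMod p) W := finrank_pos
  obtain ⟨h1, h2, -, h4⟩ := hSCH Γ W M σ ⟨hσ.one, fun a ha b hb => hσ.mul a (hM ha) b (hM hb)⟩
  let C : Subgroup Γ := sg (fun h => h ∈ H ∧ ∀ z ∈ PX.Cm (PX.Env p M σ), σ h * z = z * σ h)
    ⟨H.one_mem, fun z _ => by rw [hσ.one, one_mul, mul_one]⟩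
    fun a b ha hb => ⟨H.mul_mem ha.1 hb.1, fun z hz => by
      rw [hσ.mul a ha.1 b hb.1, mul_assoc, hb.2 z hz, ← mul_assoc, ha.2 z hz, mul_assoc]⟩
  have hC : C ≤ H := fun h hh => hh.1
  have h5 := (hGAL Γ _ H C σ _ 1 hσ (h1 hI) (fun h hh => (h4 H hσ hM hN h hh).2)
    fun _ => Iff.rfl).2
  have h6 := hSOLV Γ W C M N σ ⟨hσ.one, fun a ha b hb => hσ.mul a ha.1 b hb.1⟩
    (fun a ha => ⟨hM ha, fun z hz => (hz _ (Submodule.subset_span ⟨a, ha, rfl⟩)).symm⟩)
    (fun h hh => hN h hh.1) (h1 hI) (fun h hh => hh.2) (fun a ha b hb z hz => ?_)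
    fun h hh => hk h hh.1
  · have h7 := h5.trans (max_le hD (h2 _ (h1 hI)))
    calc _ ≤ N.relIndex C * C.relIndex H := SO1z.idx N hC
      _ ≤ p ^ finrank (ZMod p) W * PX.sml (finrank (ZMod p) W) * finrank (ZMod p) W :=
          Nat.mul_le_mul h6 h7
      _ ≤ p ^ finrank (ZMod p) W * p ^ (22 * finrank (ZMod p) W) := by
          rw [mul_assoc]; exact Nat.mul_le_mul_left _ (SO1z.num2 (Fact.out : p.Prime).two_le hD)
      _ = _ := by rw [← pow_add]; congr 1; ring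
  · induction hz using Submodule.span_induction with
    | mem x hx => obtain ⟨c, h, rfl⟩ := hx; exact hc a ha b hb c h
    | zero => simp
    | add x y _ _ hx hy => rw [mul_add, add_mul, hx, hy]
    | smul c x _ hx => rw [mul_smul_comm, smul_mul_assoc, hx]

end Pool.Agent.P.MP_f1a348_lc.UP.CU
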