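import Pool.Agent.P.MP_f1a348_lc.CU.Defs

/-! Project CU, task STCF: stability in terms of a composition flag. -/

namespace Pool.Agent.P.MP_f1a348_lc.UP.CU

open Matrix Module Pool.Agent.P.MP_f1a348_lc.PG
open scoped commutatorElement

theorem s_STCF (p n : ℕ) [Fact p.Prime] (hENV : S_ENV p n) (hRAD : S_RAD p n) (hBLK : S_BLK p n)
    (hJH : S_JH p n) (hUNI : S_UNI p n) : S_STCF p n := by
  have h2 : ∀ (Z : SG p n) R f ℓ α, SA R → CF R f ℓ → Env Z ≤ R →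
      (Triv ℓ (gB R f ℓ) α → Z ≤ KS f ℓ α) ∧
      (Stable Z → nb ℓ α ^ 2 ≤ gam n * eb ℓ (gB R f ℓ) α → Z ≤ KS f ℓ α) := by
    intro Z R f ℓ α hR hC hZ
    obtain ⟨b1, b2, b3⟩ := hBLK R f ℓ hR hC
    obtain ⟨c1, c2, c3, c4, -, c6⟩ := b1 α
    refine ⟨fun t g hg => ?_, fun hS hn => ?_⟩
    · have h1 := hZ ((hENV.1 Z).2.1 g hg)
      rw [c6 g h1, (c4 _).2 t, b2]
      exact ⟨sub_mem h1 hR.one, by rw [Matrix.sub_apply, g.2.2.2, Matrix.one_apply_eq, sub_self]⟩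
    · refine hS.2 _ _ c1.lt.le (fun x hx => c1.invL x (hZ hx)) (fun x hx => c1.invU x (hZ hx)) ?_
      have e : ann (Env Z) (sL f ℓ α) (sH f ℓ α) = Env Z ⊓ MI R f ℓ {α} := by
        rw [← c2]
        exact Submodule.ext fun x => ⟨fun h => ⟨h.1, hZ h.1, h.2⟩, fun h => ⟨h.1, h.2.2⟩⟩
      have h1 := Submodule.finrank_sup_add_finrank_inf_eq (Env Z) (MI R f ℓ {α})
      have h3 := Submodule.finrank_mono (sup_le hZ (b3 {α}).1)
      have h4 := Nat.le_of_mul_le_mul_right (c3.trans_le hn)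
        (eb_pos (hRAD R f ℓ hR hC.lab hC.tri).1 α)
      rw [e]
      omega
  have h3 : ∀ (Z : SG p n) f ℓ α, CF (Env Z) f ℓ → Z ≤ KS f ℓ α →
      Triv ℓ (gB (Env Z) f ℓ) α := by
    intro Z f ℓ α hC hZ
    obtain ⟨b1, b2, -⟩ := hBLK _ f ℓ (hENV.1 Z).1 hC
    obtain ⟨-, -, -, -, c5, c6⟩ := b1 α
    have h1 : ∀ x ∈ Env Z, x - x (c0 n) (c0 n) • (1 : Mat p n) ∈ MI (Env Z) f ℓ {α} := by
      intro x hx
      induction hx using Submodule.span_induction with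
      | mem x hx =>
        obtain ⟨g, hg, rfl⟩ := hx
        rw [g.2.2.2, one_smul]
        exact (c6 g ((hENV.1 Z).2.1 g hg)).1 (hZ hg)
      | zero => simp
      | add x y _ _ hx hy =>
        rw [Matrix.add_apply, add_smul, add_sub_add_comm]
        exact add_mem hx hy
      | smul c x _ hx =>
        rw [Matrix.smul_apply, smul_eq_mul, mul_smul, ← smul_sub]
        exact Submodule.smul_mem _ c hx
    obtain ⟨β, rfl, h⟩ := c5 {c0 n} fun x hx => by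
      obtain ⟨h4, h5⟩ := (b2 x).1 hx
      simpa [h5] using h1 x h4
    exact h
  refine ⟨fun X f ℓ hC => ⟨fun hS => ⟨hS.1, fun α t => ?_⟩, fun ⟨hP, hG⟩ => ⟨hP, ?_⟩⟩, h2, h3⟩
  · by_contra! h
    exact t (h3 X f ℓ α hC ((h2 X _ f ℓ α (hENV.1 X).1 hC le_rfl).2 hS h))
  · intro L U hL i1 i2 hd
    refine (hUNI X hP).2.1 L U hL i1 i2 fun L' U' h1 h4 hS g hg => ?_
    have hR := (hENV.1 X).1
    obtain ⟨α, e, -⟩ := hJH _ f ℓ L' U' hR hC hS
    obtain ⟨-, -, c3, -, -, c6⟩ := (hBLK _ f ℓ hR hC).1 α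
    have h5 : ann (Env X) L U ≤ MI (Env X) f ℓ {α} :=
      e ▸ fun x hx => ⟨hx.1, fun u hu => h1 (hx.2 u (h4 hu))⟩
    have h6 := Submodule.finrank_mono h5
    have t : Triv ℓ (gB (Env X) f ℓ) α := by
      by_contra t
      have h7 := hG α t
      rw [← c3] at h7
      have := Nat.lt_of_mul_lt_mul_right h7
      omega
    have h8 := (hENV.1 X).2.1 g hg
    have h9 := (c6 g h8).1 ((h2 X _ f ℓ α hR hC le_rfl).1 t hg)
    rw [← e] at h9
    refine mem_Ker.2 ⟨hS.invL _ h8, fun u hu => ?_⟩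
    simpa only [Matrix.sub_mulVec, Matrix.one_mulVec] using h9.2 u hu

end Pool.Agent.P.MP_f1a348_lc.UP.CU
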