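import Pool.Agent.P.MP_f1a348_lc.CU.Defs

/-!
Project CU: the binary tree of kernels is a valid certificate.
-/

namespace Pool.Agent.P.MP_f1a348_lc.UP.CU

open Matrix Module Pool.Agent.P.MP_f1a348_lc.PG
open scoped commutatorElement

namespace TREEz

/-- the subtree below the node `(j0, i0)` -/
def sbt {α : Type} (φ : ℕ → ℕ → α) (k j0 i0 : ℕ) : List (ℕ × α) :=
  (dy k).map fun r => (r.1, φ (j0 + r.1) (i0 * 2 ^ r.1 + r.2))

theorem sbt_zero {α : Type} (φ : ℕ → ℕ → α) (j0 i0 : ℕ) : sbt φ 0 j0 i0 = [(0, φ j0 i0)] := by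
  simp [sbt, dy]

theorem sbt_succ {α : Type} (φ : ℕ → ℕ → α) (k j0 i0 : ℕ) : sbt φ (k + 1) j0 i0 =
    (0, φ j0 i0) :: (up (sbt φ k (j0 + 1) (2 * i0) ++ sbt φ k (j0 + 1) (2 * i0 + 1)) ++ []) := by
  simp only [sbt, dy, up, List.map_cons, List.map_append, List.map_map, List.append_nil,
    add_zero, pow_zero, mul_one]
  congr 2
  · refine List.map_congr_left fun r _ => ?_
    simp only [Function.comp_apply]
    congr 2 <;> ring
  · refine List.map_congr_left fun r _ => ?_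
    simp only [Function.comp_apply]
    congr 2 <;> ring

variable {p n : ℕ} [Fact p.Prime]

omit [Fact p.Prime] in
theorem cj_val (a b : GG p n) (x : Mat p n) : cj (a * b).1 x = cj a.1 (cj b.1 x) := by
  simp only [cj_apply, val_mul, st_mul, mul_assoc]

theorem nm_cen {R M : Sub p n} {g k : GG p n} (h1 : g ∈ NmS R) (h2 : g ∈ NmS M)
    (hk : k ∈ CenQ R M) : g * k * g⁻¹ ∈ CenQ R M := by
  have h1' := mem_NmS.1 (inv_mem h1)
  have h2' := mem_NmS.1 (inv_mem h2)
  rw [mem_CenQ] at hk ⊢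
  refine ⟨fun y hy => ?_, fun x hx => ?_⟩
  · rw [cj_val, cj_val]
    exact mem_NmS.1 h2 _ (hk.1 _ (h2' y hy))
  · have e : x = cj g.1 (cj (g⁻¹).1 x) := by
      rw [← cj_val, mul_inv_cancel]; simp
    have := mem_NmS.1 h2 _ (hk.2 _ (h1' x hx))
    rwa [map_sub, ← e, ← cj_val, ← cj_val] at this

omit [Fact p.Prime] in
theorem dI_card (I : Set (Ix n)) (h j i : ℕ) : (dI I h j i).ncard ≤ 2 ^ (h - j) := by
  have := Set.ncard_le_ncard_of_injOn (s := dI I h j i) (t := (Finset.range (2 ^ (h - j)) : Set ℕ))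
    (fun α => α.val % 2 ^ (h - j)) (fun α _ => by simpa using Nat.mod_lt _ (by positivity))
    (fun α hα β hβ e => Fin.ext (by
      rw [← Nat.div_add_mod α.val (2 ^ (h - j)), ← Nat.div_add_mod β.val (2 ^ (h - j)), hα.2, hβ.2]
      exact congrArg _ e)) (Finset.finite_toSet _)
  rwa [Set.ncard_coe_finset, Finset.card_range] at this

omit [Fact p.Prime] in
theorem dI_split {I : Set (Ix n)} {h j i : ℕ} (hj : j < h) (α : Ix n) :
    α ∈ dI I h j i ↔ α ∈ dI I h (j + 1) (2 * i) ∨ α ∈ dI I h (j + 1) (2 * i + 1) := by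
  have e : h - j = h - (j + 1) + 1 := by omega
  simp only [dI, Set.mem_ofPred_eq, e, pow_succ, ← Nat.div_div_eq_div_mul, ← and_or_left]
  exact and_congr_right fun _ => by omega

end TREEz

open TREEz in
theorem s_TREE (p n : ℕ) [Fact p.Prime] (b : TB p n) (hPERM : S_PERM p n) : S_TREE p n := by
  intro H R f ℓ h hR hC hH h1 h2
  obtain ⟨-, q2, q3, q4, -, q6⟩ := hPERM H R f ℓ hR hC hH
  obtain ⟨k1, k2, k3, k4, k5, -⟩ := b.kid (GG p n)
  obtain ⟨-, -, -, -, s5, -⟩ := b.sol (GG p n)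
  obtain ⟨W, hW⟩ : ∃ W, W = Nat.size p * (3 * gam n + 1) := ⟨_, rfl⟩
  set I := Sml ℓ (gB R f ℓ) with hI
  let K : ℕ → ℕ → SG p n := fun j i => H ⊓ CenQ R (MI R f ℓ (dI I h j i))
  let φ : ℕ → ℕ → SG p n × SG p n := fun j i => (K j i, if j = h then K j i else
      H ⊓ NmS (MI R f ℓ (dI I h (j + 1) (2 * i))) ⊓ NmS (MI R f ℓ (dI I h (j + 1) (2 * i + 1))))
  have nm : ∀ j i, ∀ H' : SG p n, H' ≤ H ⊓ NmS (MI R f ℓ (dI I h j i)) → Nm H' (K j i) :=
    fun j i H' hH' g hg k hk =>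
      ⟨H.mul_mem (H.mul_mem (hH' hg).1 hk.1) (H.inv_mem (hH' hg).1),
        nm_cen (hH (hH' hg).1) (hH' hg).2 hk.2⟩
  have T : ∀ k j i, j + k = h → topI (sbt φ k j i) = K j i ∧
      ∀ H' : SG p n, H' ≤ H ⊓ NmS (MI R f ℓ (dI I h j i)) →
        Kids 5 (W + 2 ^ (k + 1) + k) H' (sbt φ k j i) := by
    intro k
    induction k with
    | zero =>
      intro j i e
      have e' : j = h := by omega
      subst e'
      have e0 : sbt φ 0 j i = (0, K j i, K j i) :: (up [] ++ []) := by simp [sbt_zero, φ, up]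
      rw [e0, k5, k4, inf_top_eq]
      refine ⟨rfl, fun H' hH' => Kids.cons _ W 0 _ _ _ _ _ (nm j i H' hH') ?_
        (by omega) (Kids.nil _ _) (s5 _ _ (inf_le_left.trans inf_le_right)) (Kids.nil _ _)⟩
      by_cases hE : ∃ α, α ∈ dI I j j i
      · obtain ⟨α, hα⟩ := hE
        have e1 : dI I j j i = {α} := by
          ext β
          refine ⟨fun hβ => Fin.ext ?_, fun hβ => hβ ▸ hα⟩
          have a1 := hα.2
          have a2 := hβ.2
          simp only [Nat.sub_self, pow_zero, Nat.div_one] at a1 a2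
          omega
        have a3 := (q4 α hα.1 H' (hH'.trans inf_le_left) (e1 ▸ hH'.trans inf_le_right)).trans
          (pow_le_five_pow p _)
        rw [← hW] at a3
        simp only [K, e1]
        rwa [← Subgroup.inf_relIndex_right, inf_right_comm,
          inf_eq_right.2 (hH'.trans inf_le_left), inf_comm, Subgroup.inf_relIndex_right]
      · have : H' ≤ K j i := fun g hg => (q6 _ g).2 ⟨(hH' hg).1, fun α hα => (hE ⟨α, hα⟩).elim⟩
        rw [Subgroup.relIndex_eq_one.2 this]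
        exact Nat.one_le_pow _ _ (by omega)
    | succ k ih =>
      intro j i e
      have hj : j < h := by omega
      obtain ⟨t1, c1⟩ := ih (j + 1) (2 * i) (by omega)
      obtain ⟨t2, c2⟩ := ih (j + 1) (2 * i + 1) (by omega)
      have e0 : φ j i = (K j i, H ⊓ NmS (MI R f ℓ (dI I h (j + 1) (2 * i))) ⊓
          NmS (MI R f ℓ (dI I h (j + 1) (2 * i + 1)))) := by simp only [φ, if_neg hj.ne]
      rw [sbt_succ, e0, k5, k4, inf_top_eq]
      refine ⟨rfl, fun H' hH' => Kids.cons _ (2 ^ (k + 1)) (W + 2 ^ (k + 1) + k) _ _ _ _ _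
        (nm j i H' hH') ?_ (by rw [pow_succ 2 (k + 1)]; omega)
        (k2 _ _ _ _ (c1 _ (inf_le_right.trans inf_le_left))
          (c2 _ (inf_le_right.trans (inf_le_inf_right _ inf_le_left)))) (s5 _ _ ?_) (Kids.nil _ _)⟩
      · have a1 := q3 _ _ (fun α hα => (dI_split hj α).2 (Or.inl hα)) H' (hH'.trans inf_le_left)
          (hH'.trans inf_le_right)
        have a2 := q3 _ _ (fun α hα => (dI_split hj α).2 (Or.inr hα)) H' (hH'.trans inf_le_left)
          (hH'.trans inf_le_right)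
        have a3 := dI_card I h j i
        rw [show h - j = k + 1 by omega] at a3
        rw [inf_assoc, ← Subgroup.inf_relIndex_right, inf_right_comm,
          inf_eq_right.2 (hH'.trans inf_le_left), inf_comm, Subgroup.inf_relIndex_right]
        refine (Subgroup.relIndex_inf_le.trans (Nat.mul_le_mul a1 a2)).trans ?_
        rw [← mul_pow]
        exact (Nat.pow_le_pow_left (by omega) _).trans (Nat.pow_le_pow_right (by omega) a3)
      · rw [k3, t1, t2]
        refine inf_le_right.trans fun g hg => (q6 _ g).2 ⟨hg.1.1, fun α hα => ?_⟩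
        rcases (dI_split hj α).1 hα with h' | h'
        · exact ((q6 _ g).1 hg.1).2 α h'
        · exact ((q6 _ g).1 hg.2).2 α h'
  have e1 : dI I h 0 0 = I := by
    ext α
    exact ⟨fun hα => hα.1, fun hα => ⟨hα, Nat.div_eq_of_lt (α.2.trans_le h1)⟩⟩
  have e2 : tree H R f ℓ I h = sbt φ h 0 0 := by simp [tree, sbt, φ, K]
  obtain ⟨t, c⟩ := T h 0 0 (by omega)
  rw [e2, t]
  refine ⟨k1 _ _ _ _ _ (c H (by rw [e1]; exact le_inf le_rfl q2)) ?_ le_rfl, by simp only [K, e1]⟩
  have := Nat.lt_two_pow_self (n := h)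
  have w1 := Nat.mul_le_mul_right (9 * (2 * n + 1)) (size_pos' p)
  have w2 := Nat.mul_le_mul_left (Nat.size p) (show 3 * gam n + 1 + 9 * (2 * n + 1) ≤ cT0 n by
    rw [cT0]; omega)
  rw [mul_add, ← hW] at w2
  simp only [cT, pow_succ]
  omega

end Pool.Agent.P.MP_f1a348_lc.UP.CU
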