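import Pool.Agent.P.MP_f1a348_lc.CU.TBLK
import Pool.Agent.P.MP_f1a348_lc.CU.TCFX
import Pool.Agent.P.MP_f1a348_lc.CU.TCORE
import Pool.Agent.P.MP_f1a348_lc.CU.TCRX
import Pool.Agent.P.MP_f1a348_lc.CU.TGABC
import Pool.Agent.P.MP_f1a348_lc.CU.TGQ
import Pool.Agent.P.MP_f1a348_lc.CU.TGQ0
import Pool.Agent.P.MP_f1a348_lc.CU.TGRA
import Pool.Agent.P.MP_f1a348_lc.CU.THI5
import Pool.Agent.P.MP_f1a348_lc.CU.TKIDS
import Pool.Agent.P.MP_f1a348_lc.CU.TLOCF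
import Pool.Agent.P.MP_f1a348_lc.CU.TLT0
import Pool.Agent.P.MP_f1a348_lc.CU.TNA23
import Pool.Agent.P.MP_f1a348_lc.CU.TNA5
import Pool.Agent.P.MP_f1a348_lc.CU.TOPP
import Pool.Agent.P.MP_f1a348_lc.CU.TPERM
import Pool.Agent.P.MP_f1a348_lc.CU.TPHB
import Pool.Agent.P.MP_f1a348_lc.CU.TPHI
import Pool.Agent.P.MP_f1a348_lc.CU.TPHM
import Pool.Agent.P.MP_f1a348_lc.CU.TPQ
import Pool.Agent.P.MP_f1a348_lc.CU.TPQ1
import Pool.Agent.P.MP_f1a348_lc.CU.TPQ3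
import Pool.Agent.P.MP_f1a348_lc.CU.TPQ4
import Pool.Agent.P.MP_f1a348_lc.CU.TPQ5
import Pool.Agent.P.MP_f1a348_lc.CU.TPQ8
import Pool.Agent.P.MP_f1a348_lc.CU.TQCF
import Pool.Agent.P.MP_f1a348_lc.CU.TQCORE
import Pool.Agent.P.MP_f1a348_lc.CU.TQE23
import Pool.Agent.P.MP_f1a348_lc.CU.TQE5
import Pool.Agent.P.MP_f1a348_lc.CU.TQMI
import Pool.Agent.P.MP_f1a348_lc.CU.TQPOT
import Pool.Agent.P.MP_f1a348_lc.CU.TQTREE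
import Pool.Agent.P.MP_f1a348_lc.CU.TQTRN
import Pool.Agent.P.MP_f1a348_lc.CU.TQUO
import Pool.Agent.P.MP_f1a348_lc.CU.TQXQ
import Pool.Agent.P.MP_f1a348_lc.CU.TR4
import Pool.Agent.P.MP_f1a348_lc.CU.TREFX
import Pool.Agent.P.MP_f1a348_lc.CU.TSEM0
import Pool.Agent.P.MP_f1a348_lc.CU.TSO1
import Pool.Agent.P.MP_f1a348_lc.CU.TSTCF
import Pool.Agent.P.MP_f1a348_lc.CU.TTREE
import Pool.Agent.P.MP_f1a348_lc.UP.TACQ
import Pool.Agent.P.MP_f1a348_lc.UP.TACW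
import Pool.Agent.P.MP_f1a348_lc.UP.TAUT
import Pool.Agent.P.MP_f1a348_lc.UP.TAUTQ
import Pool.Agent.P.MP_f1a348_lc.UP.TCLF
import Pool.Agent.P.MP_f1a348_lc.UP.TCOC
import Pool.Agent.P.MP_f1a348_lc.UP.TCYB
import Pool.Agent.P.MP_f1a348_lc.UP.TENV
import Pool.Agent.P.MP_f1a348_lc.UP.TFLD
import Pool.Agent.P.MP_f1a348_lc.UP.TGAL
import Pool.Agent.P.MP_f1a348_lc.UP.THOMB
import Pool.Agent.P.MP_f1a348_lc.UP.TJH
import Pool.Agent.P.MP_f1a348_lc.UP.TKID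
import Pool.Agent.P.MP_f1a348_lc.UP.TLC
import Pool.Agent.P.MP_f1a348_lc.UP.TLCS
import Pool.Agent.P.MP_f1a348_lc.UP.TN0
import Pool.Agent.P.MP_f1a348_lc.UP.TNPG
import Pool.Agent.P.MP_f1a348_lc.UP.TOP
import Pool.Agent.P.MP_f1a348_lc.UP.TQBFS
import Pool.Agent.P.MP_f1a348_lc.UP.TQCAP
import Pool.Agent.P.MP_f1a348_lc.UP.TQFIX
import Pool.Agent.P.MP_f1a348_lc.UP.TQNCL
import Pool.Agent.P.MP_f1a348_lc.UP.TQRED
import Pool.Agent.P.MP_f1a348_lc.UP.TQSUBS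
import Pool.Agent.P.MP_f1a348_lc.UP.TRAD
import Pool.Agent.P.MP_f1a348_lc.UP.TRB
import Pool.Agent.P.MP_f1a348_lc.UP.TREG
import Pool.Agent.P.MP_f1a348_lc.UP.TSCH
import Pool.Agent.P.MP_f1a348_lc.UP.TSEC
import Pool.Agent.P.MP_f1a348_lc.UP.TSOL
import Pool.Agent.P.MP_f1a348_lc.UP.TSOLV
import Pool.Agent.P.MP_f1a348_lc.UP.TSSM
import Pool.Agent.P.MP_f1a348_lc.UP.TUNI

/-!
Project CU: the statements that hold for every prime.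
-/

namespace Pool.Agent.P.MP_f1a348_lc.UP.CU

theorem a_SOL : S_SOL :=
  s_SOL

theorem a_KL : S_KL :=
  s_KL

theorem a_OP (p : ℕ) [Fact p.Prime] : S_OP p :=
  s_OP p a_SOL

theorem a_KID (p : ℕ) [Fact p.Prime] : S_KID p :=
  s_KID p a_SOL

theorem a_ENV (p n : ℕ) [Fact p.Prime] : S_ENV p n :=
  s_ENV p n

theorem a_SEC (p n : ℕ) [Fact p.Prime] : S_SEC p n :=
  s_SEC p n

theorem a_RB (p n : ℕ) [Fact p.Prime] : S_RB p n :=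
  s_RB p n (a_ENV p n) (a_SEC p n)

theorem a_LC (p n : ℕ) [Fact p.Prime] : S_LC p n :=
  s_LC p n (a_ENV p n) (a_SEC p n)

theorem a_LCS (p n : ℕ) [Fact p.Prime] : S_LCS p n :=
  s_LCS p n (a_LC p n)

theorem a_RAD (p n : ℕ) [Fact p.Prime] : S_RAD p n :=
  s_RAD p n (a_ENV p n)

theorem a_REFX (p n : ℕ) [Fact p.Prime] : S_REFX p n :=
  s_REFX p n (pm_all p n)

theorem a_CFX (p n : ℕ) [Fact p.Prime] : S_CFX p n :=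
  s_CFX p n (pm_all p n) (a_ENV p n) (a_SEC p n) (a_RAD p n) (a_REFX p n)

theorem a_BLK (p n : ℕ) [Fact p.Prime] : S_BLK p n :=
  s_BLK p n (pm_all p n) (a_ENV p n) (a_SEC p n) (a_RAD p n)

theorem a_JH (p n : ℕ) [Fact p.Prime] : S_JH p n :=
  s_JH p n (a_SEC p n) (a_BLK p n)

theorem a_UNI (p n : ℕ) [Fact p.Prime] : S_UNI p n :=
  s_UNI p n (a_ENV p n) (a_SEC p n)

theorem a_STCF (p n : ℕ) [Fact p.Prime] : S_STCF p n :=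
  s_STCF p n (a_ENV p n) (a_RAD p n) (a_BLK p n) (a_JH p n) (a_UNI p n)

theorem a_LOW (p n : ℕ) [Fact p.Prime] : S_LOW p n :=
  s_LOW p n (a_LC p n)

theorem a_QUO (p n : ℕ) [Fact p.Prime] : S_QUO p n :=
  s_QUO p n (pm_all p n)

theorem a_PHI (p n : ℕ) [Fact p.Prime] : S_PHI p n :=
  s_PHI p n (pm_all p n) (a_REFX p n) (a_QUO p n)

theorem a_ACQ : S_ACQ :=
  s_ACQ

theorem a_CRX (p n : ℕ) [Fact p.Prime] : S_CRX p n :=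
  s_CRX p n (pm_all p n)

theorem a_PHB (p n : ℕ) [Fact p.Prime] : S_PHB p n :=
  s_PHB p n (pm_all p n)

theorem a_GQ0 (p n : ℕ) [Fact p.Prime] : S_GQ0 p n :=
  s_GQ0 p n (pm_all p n) a_ACQ (a_CRX p n) (a_PHB p n)

theorem a_GQ (p n : ℕ) [Fact p.Prime] : S_GQ p n :=
  s_GQ p n (pm_all p n) (a_GQ0 p n) (a_REFX p n) (a_PHI p n)

theorem a_PHM (p n : ℕ) [Fact p.Prime] : S_PHM p n :=
  s_PHM p n (pm_all p n) (a_GQ p n) (a_REFX p n) (a_PHI p n)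

theorem a_GABC (p n : ℕ) [Fact p.Prime] : S_GABC p n :=
  s_GABC p n (pm_all p n) (a_GQ p n)

theorem a_TB (p n : ℕ) [Fact p.Prime] : TB p n :=
  ⟨pm_all p n, a_SOL, a_KL, a_OP p, a_KID 5, a_KID p, a_ENV p n, a_SEC p n, a_RB p n, a_LC p
    n, a_LCS p n, a_RAD p n, a_CFX p n, a_BLK p n, a_JH p n, a_UNI p n, a_STCF p n, a_LOW p n,
    a_PHI p n, a_PHM p n, a_PHB p n, a_GABC p n⟩

theorem a_SSM (p n : ℕ) [Fact p.Prime] : S_SSM p n :=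
  s_SSM p n (a_ENV p n)

theorem a_REG (p n : ℕ) [Fact p.Prime] : S_REG p n :=
  s_REG p n

theorem a_AUT : S_AUT :=
  s_AUT

theorem a_AUTQ (p n : ℕ) [Fact p.Prime] : S_AUTQ p n :=
  s_AUTQ p n a_AUT

theorem a_PERM (p n : ℕ) [Fact p.Prime] : S_PERM p n :=
  s_PERM p n (a_TB p n) (a_AUTQ p n)

theorem a_TREE (p n : ℕ) [Fact p.Prime] : S_TREE p n :=
  s_TREE p n (a_TB p n) (a_PERM p n)

theorem a_NPG (p : ℕ) [Fact p.Prime] : S_NPG p :=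
  s_NPG p

theorem a_CORE (p n : ℕ) [Fact p.Prime] : S_CORE p n :=
  s_CORE p n (a_TB p n) (a_PERM p n) (a_TREE p n) (a_NPG p)

theorem a_LOCF (p n : ℕ) [Fact p.Prime] : S_LOCF p n :=
  s_LOCF p n (a_TB p n)

theorem a_LOCP (p n : ℕ) [Fact p.Prime] : S_LOCP p n :=
  s_LOCP p n (a_TB p n)

theorem a_CLF (p n : ℕ) [Fact p.Prime] : S_CLF p n :=
  s_CLF p n

theorem a_QRED (p n : ℕ) [Fact p.Prime] : S_QRED p n :=
  s_QRED p n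

theorem a_QBFS (p n : ℕ) [Fact p.Prime] : S_QBFS p n :=
  s_QBFS p n (a_QRED p n)

theorem a_QSUBS (p n : ℕ) [Fact p.Prime] : S_QSUBS p n :=
  s_QSUBS p n (a_QRED p n) (a_QBFS p n)

theorem a_QCOS (p n : ℕ) [Fact p.Prime] : S_QCOS p n :=
  s_QCOS p n (a_QRED p n) (a_QBFS p n)

theorem a_QFIX (p n : ℕ) [Fact p.Prime] : S_QFIX p n :=
  s_QFIX p n (a_QRED p n) (a_QSUBS p n) (a_QCOS p n)

theorem a_QCAP (p n : ℕ) [Fact p.Prime] : S_QCAP p n :=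
  s_QCAP p n a_KL (a_QSUBS p n) (a_QFIX p n)

theorem a_QNCL (p n : ℕ) [Fact p.Prime] : S_QNCL p n :=
  s_QNCL p n a_SOL (a_OP p) (a_ENV p n) (a_QRED p n)

theorem a_QENVP (p n : ℕ) [Fact p.Prime] : S_QENVP p n :=
  s_QENVP p n (a_ENV p n)

theorem a_QCF (p n : ℕ) [Fact p.Prime] : S_QCF p n :=
  s_QCF p n (a_TB p n)

theorem a_QMI (p n : ℕ) [Fact p.Prime] : S_QMI p n :=
  s_QMI p n (a_TB p n) (a_QFIX p n)

theorem a_QTREE (p n : ℕ) [Fact p.Prime] : S_QTREE p n :=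
  s_QTREE p n (a_TB p n) (a_PERM p n) (a_QBFS p n) (a_QSUBS p n) (a_QMI p n)

theorem a_HOMB (p n : ℕ) [Fact p.Prime] : S_HOMB p n :=
  s_HOMB p n

theorem a_TC (p n : ℕ) [Fact p.Prime] : TC p n :=
  ⟨a_TB p n, a_SSM p n, a_CLF p n, a_REG p n, a_HOMB p n, a_AUTQ p n, a_NPG p, a_PERM p n,
    a_CORE p n, a_LOCF p n, a_LOCP p n⟩

theorem a_QCORE (p n : ℕ) [Fact p.Prime] : S_QCORE p n :=
  s_QCORE p n (a_TC p n) (a_QRED p n) (a_QNCL p n) (a_QENVP p n) (a_QCF p n) (a_QMI p n)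
    (a_QTREE p n)

theorem a_QPOT (p n : ℕ) [Fact p.Prime] : S_QPOT p n :=
  s_QPOT p n (pm_all p n) (a_PHI p n)

theorem a_NA23 (p n : ℕ) [Fact p.Prime] : S_NA23 p n :=
  s_NA23 p n (pm_all p n)

theorem a_SEM0 (p n : ℕ) [Fact p.Prime] : S_SEM0 p n :=
  s_SEM0 p n (pm_all p n)

theorem a_LT0 (p n : ℕ) [Fact p.Prime] : S_LT0 p n :=
  s_LT0 p n (pm_all p n) (a_SEM0 p n)

theorem a_FLD (p : ℕ) [Fact p.Prime] : PX.S_FLD p :=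
  s_FLD p

theorem a_FRB (p : ℕ) [Fact p.Prime] : S_FRB p :=
  s_FRB p

theorem a_GAL (p : ℕ) [Fact p.Prime] : PX.S_GAL p :=
  s_GAL p (a_FLD p) (a_FRB p)

theorem a_ACW (p : ℕ) [Fact p.Prime] : S_ACW p :=
  s_ACW p

theorem a_CYB (p : ℕ) [Fact p.Prime] : S_CYB p :=
  s_CYB p

theorem a_SCH (p : ℕ) [Fact p.Prime] : S_SCH p :=
  s_SCH p

theorem a_N0 (p : ℕ) [Fact p.Prime] : S_N0 p :=
  s_N0 p (a_ACW p) (a_CYB p) (a_SCH p)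

theorem a_SOLV (p : ℕ) [Fact p.Prime] : PX.S_SOLV p :=
  s_SOLV p (a_FLD p) (a_FRB p) (a_SCH p)

theorem a_SO1 (p : ℕ) [Fact p.Prime] : S_SO1 p :=
  s_SO1 p (a_GAL p) (a_SOLV p) (a_SCH p)

theorem a_KIDS (p : ℕ) [Fact p.Prime] : S_KIDS p :=
  s_KIDS p a_SOL (a_FLD p) (a_GAL p) (a_N0 p) (a_SCH p) (a_SO1 p)

theorem a_QTRN (p n : ℕ) [Fact p.Prime] : S_QTRN p n :=
  s_QTRN p n (a_TB p n) (a_QFIX p n)

theorem a_QE23 (p n : ℕ) [Fact p.Prime] : S_QE23 p n :=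
  s_QE23 p n (pm_all p n)

theorem a_QE5 (p n : ℕ) [Fact p.Prime] : S_QE5 p n :=
  s_QE5 p n (pm_all p n)

theorem a_QXQ (p n : ℕ) [Fact p.Prime] : S_QXQ p n :=
  s_QXQ p n (pm_all p n) (a_QE23 p n) (a_QE5 p n)

theorem a_NA5 (p n : ℕ) [Fact p.Prime] : S_NA5 p n :=
  s_NA5 p n (pm_all p n)

theorem a_HI5 (p n : ℕ) [Fact p.Prime] : S_HI5 p n :=
  s_HI5 p n (pm_all p n)

theorem a_PQ1 (p n : ℕ) [Fact p.Prime] : S_PQ1 p n :=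
  s_PQ1 p n (pm_all p n) (a_GQ p n) (a_GABC p n)

theorem a_GRA (p n : ℕ) [Fact p.Prime] : S_GRA p n :=
  s_GRA p n (pm_all p n)

theorem a_R4 (p n : ℕ) [Fact p.Prime] : S_R4 p n :=
  s_R4 p n (pm_all p n)

theorem a_PQ4 (p n : ℕ) [Fact p.Prime] : S_PQ4 p n :=
  s_PQ4 p n (pm_all p n) (a_GRA p n) (a_R4 p n)

theorem a_PQ5 (p n : ℕ) [Fact p.Prime] : S_PQ5 p n :=
  s_PQ5 p n (pm_all p n)

theorem a_OPP (p : ℕ) [Fact p.Prime] : PX.S_OPP p :=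
  s_OPP p

theorem a_PQ8 (p n : ℕ) [Fact p.Prime] : S_PQ8 p n :=
  s_PQ8 p n (pm_all p n) (a_GRA p n) (a_R4 p n) (a_OPP p)

theorem a_PQ3 (p n : ℕ) [Fact p.Prime] : S_PQ3 p n :=
  s_PQ3 p n (pm_all p n) (a_GQ p n) (a_PQ4 p n) (a_PQ5 p n) (a_PQ8 p n)

theorem a_PQ (p n : ℕ) [Fact p.Prime] : S_PQ p n :=
  s_PQ p n (pm_all p n) (a_PQ1 p n) (a_PQ3 p n) (a_GABC p n)

theorem a_TP (p n : ℕ) [Fact p.Prime] : TP p n :=
  ⟨a_QRED p n, a_QBFS p n, a_QSUBS p n, a_QCOS p n, a_QFIX p n, a_QCAP p n, a_QNCL p n,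
    a_QENVP p n, a_QCF p n, a_QCORE p n, a_QMI p n, a_QTRN p n, a_QPOT p n⟩

end Pool.Agent.P.MP_f1a348_lc.UP.CU
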