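import Pool.Agent.P.MP_f1a348_lc.UP.Prog
import Pool.Agent.P.MP_f1a348_lc.CU.EDefs

/-!
Project CU: the program of the core with the larger constant.
-/

namespace Pool.Agent.P.MP_f1a348_lc.UP.CU

open Pool.Agent.P.MP_f1a348_lc.PG

def smlQ (c : Cx) (l : V) (s : Sd) : List ℕ :=
  (ran (u1 c)).filter fun a => !trivP c s a &&
    Nat.ble (nbP c l a * nbP c l a) (KG * mM c * (csg c s a a).length)
def smlP (c : Cx) (x : Lt) : List ℕ := smlQ c x.1 (sdB c x.1 x.2.2)
def coreQ (c : Cx) (H Z R : List V) (x : Lt) (F : Fo) : List V × Fo :=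
  (fixP c (fun g => grP c x.1 (frP c x.2.1 g)) (smlP c x) Z, F ++ treeP c H R x (smlP c x))
def coreR (c : Cx) (H Z R : List V) (F : Fo) : List V × Fo :=
  coreQ c H Z R (cfP c (oneP c) (l0P c) R) F
def coreStep (c : Cx) (H : List V) (s : List V × Fo) : List V × Fo :=
  coreR c H (frG c s.1) (envP c (frG c s.1)) s.2
/-- the core and its forest -/
def coreP (c : Cx) (H N : List V) : List V × Fo :=
  (uR c).foldl (fun s _ => coreStep c H s) (red c N, [])

end Pool.Agent.P.MP_f1a348_lc.UP.CU
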