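import Pool.Agent.P.MP_f1a348_lc.UP.PIf
import Pool.Agent.P.MP_f1a348_lc.CU.Defs
import Pool.Agent.P.MP_f1a348_lc.CU.ORef
import Pool.Agent.P.MP_f1a348_lc.CU.Prog

/-!
Project CU: contexts with a larger budget and the specification of the core.
-/

namespace Pool.Agent.P.MP_f1a348_lc.UP.CU

open Matrix Module Pool.Agent.P.MP_f1a348_lc.PG
open scoped commutatorElement

/-- the budget -/
def bud2 (n : ℕ) : ℕ := 1000 * gam n

/-- contexts with a larger budget -/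
structure Ok (p n : ℕ) (c : Cx) : Prop extends UP.Ok p n c where
  pad' : p ^ bud2 n ≤ c.2.2.length

section
variable {p n : ℕ} {c : Cx}

instance : CoeOut (Ok p n c) (UP.Ok p n c) := ⟨Ok.toOk⟩

theorem Ok.of (h1 : pp c = p) (h2 : mM c = 2 * n + 1) (h3 : p ^ bud2 n ≤ c.2.2.length) :
    Ok p n c :=
  ⟨⟨h1, h2, (Nat.pow_le_pow_right (by rw [← h1]; exact Nat.succ_pos _)
    (by simp only [UP.bud2, bud2, gam, KG]; omega)).trans h3⟩, h3⟩

protected theorem Ok.pow_le (h : Ok p n c) {k : ℕ} (hk : k ≤ bud2 n) : p ^ k ≤ c.2.2.length :=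
  (Nat.pow_le_pow_right (by rw [← h.hp]; exact Nat.succ_pos _) hk).trans h.pad'

variable [Fact p.Prime]

protected theorem Ok.le_pad (h : Ok p n c) {k : ℕ} (hk : k ≤ bud2 n) : k ≤ c.2.2.length :=
  (Nat.lt_pow_self (Fact.out : p.Prime).one_lt).le.trans (h.pow_le hk)

protected theorem Ok.pwN (h : Ok p n c) {k : ℕ} (hk : k ≤ bud2 n) : pwN c k = p ^ k := by
  rw [UP.pwN, mn_eq (h.le_pad hk), h.hp]

/-- budgets in base five -/
protected theorem Ok.five_le (h : Ok p n c) {k E : ℕ} (hk : 6 * k ≤ bud2 n)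
    (hE : E ≤ Nat.size p * k) : 5 ^ E ≤ c.2.2.length :=
  ((Nat.pow_le_pow_right (by norm_num) hE).trans (five_pow_le' p k)).trans (h.pow_le hk)

end

variable (p n : ℕ) [Fact p.Prime]

def S_QMI : Prop := ∀ (c : Cx) (R : List V) (x : Lt) (f : GG p n), UP.Ok p n c →
  SA (sp (mat p n) R) → CFx p n (sp (mat p n) R) x f →
  (∀ i ∈ smlP c x, i < 2 * n + 1) ∧
  (∀ α : Ix n, α.val ∈ smlP c x ↔ α ∈ Sml (lab n x.1) (gB (sp (mat p n) R) f (lab n x.1))) ∧
  (∀ I : List ℕ, (∀ i ∈ I, i < 2 * n + 1) →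
    sp (mat p n) (miP c R x I) = MI (sp (mat p n) R) f (lab n x.1) {α | α.val ∈ I}) ∧
  (∀ I : List V, Tst (nmT c I) ⊤ (· ∈ NmS (sp (mat p n) I)) ∧
    Tst (cenT c R I) ⊤ (· ∈ CenQ (sp (mat p n) R) (sp (mat p n) I))) ∧
  dyP c = dy (Nat.size (2 * n + 1)) ∧ hP c = Nat.size (2 * n + 1) ∧
  (dy (Nat.size (2 * n + 1))).length ≤ 4 * (2 * n + 1) ∧
  ∀ Z : List V, Env (gS p n Z) ≤ sp (mat p n) R →
    gS p n (fixP c (fun g => grP c x.1 (frP c x.2.1 g)) (smlP c x) Z) =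
      gS p n Z ⊓ KB f (lab n x.1) (Sml (lab n x.1) (gB (sp (mat p n) R) f (lab n x.1)))

def S_QTREE : Prop := ∀ (c : Cx) (H R : List V) (x : Lt) (f : GG p n), Ok p n c →
  SA (sp (mat p n) R) → CFx p n (sp (mat p n) R) x f → gS p n H ≤ NmS (sp (mat p n) R) →
  foD p n (treeP c H R x (smlP c x)) = tree (gS p n H) (sp (mat p n) R) f (lab n x.1)
    (Sml (lab n x.1) (gB (sp (mat p n) R) f (lab n x.1))) (Nat.size (2 * n + 1))

def S_QCORE : Prop := ∀ (c : Cx) (H N : List V), Ok p n c → gS p n N ≤ gS p n H →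
  Nm (gS p n H) (gS p n N) →
  Core (gS p n H) (gS p n N) (gS p n (coreP c H N).1) (foD p n (coreP c H N).2) ∧
    (coreP c H N).2.length ≤ rho0 p n

/-- the toolbox of the program -/
structure TP : Prop where
  red : S_QRED p n
  bfs : S_QBFS p n
  subs : S_QSUBS p n
  cos : S_QCOS p n
  fix : S_QFIX p n
  cap : S_QCAP p n
  ncl : S_QNCL p n
  env : S_QENVP p n
  cf : S_QCF p n
  core : S_QCORE p n
  mi : S_QMI p n
  trn : S_QTRN p n
  pot : S_QPOT p n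

end Pool.Agent.P.MP_f1a348_lc.UP.CU
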