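import Pool.Agent.P.MP_f1a348_lc.UP.PTime
import Pool.Agent.P.MP_f1a348_lc.CU.Prog

/-!
Project CU: the core is computed in polynomial time.
-/

namespace Pool.Agent.P.MP_f1a348_lc.UP.CU

open Pool.Agent.Lib.Helper47 Pool.Agent.P.MP_f1a348_lc.PG
open Pool.Agent.P.MP_f1a348_lc.GI (ps_len)

set_option synthInstance.maxSize 4096

variable {α : Type} [Enc α]

@[fun_prop] theorem pt_smlQ {c : α → Cx} {l : α → V} {s : α → Sd} (h1 : PT c) (h2 : PT l) (h3 : PT
    s) : PT (fun ee => smlQ (c ee) (l ee) (s ee)) := by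
  unfold smlQ; fun_prop

@[fun_prop] theorem pt_smlP {c : α → Cx} {x : α → Lt} (h1 : PT c) (h2 : PT x) : PT (fun ee => smlP
    (c ee) (x ee)) := by
  unfold smlP; fun_prop

@[fun_prop] theorem pt_coreQ {c : α → Cx} {H : α → List V} {Z : α → List V} {R : α → List V} {x :
    α → Lt} {F : α → Fo} (h1 : PT c) (h2 : PT H) (h3 : PT Z) (h4 : PT R) (h5 : PT x) (h6 : PT F) :
    PT (fun ee => coreQ (c ee) (H ee) (Z ee) (R ee) (x ee) (F ee)) := by
  unfold coreQ; fun_prop

@[fun_prop] theorem pt_coreR {c : α → Cx} {H : α → List V} {Z : α → List V} {R : α → List V} {F :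
    α → Fo} (h1 : PT c) (h2 : PT H) (h3 : PT Z) (h4 : PT R) (h5 : PT F) : PT (fun ee => coreR (c
    ee) (H ee) (Z ee) (R ee) (F ee)) := by
  unfold coreR; fun_prop

@[fun_prop] theorem pt_coreStep {c : α → Cx} {H : α → List V} {s : α → List V × Fo} (h1 : PT c)
    (h2 : PT H) (h3 : PT s) : PT (fun ee => coreStep (c ee) (H ee) (s ee)) := by
  unfold coreStep; fun_prop

theorem size_coreStep (c : Cx) (H : List V) (s : List V × Fo) : size (coreStep c H s) ≤
    size s + (bR c + ((dyP c).length * (size (dyP c) + 2 * bR c + 1) + 1)) := by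
  unfold coreStep coreR coreQ
  generalize cfP _ _ _ _ = x
  have h1 := size_treeP c H (envP c (frG c s.1)) x (smlP c x)
  have h2 : size (fixP c (fun g => grP c x.1 (frP c x.2.1 g)) (smlP c x) (frG c s.1)) ≤ _ :=
    size_subs _ _ _ _
  have h3 := size_append s.2 (treeP c H (envP c (frG c s.1)) x (smlP c x))
  rw [size_pair, size_prod s]; omega

@[fun_prop] theorem pt_coreP {c : α → Cx} {H : α → List V} {N : α → List V} (h1 : PT c) (h2 : PT
    H) (h3 : PT N) : PT (fun ee => coreP (c ee) (H ee) (N ee)) :=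
  PT.foldl_add (f := fun e s _ => coreStep (c e) (H e) s) (by fun_prop) (by fun_prop)
    (by fun_prop) _ ((ps_bR h1).add (((ps_len (pt_dyP h1)).mul (((pt_dyP h1).size_le.add
      ((PB.const 2).mul (ps_bR h1))).add (PB.const 1))).add (PB.const 1)))
    fun _ _ _ _ => size_coreStep _ _ _

end Pool.Agent.P.MP_f1a348_lc.UP.CU
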