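import Pool.Agent.P.MP_f1a348_lc.CU.Defs

namespace Pool.Agent.P.MP_f1a348_lc.UP.CU

open Matrix Module Pool.Agent.P.MP_f1a348_lc.PG
open scoped commutatorElement

namespace BLKz

variable {p n : ℕ} {ℓ : Ix n → ℕ} {R : Sub p n} {f : GG p n}

theorem pr_pr (a : Ix n) (y : Mat p n) : pr ℓ a * y * pr ℓ a = gr ℓ y * pr ℓ a := by
  ext β γ
  simp only [mul_pr_apply, pr_mul_apply, gr_apply]
  by_cases h1 : ℓ γ = ℓ a
  · simp only [h1, if_true]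
  · simp only [h1, if_false]

theorem pr_vec {a : Ix n} (y : Mat p n) {v : Vec p n} (hv : v ∈ Vb ℓ a) :
    (pr ℓ a * y) *ᵥ v = gr ℓ y *ᵥ v := by
  rw [← mem_Vb_iff.1 hv, Matrix.mulVec_mulVec, Matrix.mulVec_mulVec, pr_pr]

theorem mi1 {a : Ix n} {x : Mat p n} :
    x ∈ MI R f ℓ {a} ↔ x ∈ R ∧ gr ℓ (fr f x) * pr ℓ a = 0 := by
  refine and_congr_right fun _ => ⟨fun h => ?_, fun h α hα β γ h1 h2 => ?_⟩
  · ext β γ
    rw [mul_pr_apply, gr_apply, Matrix.zero_apply]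
    split_ifs with h1 h2
    · exact h a rfl β γ (h2.trans h1) h1
    all_goals rfl
  · have hα' : α = a := hα
    subst hα'
    have := congrFun (congrFun h β) γ
    rwa [mul_pr_apply, gr_apply, if_pos h2, if_pos (h1.trans h2.symm)] at this

theorem mi_all {I : Set (Ix n)} {x : Mat p n} :
    x ∈ MI R f ℓ I ↔ x ∈ R ∧ ∀ α ∈ I, x ∈ MI R f ℓ {α} :=
  ⟨fun h => ⟨h.1, fun α hα => ⟨h.1, fun β hβ => by
    have hβ' : β = α := hβ
    subst hβ'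
    exact h.2 β hα⟩⟩, fun h => ⟨h.1, fun α hα => (h.2 α hα).2 α rfl⟩⟩

theorem mem_gB {x : Mat p n} (hx : x ∈ R) : gr ℓ (fr f x) ∈ gB R f ℓ := ⟨x, hx, rfl⟩

variable [Fact p.Prime]

theorem mi_le (hS : Str ℓ (gB R f ℓ)) {α β : Ix n} (e : Cb ℓ (gB R f ℓ) α β ≠ ⊥) :
    MI R f ℓ {β} ≤ MI R f ℓ {α} := fun x hx => by
  obtain ⟨C, hC, h0⟩ := exists_cb_ne e
  obtain ⟨D, hD, e1, -⟩ := schur hS hC h0
  obtain ⟨hx1, hx2⟩ := mi1.1 hx
  refine mi1.2 ⟨hx1, ?_⟩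
  rw [← e1, ← mul_assoc, ← hC.1 _ (mem_gB hx1), ← cb_left hD, mul_assoc, ← mul_assoc _ (pr ℓ β),
    hx2, zero_mul, mul_zero]

theorem ex_cb (hS : Str ℓ (gB R f ℓ)) {α : Ix n} {I : Set (Ix n)}
    (h : MI R f ℓ I ≤ MI R f ℓ {α}) : ∃ β ∈ I, Cb ℓ (gB R f ℓ) α β ≠ ⊥ := by
  classical
  by_contra hn
  have hn' : ∀ β ∈ I, Cb ℓ (gB R f ℓ) α β = ⊥ := fun β hβ => by
    by_contra e
    exact hn ⟨β, hβ, e⟩
  have he : Matrix.diagonal (fun γ => if Cb ℓ (gB R f ℓ) α γ ≠ ⊥ then (1 : ZMod p) else 0) ∈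
      gB R f ℓ := diagonal_mem hS fun β γ e =>
    if_congr ⟨fun t => cb_trans hS t e, fun t => cb_trans hS t (cb_symm hS e)⟩ rfl rfl
  obtain ⟨x, hx, e⟩ := he
  have e' : ∀ β γ, ℓ β = ℓ γ → fr f x β γ = Matrix.diagonal
      (fun γ => if Cb ℓ (gB R f ℓ) α γ ≠ ⊥ then (1 : ZMod p) else 0) β γ := fun β γ h => by
    rw [← e, LinearMap.comp_apply, gr_apply, if_pos h]
  have h1 : x ∈ MI R f ℓ I := ⟨hx, fun δ hδ β γ h1 h2 => by
    rw [e' β γ (h1.trans h2.symm), Matrix.diagonal_apply, Cb_congr rfl h1, hn' δ hδ]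
    simp⟩
  have h2 := (h h1).2 α rfl α α rfl rfl
  rw [e' α α rfl, Matrix.diagonal_apply_eq, if_pos (cb_refl hS.alg α)] at h2
  exact one_ne_zero h2

theorem dim (m : PM p n) (hS : Str ℓ (gB R f ℓ)) (α : Ix n) :
    (finrank (ZMod p) R - finrank (ZMod p) (MI R f ℓ {α})) * eb ℓ (gB R f ℓ) α = nb ℓ α ^ 2 := by
  have h1 := m.ebas ℓ _ 1 α hS hS.alg.one (one_mul 1)
  have h2 : im (1 : Mat p n) = ⊤ := eq_top_iff.2 fun x _ => ⟨x, Matrix.one_mulVec x⟩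
  rw [h2, top_inf_eq, finrank_Vb] at h1
  rw [← h1]
  congr 1
  let φ : R →ₗ[ZMod p] Mat p n := (crn ℓ 1 α ∘ₗ gr ℓ ∘ₗ fr f) ∘ₗ R.subtype
  have h3 : LinearMap.range φ = (gB R f ℓ).map (crn ℓ 1 α) := by
    rw [LinearMap.range_comp, Submodule.range_subtype, gB, ← Submodule.map_comp]
  have h4 : LinearMap.ker φ = (MI R f ℓ {α}).comap R.subtype := by
    ext x
    rw [LinearMap.mem_ker, Submodule.mem_comap, mi1]
    simp [φ]
  have h5 := LinearMap.finrank_range_add_finrank_ker φ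
  have h6 : MI R f ℓ {α} ≤ R := fun _ h => h.1
  rw [h3, h4, (Submodule.comapSubtypeEquivOfLe h6).finrank_eq] at h5
  omega

end BLKz

open BLKz in
theorem s_BLK (p n : ℕ) [Fact p.Prime] (m : PM p n) (hENV : S_ENV p n) (hSEC : S_SEC p n)
    (hRAD : S_RAD p n) : S_BLK p n := by
  intro R f ℓ hR hc
  have hS : Str ℓ (gB R f ℓ) := ((hRAD R f ℓ hR hc.lab hc.tri).2.2 hc).1
  have hF := hENV.2.1 f
  refine ⟨fun α => ?_, fun x => ?_, fun I => ⟨fun _ h => h.1, fun x => mi_all, fun x hx y hy => ?_⟩⟩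
  · obtain ⟨s1, s2, s3, s4, s5, s6, -, -⟩ := hSEC.1 f ℓ α hc.lab
    have iL : Inv R (sL f ℓ α) := fun x hx => (s5 x (hc.tri x hx)).1
    have iU : Inv R (sH f ℓ α) := fun x hx => (s5 x (hc.tri x hx)).2
    have s7 : ∀ x ∈ R, ∀ v ∈ Vb ℓ α,
        x *ᵥ (f.1 *ᵥ v) - f.1 *ᵥ (gr ℓ (fr f x) *ᵥ v) ∈ sL f ℓ α := fun x hx v hv => by
      rw [← pr_vec _ hv]; exact s6 x (iU x hx) v hv
    have ha : ann R (sL f ℓ α) (sH f ℓ α) = MI R f ℓ {α} := by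
      ext x
      rw [mi1]
      refine and_congr_right fun hx => ⟨fun h => mat_ext fun v => ?_, fun h u hu => ?_⟩
      · have hv := pr_mulVec_mem (ℓ := ℓ) α v
        rw [← Matrix.mulVec_mulVec, Matrix.zero_mulVec]
        refine (s3 _ ((dg_gr _).mulVec_mem hv)).2 ?_
        have := sub_mem (h _ (s3 _ hv).1) (s7 x hx _ hv)
        rwa [sub_sub_cancel] at this
      · have h1 := s7 x hx _ (pr_mulVec_mem (ℓ := ℓ) α (st f.1 *ᵥ u))
        rw [Matrix.mulVec_mulVec _ (gr ℓ _), h, Matrix.zero_mulVec, Matrix.mulVec_zero,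
          sub_zero] at h1
        have := add_mem (iL x hx _ (s4 u hu)) h1
        rwa [Matrix.mulVec_sub, sub_add_cancel] at this
    refine ⟨⟨iL, iU, lt_of_le_of_ne s1 fun e => ?_, fun W hW h1 h2 => ?_⟩, ha, dim m hS α,
      fun β => ⟨fun e => ?_, fun e => le_antisymm (mi_le hS (cb_symm hS e)) (mi_le hS e)⟩,
      fun I => ex_cb hS, fun g hg => ?_⟩
    · have := nb_pos ℓ α
      rw [e] at s2
      omega
    · refine or_iff_not_imp_left.2 fun e => le_antisymm h2 fun y hy => ?_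
      obtain ⟨u, hu, hu'⟩ := SetLike.exists_of_lt (lt_of_le_of_ne h1 (Ne.symm e))
      have h3 := s4 u (h2 hu)
      have hv := pr_mulVec_mem (ℓ := ℓ) α (st f.1 *ᵥ u)
      generalize pr ℓ α *ᵥ (st f.1 *ᵥ u) = v at h3 hv
      have h4 : v ≠ 0 := fun e' => hu' (by simpa [e'] using h3)
      obtain ⟨_, ⟨x, hx, rfl⟩, e'⟩ := hc.sim α v hv h4 _ (pr_mulVec_mem α (st f.1 *ᵥ y))
      have h5 : f.1 *ᵥ v ∈ W := by simpa using sub_mem hu (h1 h3)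
      have h6 := sub_mem (hW x hx _ h5) (h1 (s7 x hx v hv))
      rw [sub_sub_cancel] at h6
      have h7 := add_mem (h1 (s4 y hy)) h6
      rw [← e'] at h7
      simpa using h7
    · obtain ⟨γ, hγ, e'⟩ := ex_cb hS e.ge
      have hγ' : γ = β := hγ
      exact hγ' ▸ e'
    · rw [← ha]
      refine ⟨fun h => ⟨sub_mem hg hR.one, fun u hu => ?_⟩, fun h => ⟨iL _ hg, fun u hu => ?_⟩⟩
      · rw [Matrix.sub_mulVec, Matrix.one_mulVec]; exact h.2 u hu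
      · have := h.2 u hu
        rwa [Matrix.sub_mulVec, Matrix.one_mulVec] at this
  · refine and_congr_right fun hx => ?_
    rw [← ((hF x x).2.2.2.2.2.1 (hR.dg x hx)).2]
    refine ⟨fun h => h _ rfl _ _ rfl rfl, fun h α hα β γ h1 h2 => ?_⟩
    have hα' : α = c0 n := hα
    subst hα'
    rw [hc.lab.ctr β h1, hc.lab.ctr γ h2, h]
  · obtain ⟨hy1, hy2⟩ := mi_all.1 hy
    refine ⟨mi_all.2 ⟨hR.mul x hx y hy1, fun α hα => mi1.2 ⟨hR.mul x hx y hy1, ?_⟩⟩,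
      mi_all.2 ⟨hR.mul y hy1 x hx, fun α hα => mi1.2 ⟨hR.mul y hy1 x hx, ?_⟩⟩⟩
    · rw [(hF x y).1, gr_mul (hc.tri x hx) (hc.tri y hy1), mul_assoc, (mi1.1 (hy2 α hα)).2, mul_zero]
    · rw [(hF y x).1, gr_mul (hc.tri y hy1) (hc.tri x hx), mul_assoc, ← (dg_gr _).comm_pr,
        ← mul_assoc, (mi1.1 (hy2 α hα)).2, zero_mul]

end Pool.Agent.P.MP_f1a348_lc.UP.CU
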