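import Pool.Agent.P.MP_f1a348_lc.CU.Defs

/-! Local models along refinements of the flag. -/

namespace Pool.Agent.P.MP_f1a348_lc.UP.CU
open Matrix Module Pool.Agent.P.MP_f1a348_lc.PG
open scoped commutatorElement

namespace LOCFz
set_option linter.unusedSectionVars false

variable {p n : ℕ} [Fact p.Prime] {ℓ ℓ' : Ix n → ℕ} {S S' : Set (Ix n)} {f f' : GG p n}

open Classical in
theorem lc_apply (x : Mat p n) (α β : Ix n) : lc ℓ S x α β =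
    if α ∈ S then (if β ∈ S ∧ ℓ α = ℓ β then x α β else 0)
    else if α = β then x (c0 n) (c0 n) else 0 := by
  change (eS S * gr ℓ x * eS S + x (c0 n) (c0 n) • (1 - eS S) : Mat p n) α β = _
  simp only [eS, Matrix.add_apply, Matrix.mul_diagonal, Matrix.diagonal_mul, gr_apply,
    Matrix.smul_apply, Matrix.sub_apply, Matrix.one_apply, Matrix.diagonal_apply, smul_eq_mul]
  by_cases h1 : α ∈ S <;> by_cases h2 : β ∈ S <;> by_cases h3 : α = β <;>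
    by_cases h4 : ℓ α = ℓ β <;> simp_all

theorem lS_mem {α : Ix n} (h : α ∈ S) : lS ℓ S α = ℓ α := if_pos h

theorem lS_nmem {α : Ix n} (h : α ∉ S) : lS ℓ S α = α.val := if_neg h

theorem feq (h : Fine f ℓ f' ℓ') {α β : Ix n} (e : ℓ' α = ℓ' β) : ℓ α = ℓ β :=
  le_antisymm (h.fine _ _ e.le) (h.fine _ _ e.ge)

theorem clo (h : Fine f ℓ f' ℓ') (c : Clo ℓ S) : Clo ℓ' S :=
  ⟨fun α β e => c.blk α β (feq h e), c.rev⟩

theorem fine_lS (h : Fine f ℓ f' ℓ') (c : Clo ℓ S) (α β : Ix n)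
    (e : lS ℓ' S α ≤ lS ℓ' S β) : lS ℓ S α ≤ lS ℓ S β := by
  by_cases h1 : α ∈ S <;> by_cases h2 : β ∈ S
  · rw [lS_mem h1, lS_mem h2] at e ⊢; exact h.fine _ _ e
  · rw [lS_mem h1, lS_nmem h2] at e ⊢
    have h3 := feq h (h.lab'.lab_fst α)
    have h4 := h.lab.le (h.lab'.fst α)
    have h5 : (h.lab'.fst α).val = ℓ' α := rfl
    omega
  · rw [lS_nmem h1, lS_mem h2] at e ⊢
    by_contra hc
    have h3 := h.lab.can β α (by omega)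
    have h4 : α ≤ β := e.trans (h.lab'.le β)
    exact h1 (c.blk β α (le_antisymm h3 (h.lab.mono h4)) h2)
  · rw [lS_nmem h1, lS_nmem h2] at e ⊢; exact e

theorem tri_lc {y : Mat p n} (hy : Tri ℓ' y) : Tri (lS ℓ' S) (lc ℓ S y) := fun α β e => by
  rw [lc_apply] at e
  split_ifs at e with h1 h2 h3
  · rw [lS_mem h1, lS_mem h2.1]; exact hy α β e
  · exact absurd rfl e
  · subst h3; exact ⟨le_rfl, Iff.rfl, Iff.rfl⟩
  · exact absurd rfl e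

theorem gr_lc (h : Fine f ℓ f' ℓ') (y : Mat p n) : gr (lS ℓ' S) (lc ℓ S y) = lc ℓ' S y := by
  ext α β
  rw [gr_apply, lc_apply, lc_apply]
  by_cases h1 : α ∈ S
  · by_cases h2 : β ∈ S
    · rw [lS_mem h1, lS_mem h2]
      by_cases h3 : ℓ' α = ℓ' β
      · simp [h1, h2, h3, feq h h3]
      · simp [h1, h3]
    · simp [h1, h2]
  · by_cases h3 : α = β
    · subst h3; simp [h1]
    · simp [h1, h3]

theorem par_g (h : Fine f ℓ f' ℓ') : Par ℓ (f⁻¹ * f').1 := ⟨h.dg.tri h.lab, (f⁻¹ * f').2.2⟩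

theorem tri_back (b : TB p n) (h : Fine f ℓ f' ℓ') {x : Mat p n} (hx : Tri ℓ' (fr f' x)) :
    Tri ℓ (fr f x) := by
  obtain ⟨-, -, -, -, h1, h2, -⟩ := b.sec.2.2.2.2.1 f f' ℓ ℓ' h
  exact (h1 x).1 (h2 _ hx)

theorem key (b : TB p n) (h : Fine f ℓ f' ℓ') (c : Clo ℓ S) {x : Mat p n}
    (hx : Tri ℓ (fr f x)) :
    cj (st (lc ℓ S (f⁻¹ * f').1)) (loc f ℓ S x) = lc ℓ S (fr f' x) := by
  obtain ⟨-, hm, -, he, -⟩ := b.lc.1 ℓ S h.lab c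
  have hg := (par_g h).1
  have e : fr f' x = st (f⁻¹ * f').1 * fr f x * (f⁻¹ * f').1 := by
    have := (b.env.2.1 f x x).2.2.2.2.1 (f⁻¹ * f')
    rw [mul_inv_cancel_left] at this
    rw [this, fr, cj_apply, st_st]
  rw [e, hm _ _ ((hg.st h.lab).mul hx) hg, hm _ _ (hg.st h.lab) hx, (he _).1, cj_apply, st_st]
  rfl

theorem hm (b : TB p n) {R : Sub p n} (hR : SA R) (hl : Lab ℓ) (c : Clo ℓ S) (t : TriR R f ℓ) :
    Hm R (loc f ℓ S) := by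
  obtain ⟨-, hm, h1, he, -⟩ := b.lc.1 ℓ S hl c
  refine ⟨?_, fun x hx y hy => ?_, fun x hx => ?_⟩
  · change lc ℓ S (fr f 1) = 1
    rw [(b.env.2.1 f 1 1).2.2.1, h1]
  · change lc ℓ S (fr f (x * y)) = lc ℓ S (fr f x) * lc ℓ S (fr f y)
    rw [(b.env.2.1 f x y).1, hm _ _ (t x hx) (t y hy)]
  · change lc ℓ S (fr f x) (c0 n) (c0 n) = _
    rw [(he _).2.2.1, ((b.env.2.1 f x x).2.2.2.2.2.1 (hR.dg x hx)).2]

theorem lc_zero (h : Fine f ℓ f' ℓ') (s : S' ⊆ S) {y : Mat p n} (h0 : y (c0 n) (c0 n) = 0)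
    (e : lc ℓ S y = 0) : lc ℓ' S' y = 0 := by
  ext α β
  have := congrFun (congrFun e α) β
  rw [lc_apply] at this ⊢
  split_ifs with h1 h2 h3
  · rwa [if_pos (s h1), if_pos ⟨s h2.1, feq h h2.2⟩] at this
  · rfl
  · exact h0
  · rfl

end LOCFz

open LOCFz

theorem s_LOCF (p n : ℕ) [Fact p.Prime] (b : TB p n) : S_LOCF p n := by
  intro R f f' ℓ ℓ' S hR h cf c
  have c' := clo h c
  obtain ⟨l1, -, -, he, -⟩ := b.lc.1 ℓ S h.lab c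
  obtain ⟨l2, -, -, he', -⟩ := b.lc.1 ℓ' S h.lab' c'
  have hp := (he (f⁻¹ * f').1).2.2.2.2.2.2 (par_g h)
  have k : ∀ x ∈ R, fr ⟨_, hp.l0⟩ (loc f ℓ S x) = lc ℓ S (fr f' x) := fun x hx =>
    key b h c (tri_back b h (cf.tri x hx))
  have k2 : ∀ x ∈ R, gr (lS ℓ' S) (fr ⟨_, hp.l0⟩ (loc f ℓ S x)) = loc f' ℓ' S x := fun x hx => by
    rw [k x hx, gr_lc h]; rfl
  have e : gB (R.map (loc f ℓ S)) ⟨_, hp.l0⟩ (lS ℓ' S) = (gB R f' ℓ').map (lc ℓ' S) := by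
    have k3 : ∀ x ∈ R, gr (lS ℓ' S) (fr ⟨_, hp.l0⟩ (loc f ℓ S x)) =
        lc ℓ' S (gr ℓ' (fr f' x)) := fun x hx => by rw [k2 x hx, (he' _).2.2.2.1]; rfl
    apply le_antisymm
    · rintro _ ⟨_, ⟨x, hx, rfl⟩, rfl⟩
      exact ⟨_, ⟨x, hx, rfl⟩, (k3 x hx).symm⟩
    · rintro _ ⟨_, ⟨x, hx, rfl⟩, rfl⟩
      exact ⟨_, ⟨x, hx, rfl⟩, k3 x hx⟩
  refine ⟨c', ⟨_, hp.l0⟩, ⟨l1, l2, fine_lS h c, ?_⟩, ⟨l2, ?_, ?_⟩, e, k2⟩
  · rw [inv_one]; erw [one_mul]; exact (he _).2.1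
  · rintro _ ⟨x, hx, rfl⟩
    rw [k x hx]; exact tri_lc (cf.tri x hx)
  · rw [e]
    exact (b.lcs ℓ' S _ ((b.rad R f' ℓ' hR cf.lab cf.tri).2.2 cf).1 c').1.sim

theorem s_LOCP (p n : ℕ) [Fact p.Prime] (b : TB p n) : S_LOCP p n := by
  intro R f f' ℓ ℓ' S S' μ hR h t c c' s R' hR' le
  have t0 : TriR R f ℓ := fun x hx => tri_back b h (t x hx)
  obtain ⟨l1, -, -, he, -, -, -, -, a1, -⟩ := b.lc.1 ℓ S h.lab c
  obtain ⟨l2, -, -, -, -, -, -, -, a2, -⟩ := b.lc.1 ℓ' S' h.lab' c'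
  refine (b.phm μ _ _ _ l2 (a2 R f' hR t) (a2 R' f' hR' fun x hx => t x (le hx))
    (Submodule.map_mono le)).trans ?_
  refine (b.phi μ).2.2 _ _ R _ _ l2 l1 hR.one hR.mul (hm b hR h.lab' c' t) (hm b hR h.lab c t0)
    (a2 R f' hR t) (a1 R f hR t0) fun x hx e => ?_
  have e1 := key b h c (t0 x hx)
  rw [e, map_zero] at e1
  have e2 : loc f' ℓ' S' x = 0 := by
    refine lc_zero h s ?_ e1.symm
    exact ((he (fr f' x)).2.2.1).symm.trans (by rw [← e1]; rfl)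
  rw [e2]; exact IsNilpotent.zero

end Pool.Agent.P.MP_f1a348_lc.UP.CU
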